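import Pool.Agent.Lib.MP_305fdd_al.Fr.N.Int
import Pool.Agent.Lib.MP_305fdd_al.CC.PCharFin

/-!
# MP_305fdd_al, F_r project, section N: elementary facts on the definitions
-/

set_option autoImplicit false

namespace Pool.Agent.FrN

open Pool.Agent.F2Ch Pool.Agent.F2RF Pool.Agent.F2TF

/-! ## The class `H(b)` -/

section hb

variable {p b : ℕ} {Γ K F : Type} [Group Γ] [Field K] [Field F] [Algebra (ZMod p) K]
  [Algebra (ZMod p) F] [Algebra K F] {T : Γ → K} {ρ : Γ →* Matrix.SpecialLinearGroup (Fin 2) F}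

theorem tr_rel {R : Type} [CommRing R] (A B : Matrix.SpecialLinearGroup (Fin 2) R) :
    (A * B).1.trace + (A * B⁻¹).1.trace = A.1.trace * B.1.trace := by
  have h1 : (A * B).1 = A.1 * B.1 := rfl
  have h2 : (A * B⁻¹).1 = A.1 * B.1.adjugate := by
    rw [← Matrix.SpecialLinearGroup.coe_inv]
    rfl
  rw [h1, h2]
  simp only [Matrix.trace_fin_two, Matrix.mul_apply, Fin.sum_univ_two, Matrix.adjugate_fin_two]
  simp
  ring

theorem HB.one (H : HB p b Γ K F T ρ) : T 1 = 2 := by
  apply (algebraMap K F).injective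
  rw [← H.tr, map_one, map_ofNat]
  simp

theorem HB.comm (H : HB p b Γ K F T ρ) (g h : Γ) : T (g * h) = T (h * g) := by
  apply (algebraMap K F).injective
  rw [← H.tr, ← H.tr, map_mul, map_mul]
  exact Matrix.trace_mul_comm (ρ g).1 (ρ h).1

theorem HB.rel (H : HB p b Γ K F T ρ) (g h : Γ) : T (g * h) + T (g * h⁻¹) = T g * T h := by
  apply (algebraMap K F).injective
  rw [map_add, map_mul, ← H.tr, ← H.tr, ← H.tr, ← H.tr, map_mul, map_mul, map_inv]
  exact tr_rel _ _

theorem HB.pchar (H : HB p b Γ K F T ρ) [Fact p.Prime] :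
    Pool.Agent.CC.PChar (F := ZMod p) (1 : Γ →* (ZMod p)ˣ) T where
  one := H.one
  comm := H.comm
  rel g h := by
    rw [MonoidHom.one_apply, Units.val_one, map_one, one_mul]
    exact H.rel g h

theorem HB.BB_fg (H : HB p b Γ K F T ρ) [Fact p.Prime] : (BB p T).FG := by
  have := H.fg
  exact H.pchar.fg

end hb

/-! ## Operators of log type -/

section logty

variable {p : ℕ} [Fact p.Prime] {K : Type} [Field K]

theorem mb_pinv {d : ℕ} {t : Fin d → K} {π : (Fin d → Fin p) → K → K} [CharP K p] (h : MB p t π)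
    (a : Fin d → Fin p) : IsPinv p (π a) where
  add x y := by
    have h1 : x + y = ∑ i, (π i x + π i y) ^ p * monY (p := p) t i := by
      have h2 : ∀ i, (π i x + π i y) ^ p * monY (p := p) t i =
          π i x ^ p * monY (p := p) t i + π i y ^ p * monY (p := p) t i := fun i => by
        rw [add_pow_char, add_mul]
      simp_rw [h2]
      rw [Finset.sum_add_distrib, h.pb.repr, h.pb.repr]
    conv_lhs => rw [h1]
    exact h.pb.uniq _ _
  pow_mul x y := by
    have h1 : x ^ p * y = ∑ i, (x * π i y) ^ p * monY (p := p) t i := by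
      conv_lhs => rw [← h.pb.repr y, Finset.mul_sum]
      exact Finset.sum_congr rfl fun i _ => by rw [mul_pow]; ring
    conv_lhs => rw [h1]
    exact h.pb.uniq _ _

theorem lt_pinv [CharP K p] {Φ : K → K} (h : LogTy p Φ) : IsPinv p Φ := by
  obtain ⟨d, t, π, g, h1, h2, h3⟩ := h
  constructor
  · intro x y
    rw [h3, h3, h3, mul_add, (mb_pinv h1 j0).add, mul_add]
  · intro x y
    rw [h3, h3, mul_left_comm g (x ^ p) y, (mb_pinv h1 j0).pow_mul]
    ring

end logty

/-! ## Localisation -/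

section loc

variable {p : ℕ} {K : Type} [Field K] [Algebra (ZMod p) K] {B : Subalgebra (ZMod p) K}

theorem mem_loc {y : B} {M : Submodule B K} {x : K} : x ∈ loc y M ↔ ∃ a : ℕ, y ^ a • x ∈ M :=
  Iff.rfl

theorem le_loc (y : B) (M : Submodule B K) : M ≤ loc y M := fun x hx =>
  ⟨0, by rw [pow_zero, one_smul]; exact hx⟩

theorem loc_mono (y : B) {M M' : Submodule B K} (h : M ≤ M') : loc y M ≤ loc y M' :=
  fun _ ⟨a, ha⟩ => ⟨a, h ha⟩

theorem loc_one (M : Submodule B K) : loc 1 M = M := by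
  refine le_antisymm ?_ (le_loc _ _)
  rintro x ⟨a, ha⟩
  rwa [one_pow, one_smul] at ha

theorem loc_loc (y z : B) (M : Submodule B K) : loc y (loc z M) = loc (y * z) M := by
  ext x
  constructor
  · rintro ⟨a, c, hc⟩
    refine ⟨a + c, ?_⟩
    have h1 : (y * z) ^ (a + c) • x = (z ^ a * y ^ c) • (z ^ c • y ^ a • x) := by
      rw [smul_smul, smul_smul]
      congr 1
      ring
    rw [h1]
    exact M.smul_mem _ hc
  · rintro ⟨a, ha⟩
    refine ⟨a, a, ?_⟩
    rwa [smul_smul, ← mul_pow, mul_comm z y]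

theorem loc_comm (y z : B) (M : Submodule B K) : loc y (loc z M) = loc z (loc y M) := by
  rw [loc_loc, loc_loc, mul_comm]

theorem loc_idem (y : B) (M : Submodule B K) : loc y (loc y M) = loc y M := by
  refine le_antisymm ?_ (le_loc _ _)
  rintro x ⟨a, c, hc⟩
  refine ⟨c + a, ?_⟩
  rw [pow_add, mul_smul]
  exact hc

/-- `x ∈ loc y M` if `y * x ∈ loc y M` -/
theorem loc_div (y : B) (M : Submodule B K) {x : K} (h : (y : K) * x ∈ loc y M) :
    x ∈ loc y M := by
  obtain ⟨a, ha⟩ := h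
  refine ⟨a + 1, ?_⟩
  rw [pow_succ, mul_smul]
  exact ha

theorem Stb.loc {Φ : K → K} [Fact p.Prime] (h : IsPinv p Φ) {M : Submodule B K} (hM : Stb Φ M)
    (y : B) : Stb Φ (loc y M) := by
  rintro x ⟨a, ha⟩
  refine ⟨a, ?_⟩
  have h1 : y ^ a • Φ x = Φ ((y ^ a) ^ p • x) := by
    change ((y ^ a : B) : K) * Φ x = Φ ((((y ^ a) ^ p : B) : K) * x)
    rw [SubmonoidClass.coe_pow (y ^ a) p, h.pow_mul]
  rw [h1]
  apply hM
  have h2 : (y ^ a) ^ p = (y ^ a) ^ (p - 1) * y ^ a := by
    rw [← pow_succ, Nat.sub_add_cancel (Fact.out : p.Prime).one_le]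
  rw [h2, mul_smul]
  exact M.smul_mem _ ha

theorem mem_loc_div {y : B} (hy : (y : K) ≠ 0) {M : Submodule B K} {x : K} (hx : x ∈ M) (a : ℕ) :
    x / (y : K) ^ a ∈ loc y M := by
  refine ⟨a, ?_⟩
  have : y ^ a • (x / (y : K) ^ a) = x := by
    change ((y ^ a : B) : K) * (x / (y : K) ^ a) = x
    rw [SubmonoidClass.coe_pow]
    field_simp
  rwa [this]

end loc

theorem toEnd_pow {p : ℕ} [Fact p.Prime] {K : Type} [Field K] [Algebra (ZMod p) K] {Φ : K → K}
    (h : IsPinv p Φ) (e : ℕ) (x : K) : (toEnd h ^ e) x = Φ^[e] x := by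
  induction e generalizing x with
  | zero => rfl
  | succ e ih =>
    rw [pow_succ, Module.End.mul_apply, ih, Function.iterate_succ_apply]
    rfl

end Pool.Agent.FrN
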