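import Pool.Agent.Lib.MP_305fdd_al.F2.RF.Defs
import Pool.Agent.Lib.MP_305fdd_al.F2.TF.Defs

/-!
# MP_305fdd_al, F_r project, section N (nilpotence of the Cartier operator): definitions

`p` is a prime, `ZMod p` the ground field.  `PP C V₀` is the polynomial `det (1 - t C)` of an
endomorphism on a subspace `V₀` which is absorbed by a finite-dimensional stable subspace; `PV C V₀`
is the same as a unit of the ring of power series.
-/

set_option autoImplicit false

namespace Pool.Agent.FrN

open Pool.Agent.F2Ch Pool.Agent.F2RF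

/-! ## Nuclei and the polynomial of an endomorphism -/

section nuc

variable {k V : Type} [Field k] [AddCommGroup V] [Module k V]

/-- `W` is a finite-dimensional `C`-stable subspace of `V₀` which absorbs `V₀`. -/
structure Nuc (C : Module.End k V) (V₀ W : Submodule k V) : Prop where
  le : W ≤ V₀
  fin : FiniteDimensional k W
  stab : ∀ w ∈ W, C w ∈ W
  abs : ∀ v ∈ V₀, ∃ e : ℕ, (C ^ e) v ∈ W

open Classical in
/-- the polynomial `det (1 - t C | W)` for a nucleus `W` of `V₀` (`1` if there is none) -/
noncomputable def PP (C : Module.End k V) (V₀ : Submodule k V) : Polynomial k :=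
  if h : ∃ W, Nuc C V₀ W then
    haveI := h.choose_spec.fin
    (LinearMap.charpoly (C.restrict h.choose_spec.stab)).reverse
  else 1

theorem coeff_zero_PP (C : Module.End k V) (V₀ : Submodule k V) : (PP C V₀).coeff 0 = 1 := by
  classical
  unfold PP
  split_ifs with h
  · have := h.choose_spec.fin
    rw [Polynomial.coeff_zero_reverse]
    exact LinearMap.charpoly_monic _
  · simp

theorem isUnit_PP (C : Module.End k V) (V₀ : Submodule k V) :
    IsUnit ((PP C V₀ : Polynomial k) : PowerSeries k) := by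
  rw [PowerSeries.isUnit_iff_constantCoeff]
  have : PowerSeries.constantCoeff ((PP C V₀ : Polynomial k) : PowerSeries k) = 1 := by
    rw [Polynomial.constantCoeff_coe]
    exact coeff_zero_PP C V₀
  rw [this]
  exact isUnit_one

/-- the polynomial `PP C V₀` as a unit of the ring of power series -/
noncomputable def PV (C : Module.End k V) (V₀ : Submodule k V) : (PowerSeries k)ˣ :=
  (isUnit_PP C V₀).unit

@[simp]
theorem coe_PV (C : Module.End k V) (V₀ : Submodule k V) :
    ((PV C V₀ : (PowerSeries k)ˣ) : PowerSeries k) = ((PP C V₀ : Polynomial k) : PowerSeries k) :=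
  IsUnit.unit_spec _

end nuc

/-- congruence modulo `X ^ (d + 1)` of power series -/
def Cg {R : Type} [CommRing R] (d : ℕ) (f g : PowerSeries R) : Prop :=
  ∀ i ≤ d, PowerSeries.coeff i f = PowerSeries.coeff i g

/-! ## Cartier modules -/

/-- A Cartier module: a module `M` over the `F_p`-algebra `R` with an additive map `C` such that
`C (b ^ p m) = b C m`. -/
structure CMod (p : ℕ) (R : Type) [CommRing R] [Algebra (ZMod p) R] : Type 1 where
  /-- the module -/
  M : Type
  [ag : AddCommGroup M]
  [zm : Module (ZMod p) M]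
  [rm : Module R M]
  [st : IsScalarTower (ZMod p) R M]
  /-- the operator -/
  C : Module.End (ZMod p) M
  hC : ∀ (b : R) (m : M), C (b ^ p • m) = b • C m

attribute [instance] CMod.ag CMod.zm CMod.rm CMod.st

namespace CMod

variable {p : ℕ} {R : Type} [CommRing R] [Algebra (ZMod p) R]

/-- the polynomial of a Cartier module as a unit of the ring of power series -/
noncomputable def P [Fact p.Prime] (X : CMod p R) : (PowerSeries (ZMod p))ˣ := PV X.C ⊤

/-- the same module with the operator `m ↦ C (g m)` -/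
def tw (X : CMod p R) (g : R) : CMod p R where
  M := X.M
  C :=
    { toFun := fun m => X.C (g • m)
      map_add' := fun m m' => by rw [smul_add, map_add]
      map_smul' := fun c m => by
        rw [RingHom.id_apply, ← map_smul, smul_comm] }
  hC b m := by
    change X.C (g • b ^ p • m) = b • X.C (g • m)
    rw [smul_comm, X.hC]

theorem tw_apply (X : CMod p R) (g : R) (m : X.M) : (X.tw g).C m = X.C (g • m) := rfl

/-- the submodule killed by `y` -/
def kr [Fact p.Prime] (X : CMod p R) (y : R) : CMod p R where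
  M := ↥(LinearMap.ker (LinearMap.lsmul R X.M y))
  C :=
    { toFun := fun m => ⟨X.C m.1, by
        have h : y • m.1 = 0 := m.2
        have hp := (Fact.out : p.Prime).one_le
        have h1 : y ^ p • m.1 = 0 := by
          have h2 : y ^ p = y ^ (p - 1) * y := by rw [← pow_succ, Nat.sub_add_cancel hp]
          rw [h2, mul_smul, h, smul_zero]
        rw [LinearMap.mem_ker, LinearMap.lsmul_apply, ← X.hC, h1, map_zero]⟩
      map_add' := fun m m' => Subtype.ext (map_add X.C m.1 m'.1)
      map_smul' := fun c m => Subtype.ext (map_smul X.C c m.1) }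
  hC b m := Subtype.ext (X.hC b m.1)

/-- the quotient by the multiples of `y`, with the operator induced by `m ↦ C (y ^ (p - 1) m)` -/
def qt [Fact p.Prime] (X : CMod p R) (y : R) : CMod p R where
  M := X.M ⧸ LinearMap.range (LinearMap.lsmul R X.M y)
  C := 
    { toFun := Quotient.map' (fun m => X.C (y ^ (p - 1) • m)) (by
        intro a b h
        rw [Submodule.quotientRel_def, LinearMap.mem_range] at h ⊢
        obtain ⟨c, hc⟩ := h
        refine ⟨X.C c, ?_⟩
        rw [LinearMap.lsmul_apply] at hc ⊢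
        have hp := (Fact.out : p.Prime).one_le
        rw [← X.hC, ← map_sub, ← smul_sub, ← hc, ← mul_smul, ← pow_succ, Nat.sub_add_cancel hp])
      map_add' := by
        rintro ⟨a⟩ ⟨b⟩
        exact congrArg (Submodule.Quotient.mk)
          (show X.C (y ^ (p - 1) • (a + b)) = X.C (y ^ (p - 1) • a) + X.C (y ^ (p - 1) • b) by
            rw [smul_add, map_add])
      map_smul' := by
        rintro c ⟨a⟩
        exact congrArg (Submodule.Quotient.mk)
          (show X.C (y ^ (p - 1) • (c • a)) = c • X.C (y ^ (p - 1) • a) by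
            rw [← map_smul, smul_comm]) }
  hC b m := by
    obtain ⟨m, rfl⟩ := Submodule.Quotient.mk_surjective _ m
    exact congrArg (Submodule.Quotient.mk)
          (show X.C (y ^ (p - 1) • (b ^ p • m)) = b • X.C (y ^ (p - 1) • m) by
            rw [smul_comm, X.hC])

/-- the inclusion of the submodule killed by `y` -/
def incl [Fact p.Prime] (X : CMod p R) (y : R) : (X.kr y).M →ₗ[R] X.M :=
  (LinearMap.ker (LinearMap.lsmul R X.M y)).subtype

/-- the projection onto the quotient by the multiples of `y` -/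
def proj [Fact p.Prime] (X : CMod p R) (y : R) : X.M →ₗ[R] (X.qt y).M :=
  (LinearMap.range (LinearMap.lsmul R X.M y)).mkQ

theorem incl_C [Fact p.Prime] (X : CMod p R) (y : R) (m : (X.kr y).M) :
    X.incl y ((X.kr y).C m) = X.C (X.incl y m) := rfl

theorem proj_C [Fact p.Prime] (X : CMod p R) (y : R) (m : X.M) :
    (X.qt y).C (X.proj y m) = X.proj y (X.C (y ^ (p - 1) • m)) := rfl

/-- the alternating product of the polynomials of `(M, C ∘ (∏ i ∈ S, y_i) ^ (p - 1))` -/
noncomputable def KP [Fact p.Prime] : List R → CMod p R → (PowerSeries (ZMod p))ˣ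
  | [], X => X.P
  | y :: ys, X => KP ys X / KP ys (X.tw (y ^ (p - 1)))

/-- the alternating product of the polynomials of the leaves (iterated kernels and quotients) -/
noncomputable def LP [Fact p.Prime] : List R → CMod p R → (PowerSeries (ZMod p))ˣ
  | [], X => X.P
  | y :: ys, X => LP ys (X.kr y) / LP ys (X.qt y)

end CMod

/-! ## Submodules of a field -/

section field

variable {p : ℕ} {K : Type} [Field K] [Algebra (ZMod p) K]

/-- a `p⁻¹`-linear map as an endomorphism over `ZMod p` -/
def toEnd [Fact p.Prime] {Φ : K → K} (h : IsPinv p Φ) : Module.End (ZMod p) K where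
  toFun := Φ
  map_add' := h.add
  map_smul' c x := by
    have h1 : (algebraMap (ZMod p) K c) ^ p = algebraMap (ZMod p) K c := by
      rw [← map_pow, ZMod.pow_card]
    rw [RingHom.id_apply, Algebra.smul_def, Algebra.smul_def]
    conv_lhs => rw [← h1]
    exact h.pow_mul _ _

/-- `M[1 / y]` -/
def loc {B : Subalgebra (ZMod p) K} (y : B) (M : Submodule B K) : Submodule B K where
  carrier := {x | ∃ a : ℕ, y ^ a • x ∈ M}
  zero_mem' := ⟨0, by rw [smul_zero]; exact M.zero_mem⟩
  add_mem' := by
    rintro x x' ⟨a, ha⟩ ⟨a', ha'⟩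
    refine ⟨a + a', ?_⟩
    rw [smul_add]
    refine M.add_mem ?_ ?_
    · rw [add_comm, pow_add, mul_smul]
      exact M.smul_mem _ ha
    · rw [pow_add, mul_smul]
      exact M.smul_mem _ ha'
  smul_mem' := by
    rintro c x ⟨a, ha⟩
    refine ⟨a, ?_⟩
    rw [smul_comm]
    exact M.smul_mem _ ha

/-- every element of `K` is a quotient of elements of `B` -/
def Frc (B : Subalgebra (ZMod p) K) : Prop := ∀ x : K, ∃ a ∈ B, ∃ b ∈ B, b ≠ 0 ∧ x * b = a

/-- `M` is stable under `Φ` -/
def Stb {B : Subalgebra (ZMod p) K} (Φ : K → K) (M : Submodule B K) : Prop := ∀ x ∈ M, Φ x ∈ M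

/-- `M` is finitely generated and the smallest stable submodule which contains `c` -/
structure IsHull {B : Subalgebra (ZMod p) K} (Φ : K → K) (c : K) (M : Submodule B K) : Prop where
  fg : M.FG
  stb : Stb Φ M
  mem : c ∈ M
  min : ∀ Q : Submodule B K, Stb Φ Q → c ∈ Q → M ≤ Q

/-- a stable submodule of `K` as a Cartier module -/
def toC {B : Subalgebra (ZMod p) K} [Fact p.Prime] {Φ : K → K} (h : IsPinv p Φ)
    (M : Submodule B K) (hM : Stb Φ M) : CMod p B where
  M := M
  C :=
    { toFun := fun x => ⟨Φ x.1, hM x.1 x.2⟩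
      map_add' := fun x y => Subtype.ext (h.add x.1 y.1)
      map_smul' := fun c x => Subtype.ext ((toEnd h).map_smul c x.1) }
  hC b m := Subtype.ext (by
    change Φ (((b ^ p : B) : K) * m.1) = (b : K) * Φ m.1
    rw [SubmonoidClass.coe_pow]
    exact h.pow_mul _ _)

/-- the polynomial of `Φ` on a submodule of `K` -/
noncomputable def PF {B : Subalgebra (ZMod p) K} [Fact p.Prime] {Φ : K → K} (h : IsPinv p Φ)
    (M : Submodule B K) : (PowerSeries (ZMod p))ˣ := PV (toEnd h) (M.restrictScalars (ZMod p))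

/-- the alternating product of the polynomials of `Φ` on the localisations `M[1 / y_S]` -/
noncomputable def KF {B : Subalgebra (ZMod p) K} [Fact p.Prime] {Φ : K → K} (h : IsPinv p Φ) :
    List B → Submodule B K → (PowerSeries (ZMod p))ˣ
  | [], M => PF h M
  | y :: ys, M => KF h ys M / KF h ys (loc y M)

end field

/-! ## Regular rings and closed points -/

/-- all maximal ideals are locally generated by `N` elements -/
def Reg (N : ℕ) (Z : Type) [CommRing Z] : Prop :=
  ∀ m : Ideal Z, m.IsMaximal → ∃ (y : Fin N → Z) (s : Z), (∀ i, y i ∈ m) ∧ s ∉ m ∧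
    ∀ a ∈ m, s * a ∈ Ideal.span (Set.range y)

/-- the closed points of degree `e` -/
def cpt (p : ℕ) (Z : Type) [CommRing Z] (e : ℕ) : Set (Ideal Z) :=
  {m | m.IsMaximal ∧ Nat.card (Z ⧸ m) = p ^ e}

/-- the polynomial `1 - X ^ e` as a unit of the ring of power series (`e ≥ 1`) -/
noncomputable def u1 (R : Type) [CommRing R] (e : ℕ) : (PowerSeries R)ˣ :=
  open Classical in
  if h : IsUnit (1 - PowerSeries.X ^ e : PowerSeries R) then h.unit else 1

/-- the product of the `1 - X ^ (deg m)` over the closed points `m` of degree at most `d` -/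
noncomputable def zu (p : ℕ) (Z : Type) [CommRing Z] (d : ℕ) : (PowerSeries (ZMod p))ˣ :=
  ∏ e ∈ Finset.Icc 1 d, u1 (ZMod p) e ^ Nat.card (cpt p Z e)

/-- the sign `(-1) ^ N` -/
def sgn (N : ℕ) : ℤ := (-1) ^ N

/-- reduction modulo `p` of units of the ring of power series -/
noncomputable def red (p : ℕ) : (PowerSeries ℤ)ˣ →* (PowerSeries (ZMod p))ˣ :=
  Units.map (PowerSeries.map (Int.castRingHom (ZMod p))).toMonoidHom

/-! ## Representations -/

section rep

variable {p : ℕ} {Γ K F : Type} [Group Γ] [Field K] [Field F] [Algebra (ZMod p) K]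
  [Algebra (ZMod p) F] [Algebra K F]

/-- the ring generated by the entries of `ρ` -/
def OO (p : ℕ) {Γ F : Type} [Group Γ] [Field F] [Algebra (ZMod p) F]
    (ρ : Γ →* Matrix.SpecialLinearGroup (Fin 2) F) : Subalgebra (ZMod p) F :=
  Algebra.adjoin (ZMod p) {x | ∃ g i j, x = (ρ g).1 i j}

theorem mem_OO (ρ : Γ →* Matrix.SpecialLinearGroup (Fin 2) F) (g : Γ) (i j : Fin 2) :
    (ρ g).1 i j ∈ OO p ρ := Algebra.subset_adjoin ⟨g, i, j, rfl⟩

/-- the ring generated by the values of `T` -/
def BB (p : ℕ) {Γ K : Type} [Field K] [Algebra (ZMod p) K] (T : Γ → K) :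
    Subalgebra (ZMod p) K := Algebra.adjoin (ZMod p) (Set.range T)

/-- `T g` as an element of `BB p T` -/
def bT (p : ℕ) {Γ K : Type} [Field K] [Algebra (ZMod p) K] (T : Γ → K) (g : Γ) : BB p T :=
  ⟨T g, Algebra.subset_adjoin ⟨g, rfl⟩⟩

/-- `y` is not zero at the trivial pseudo-character (`T g ↦ 0`, characteristic `2`) -/
def AtOne {Γ K : Type} [Field K] [Algebra (ZMod 2) K] (T : Γ → K) (y : BB 2 T) : Prop :=
  ∃ φ : BB 2 T →ₐ[ZMod 2] ZMod 2, (∀ g, φ (bT 2 T g) = 0) ∧ φ y ≠ 0

/-- The class `H(b)`: `Γ` is a finitely generated group, `ρ` a representation over the field `F` with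
trace `T` (values in the subfield `K`), `O = OO p ρ`, `B = BB p T`. -/
structure HB (p b : ℕ) (Γ K F : Type) [Group Γ] [Field K] [Field F] [Algebra (ZMod p) K]
    [Algebra (ZMod p) F] [Algebra K F] (T : Γ → K)
    (ρ : Γ →* Matrix.SpecialLinearGroup (Fin 2) F) : Prop where
  fg : Group.FG Γ
  tr : ∀ g, (ρ g).1.trace = algebraMap K F (T g)
  fracK : Frc (BB p T)
  fracF : Frc (OO p ρ)
  trF : Algebra.trdeg (ZMod p) F = 3 * b
  trK : Algebra.trdeg (ZMod p) K + 3 = 3 * b
  pts : ∀ (κ : Type) [Field κ] [Finite κ] [Algebra (ZMod p) κ]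
    (r : Γ →* Matrix.SpecialLinearGroup (Fin 2) κ),
    ∃ φ : OO p ρ →ₐ[ZMod p] κ, ∀ g i j, φ ⟨(ρ g).1 i j, mem_OO ρ g i j⟩ = (r g).1 i j
  lifts : ∀ (κ : Type) [Field κ] [Finite κ] [Algebra (ZMod p) κ]
    (r : Γ →* Matrix.SpecialLinearGroup (Fin 2) κ),
    Nat.card {s : Γ →* Matrix.SpecialLinearGroup (Fin 2) (DualNumber κ) //
      ∀ g i j, TrivSqZeroExt.fst ((s g).1 i j) = (r g).1 i j} ≤ Nat.card κ ^ (3 * b)
  ab : Nat.card (Γ →* Multiplicative (ZMod p)) = p ^ b

/-- the number of the homomorphisms from `O` to the field with `2 ^ k` elements (representations of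
`Γ`) at which `y` is not zero -/
noncomputable def cnt {Γ K F : Type} [Group Γ] [Field K] [Field F] [Algebra (ZMod 2) K]
    [Algebra (ZMod 2) F] [Algebra K F] (ρ : Γ →* Matrix.SpecialLinearGroup (Fin 2) F) (y : K)
    (k : ℕ) : ℕ :=
  Nat.card {φ : OO 2 ρ →ₐ[ZMod 2] GaloisField 2 k //
    ∃ h : algebraMap K F y ∈ OO 2 ρ, φ ⟨_, h⟩ ≠ 0}

end rep

end Pool.Agent.FrN
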