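import Pool.Agent.Lib.MP_305fdd_al.Fr.N.Defs

/-!
# MP_305fdd_al, F_r project, section N: the interfaces between the sections

Every `def I_xx : Prop` is the final statement of a section (or an intermediate statement used by
another section).  Paper proof: /team-store/MP_305fdd_nilp_h89.md (version 2).
-/

set_option autoImplicit false

namespace Pool.Agent.FrN

open Pool.Agent.F2Ch Pool.Agent.F2RF Pool.Agent.F2TF

/-! ## Section A: Cartier modules -/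

/-- A: existence of nuclei -/
def I_nuc : Prop :=
  ∀ (p : ℕ) [Fact p.Prime] (R : Type) [CommRing R] [Algebra (ZMod p) R]
    [Algebra.FiniteType (ZMod p) R] (X : CMod p R) [Module.Finite R X.M], ∃ W, Nuc X.C ⊤ W

/-- A: an absorbing subspace has the same polynomial -/
def I_abs : Prop :=
  ∀ (k V : Type) [Field k] [AddCommGroup V] [Module k V] (C : Module.End k V)
    (V₀ V₁ : Submodule k V), V₁ ≤ V₀ → (∀ v ∈ V₁, C v ∈ V₁) → (∀ v ∈ V₀, C v ∈ V₀) →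
    (∀ v ∈ V₀, ∃ e : ℕ, (C ^ e) v ∈ V₁) →
    PV C V₀ = PV C V₁ ∧ ((∃ W, Nuc C V₀ W) ↔ ∃ W, Nuc C V₁ W)

/-- A: exact sequences -/
def I_ex : Prop :=
  ∀ (k V' V V'' : Type) [Field k] [AddCommGroup V'] [Module k V'] [AddCommGroup V] [Module k V]
    [AddCommGroup V''] [Module k V''] (C' : Module.End k V') (C : Module.End k V)
    (C'' : Module.End k V'') (i : V' →ₗ[k] V) (q : V →ₗ[k] V''), Function.Injective i →
    Function.Surjective q → LinearMap.range i = LinearMap.ker q → (∀ v, i (C' v) = C (i v)) →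
    (∀ v, q (C v) = C'' (q v)) → (∃ W, Nuc C ⊤ W) →
    (∃ W, Nuc C' ⊤ W) ∧ (∃ W, Nuc C'' ⊤ W) ∧ PV C ⊤ = PV C' ⊤ * PV C'' ⊤

/-- A: nilpotence -/
def I_nil : Prop :=
  ∀ (k V : Type) [Field k] [AddCommGroup V] [Module k V] (C : Module.End k V)
    (V₀ : Submodule k V), (∃ W, Nuc C V₀ W) →
    ((∀ v ∈ V₀, ∃ e : ℕ, (C ^ e) v = 0) ↔ PV C V₀ = 1)

/-- A: the Koszul identity -/
def I_kos : Prop :=
  ∀ (p : ℕ) [Fact p.Prime] (R : Type) [CommRing R] [Algebra (ZMod p) R]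
    [Algebra.FiniteType (ZMod p) R] (X : CMod p R) [Module.Finite R X.M] (ys : List R),
    CMod.KP ys X = CMod.LP ys X

/-- A: the Koszul identity for submodules of a field -/
def I_kf : Prop :=
  ∀ (p : ℕ) [Fact p.Prime] (K : Type) [Field K] [Algebra (ZMod p) K] (B : Subalgebra (ZMod p) K),
    B.FG → ∀ (Φ : K → K) (h : IsPinv p Φ) (M : Submodule B K) (hM : Stb Φ M), M.FG →
    ∀ ys : List B, (∀ y ∈ ys, y ≠ 0) → KF h ys M = CMod.LP ys (toC h M hM)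

/-- A: the stable hull of an element of the field of fractions -/
def I_hull : Prop :=
  ∀ (p : ℕ) [Fact p.Prime] (K : Type) [Field K] [Algebra (ZMod p) K] (B : Subalgebra (ZMod p) K),
    B.FG → Frc B → ∀ (Φ : K → K), IsPinv p Φ → ∀ c : K, ∃ M : Submodule B K, IsHull Φ c M

/-- A: elements without common zero -/
def I_one : Prop :=
  ∀ (p : ℕ) [Fact p.Prime] (K : Type) [Field K] [Algebra (ZMod p) K] (B : Subalgebra (ZMod p) K),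
    B.FG → ∀ (Φ : K → K) (h : IsPinv p Φ) (M : Submodule B K), Stb Φ M → M.FG →
    ∀ ys : List B, (∀ y ∈ ys, y ≠ 0) → Ideal.span {y | y ∈ ys} = ⊤ → KF h ys M = 1

/-- A: localisation at an element of the ideal -/
def I_zero : Prop :=
  ∀ (p : ℕ) [Fact p.Prime] (K : Type) [Field K] [Algebra (ZMod p) K] (B : Subalgebra (ZMod p) K),
    B.FG → ∀ (Φ : K → K) (h : IsPinv p Φ) (M : Submodule B K), Stb Φ M → M.FG →
    ∀ (ys : List B) (y : B), (∀ y ∈ ys, y ≠ 0) → y ≠ 0 → y ∈ Ideal.span {y | y ∈ ys} →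
    KF h ys (loc y M) = 1

/-- A: the localisation has a nucleus -/
def I_nucf : Prop :=
  ∀ (p : ℕ) [Fact p.Prime] (K : Type) [Field K] [Algebra (ZMod p) K] (B : Subalgebra (ZMod p) K),
    B.FG → ∀ (Φ : K → K) (h : IsPinv p Φ) (M : Submodule B K), Stb Φ M → M.FG →
    ∀ y : B, y ≠ 0 → ∃ W, Nuc (toEnd h) ((loc y M).restrictScalars (ZMod p)) W

/-- A: vanishing (A5) -/
def I_van : Prop :=
  ∀ (p : ℕ) [Fact p.Prime] (R : Type) [CommRing R] [Algebra (ZMod p) R]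
    [Algebra.FiniteType (ZMod p) R] (X : CMod p R) [Module.Finite R X.M] (d : ℕ),
    (∀ k, 1 ≤ k → k ≤ d → Ideal.span (Set.range fun b : R => b ^ p ^ k - b) = ⊤) →
    Cg d (X.P : PowerSeries (ZMod p)) 1

/-- A: the leaf formula modulo `X ^ (d + 1)` -/
def I_A6 : Prop :=
  ∀ (p : ℕ) [Fact p.Prime] (R : Type) [CommRing R] [Algebra (ZMod p) R]
    [Algebra.FiniteType (ZMod p) R] (X : CMod p R) [Module.Finite R X.M] (d : ℕ) (ys : List R),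
    (∀ y ∈ ys, ∀ k, 1 ≤ k → k ≤ d → y ∈ Ideal.span (Set.range fun b : R => b ^ p ^ k - b)) →
    Cg d (X.P : PowerSeries (ZMod p)) (CMod.LP ys X : PowerSeries (ZMod p))

/-- A: vanishing on an open set without points of degree at most `d`, for submodules of a field -/
def I_vanf : Prop :=
  ∀ (p : ℕ) [Fact p.Prime] (K : Type) [Field K] [Algebra (ZMod p) K] (B : Subalgebra (ZMod p) K),
    B.FG → ∀ (Φ : K → K) (h : IsPinv p Φ) (M : Submodule B K), Stb Φ M → M.FG →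
    ∀ (d : ℕ) (y : B), y ≠ 0 →
    (∀ k, 1 ≤ k → k ≤ d → y ∈ Ideal.span (Set.range fun b : B => b ^ p ^ k - b)) →
    Cg d (PF h (loc y M) : PowerSeries (ZMod p)) 1

/-! ## Section B: regular rings -/

/-- B: `Om` is the smallest nonzero stable submodule -/
structure IsOm {p : ℕ} {L : Type} [Field L] [Algebra (ZMod p) L] (Z : Subalgebra (ZMod p) L)
    (Φ : L → L) (Om : Submodule Z L) : Prop where
  ne : Om ≠ ⊥
  stb : Stb Φ Om
  min : ∀ Q : Submodule Z L, Q ≠ ⊥ → Stb Φ Q → Om ≤ Q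

/-- B: the final statement for regular rings -/
def I_B : Prop :=
  ∀ (p : ℕ) [Fact p.Prime] (L : Type) [Field L] [CharP L p] [Algebra (ZMod p) L]
    (Z : Subalgebra (ZMod p) L), Z.FG → Frc Z → ∀ N : ℕ, Reg N Z →
    ∀ (t : Fin N → L) (π : (Fin N → Fin p) → L → L), MB p t π → ∀ Φ : L → L, LogTy p Φ →
    ∃ (h : IsPinv p Φ) (Om : Submodule Z L), IsOm Z Φ Om ∧ Om.FG ∧
      ∀ d : ℕ, Cg d (PF h Om : PowerSeries (ZMod p))
        ((zu p Z d ^ sgn N : (PowerSeries (ZMod p))ˣ) : PowerSeries (ZMod p))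

/-! ## Sections C and D: the complement of `T(g) = 0` -/

/-- CD: the final statement for the sets `y ≠ 0`, `y` divisible by `T g` (`p = 2`) -/
def I_CD : Prop :=
  ∀ (b : ℕ) (Γ K F : Type) [Group Γ] [Field K] [Field F] [Algebra (ZMod 2) K]
    [Algebra (ZMod 2) F] [Algebra K F] (T : Γ → K)
    (ρ : Γ →* Matrix.SpecialLinearGroup (Fin 2) F), 2 ≤ b → HB 2 b Γ K F T ρ →
    ∀ (Φ : K → K), LogTy 2 Φ → ∀ h : IsPinv 2 Φ, ∀ g : Γ, T g ≠ 0 →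
    ∃ Ng S : Submodule (BB 2 T) K, Ng ≠ ⊥ ∧ Stb Φ Ng ∧ S.FG ∧
      Ng = loc (bT 2 T g) S ∧
      (∀ Q : Submodule (BB 2 T) K, Q ≠ ⊥ → Stb Φ Q → (∀ x, T g * x ∈ Q → x ∈ Q) → Ng ≤ Q) ∧
      ∀ y : BB 2 T, y ≠ 0 → (∃ z : BB 2 T, (y : K) = T g * z) →
        (∃ W, Nuc (toEnd h) ((loc y Ng).restrictScalars (ZMod 2)) W) ∧
        ∃ (f : (PowerSeries ℤ)ˣ) (s : ℕ → ℤ), LD (f : PowerSeries ℤ) s ∧
          PF h (loc y Ng) = red 2 f ∧
          ∀ k, 1 ≤ k → ∃ a : ℤ, (cnt (K := K) ρ y k : ℤ) = 2 ^ k * (2 ^ k * a + sgn b * s k)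

/-! ## Section E: the trivial point -/

/-- E: comparison with the free group -/
def I_E : Prop :=
  ∀ (b : ℕ) (Γ K F : Type) [Group Γ] [Field K] [Field F] [Algebra (ZMod 2) K]
    [Algebra (ZMod 2) F] [Algebra K F] (T : Γ → K)
    (ρ : Γ →* Matrix.SpecialLinearGroup (Fin 2) F), 2 ≤ b → HB 2 b Γ K F T ρ →
    ∃ (KA FA : Type) (_ : Field KA) (_ : Field FA) (_ : Algebra (ZMod 2) KA)
      (_ : Algebra (ZMod 2) FA) (_ : Algebra KA FA) (TA : FreeGroup (Fin b) → KA)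
      (ρA : FreeGroup (Fin b) →* Matrix.SpecialLinearGroup (Fin 2) FA)
      (f : FreeGroup (Fin b) →* Γ) (j : KA →+* K) (ΦA : KA → KA) (Φ : K → K)
      (hA : IsPinv 2 ΦA) (h : IsPinv 2 Φ),
      HB 2 b (FreeGroup (Fin b)) KA FA TA ρA ∧ (∀ w, j (TA w) = T (f w)) ∧ LogTy 2 ΦA ∧
      LogTy 2 Φ ∧ (∀ x, Φ (j x) = j (ΦA x)) ∧
      ∀ c : KA, c ≠ 0 → ∀ (MA : Submodule (BB 2 TA) KA) (M : Submodule (BB 2 T) K),
        IsHull ΦA c MA → IsHull Φ (j c) M →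
        ∀ (ws : List (FreeGroup (Fin b))) (gs : List Γ), (∀ w ∈ ws, TA w ≠ 0) →
        (∀ g ∈ gs, T g ≠ 0) →
        Ideal.span {y | y ∈ ws.map (bT 2 TA)} = Ideal.span (Set.range (bT 2 TA)) →
        Ideal.span {y | y ∈ (ws.map f ++ gs).map (bT 2 T)} = Ideal.span (Set.range (bT 2 T)) →
        KF h ((ws.map f ++ gs).map (bT 2 T)) M = KF hA (ws.map (bT 2 TA)) MA

/-! ## Section F: the free group -/

/-- F: nilpotence for the free group -/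
def I_F : Prop :=
  ∀ (b : ℕ) (K F : Type) [Field K] [Field F] [Algebra (ZMod 2) K]
    [Algebra (ZMod 2) F] [Algebra K F] (T : FreeGroup (Fin b) → K)
    (ρ : FreeGroup (Fin b) →* Matrix.SpecialLinearGroup (Fin 2) F), 2 ≤ b →
    HB 2 b (FreeGroup (Fin b)) K F T ρ → ∀ (Φ : K → K), LogTy 2 Φ →
    ∃ c ∈ BB 2 T, c ≠ 0 ∧ ∀ β ∈ BB 2 T, ∃ e : ℕ, Φ^[e] (c * β) = 0

/-! ## Section G: the numerical end -/

/-- G: comparison of the sequences of two power series which are congruent modulo `p` -/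
def I_ldmod : Prop :=
  ∀ (p : ℕ) [Fact p.Prime] (f g : (PowerSeries ℤ)ˣ) (s t : ℕ → ℤ), LD (f : PowerSeries ℤ) s →
    LD (g : PowerSeries ℤ) t → red p f = red p g →
    ∀ k i, 1 ≤ k → p ^ i ∣ k → (p : ℤ) ^ (i + 1) ∣ s k - t k

/-- G: the final statement -/
def I_G : Prop :=
  ∀ (p : ℕ) [Fact p.Prime] (V : Type) [AddCommGroup V] [Module (ZMod p) V]
    (C : Module.End (ZMod p) V) (V₀ : Submodule (ZMod p) V), (∃ W, Nuc C V₀ W) →
    ∀ (f : (PowerSeries ℤ)ˣ) (s : ℕ → ℤ), LD (f : PowerSeries ℤ) s → PV C V₀ = red p f →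
    (∀ v ∈ V₀, ∃ e : ℕ, (C ^ e) v = 0) ∨
    ∃ d k₀ : ℕ, 1 ≤ d ∧ 1 ≤ k₀ ∧ ∀ i k : ℕ, 1 ≤ k → k₀ * p ^ i ∣ k →
      (p : ℤ) ^ (i + 1) ∣ s k - d

/-! ## The two theorems -/

/-- THEOREM N' (open subsets) -/
def I_Np : Prop :=
  ∀ (b : ℕ) (Γ K F : Type) [Group Γ] [Field K] [Field F] [Algebra (ZMod 2) K]
    [Algebra (ZMod 2) F] [Algebra K F] (T : Γ → K)
    (ρ : Γ →* Matrix.SpecialLinearGroup (Fin 2) F), 2 ≤ b → HB 2 b Γ K F T ρ →
    ∀ (Φ : K → K), LogTy 2 Φ → ∀ (g : Γ) (y z : K), y ∈ BB 2 T → z ∈ BB 2 T → y ≠ 0 →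
    y = T g * z →
    (∃ c ∈ BB 2 T, c ≠ 0 ∧ ∀ β ∈ BB 2 T, ∀ a : ℕ, ∃ e : ℕ, Φ^[e] (c * (β / y ^ a)) = 0) ∨
    ∃ d k₀ : ℕ, 1 ≤ d ∧ 1 ≤ k₀ ∧ ∀ i k : ℕ, 1 ≤ k → k₀ * 2 ^ i ∣ k →
      ∃ a : ℤ, (cnt (K := K) ρ y k : ℤ) = 2 ^ k * (2 ^ (i + 1) * a + sgn b * d)

/-- THEOREM N: `y = 1`, or any `y ≠ 0` (`e = 1` if `y` does not vanish at the trivial point,
`e = 0` otherwise) -/
def I_N : Prop :=
  ∀ (b : ℕ) (Γ K F : Type) [Group Γ] [Field K] [Field F] [Algebra (ZMod 2) K]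
    [Algebra (ZMod 2) F] [Algebra K F] (T : Γ → K)
    (ρ : Γ →* Matrix.SpecialLinearGroup (Fin 2) F), 2 ≤ b → HB 2 b Γ K F T ρ →
    ∀ (Φ : K → K), LogTy 2 Φ → ∀ (y : BB 2 T) (e : ℤ), y ≠ 0 →
    ((AtOne T y ∧ e = 1) ∨ (¬ AtOne T y ∧ e = 0)) →
    (∃ c ∈ BB 2 T, c ≠ 0 ∧ ∀ β ∈ BB 2 T, ∀ a : ℕ, ∃ e : ℕ, Φ^[e] (c * (β / (y : K) ^ a)) = 0) ∨
    ∃ d k₀ : ℕ, 1 ≤ d ∧ 1 ≤ k₀ ∧ ∀ i k : ℕ, 1 ≤ k → k₀ * 2 ^ i ∣ k →
      ∃ a : ℤ, (cnt (K := K) ρ y k : ℤ) - e * ((2 ^ k) ^ 3 - 2 ^ k) ^ b =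
        2 ^ k * (2 ^ (i + 1) * a + sgn b * d)

end Pool.Agent.FrN
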