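import Pool.Agent.Lib.MP_305fdd_al.Fr.N.Main2

/-!
# MP_305fdd_al, F_r project, section N: assembly of Theorem N, part 3
-/

set_option autoImplicit false

namespace Pool.Agent.FrN

open Pool.Agent.F2Ch Pool.Agent.F2RF Pool.Agent.F2TF Pool.Agent.FrNE

/-! ## Counting -/

theorem finite_hom (Γ G : Type) [Group Γ] [Group.FG Γ] [Group G] [Finite G] :
    Finite (Γ →* G) := by
  obtain ⟨S, hS, hfin⟩ := Group.fg_iff.mp (inferInstance : Group.FG Γ)
  have : Finite S := hfin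
  refine Finite.of_injective (fun (f : Γ →* G) (s : S) => f s) ?_
  intro f g hfg
  have h1 : (⊤ : Subgroup Γ) ≤ f.eqLocus g := by
    rw [← hS, Subgroup.closure_le]
    intro z hz
    exact congrFun hfg ⟨z, hz⟩
  ext z
  exact h1 (Subgroup.mem_top z)

section count

variable {b : ℕ} {Γ K F : Type} [Group Γ] [Field K] [Field F] [Algebra (ZMod 2) K]
  [Algebra (ZMod 2) F] [Algebra K F] {T : Γ → K} {ρ : Γ →* Matrix.SpecialLinearGroup (Fin 2) F}

theorem finite_pts (hbij : S_bij) (H : HB 2 b Γ K F T ρ) (k : ℕ) :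
    Finite (OO 2 ρ →ₐ[ZMod 2] GaloisField 2 k) := by
  obtain ⟨e, -⟩ := hbij 2 b Γ K F T ρ H (GaloisField 2 k)
  have := H.fg
  have : Finite (Matrix (Fin 2) (Fin 2) (GaloisField 2 k)) := inferInstance
  have : Finite (Matrix.SpecialLinearGroup (Fin 2) (GaloisField 2 k)) :=
    Finite.of_injective _ Subtype.val_injective
  have := finite_hom Γ (Matrix.SpecialLinearGroup (Fin 2) (GaloisField 2 k))
  exact Finite.of_equiv _ e.symm

/-- the points where all traces vanish -/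
def UU (H : HB 2 b Γ K F T ρ) (k : ℕ) : Set (OO 2 ρ →ₐ[ZMod 2] GaloisField 2 k) :=
  {φ | ∀ g, φ (resB H (bT 2 T g)) = 0}

theorem resB_bT (H : HB 2 b Γ K F T ρ) (g : Γ) :
    resB H (bT 2 T g) = ⟨(ρ g).1 0 0, mem_OO ρ g 0 0⟩ + ⟨(ρ g).1 1 1, mem_OO ρ g 1 1⟩ := by
  apply Subtype.ext
  change algebraMap K F (T g) = (ρ g).1 0 0 + (ρ g).1 1 1
  rw [← H.tr, Matrix.trace_fin_two]

theorem ncard_UU (hbij : S_bij) (huni : S_uni) (H : HB 2 b Γ K F T ρ) (k : ℕ) (hk : 1 ≤ k) :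
    (UU H k).ncard = 1 + (2 ^ k + 1) * ((2 ^ k) ^ b - 1) := by
  obtain ⟨e, he⟩ := hbij 2 b Γ K F T ρ H (GaloisField 2 k)
  have := H.fg
  have h1 := huni Γ b k (GaloisField 2 k) H.ab hk (GaloisField.card 2 k (by omega))
  rw [← h1]
  refine Nat.card_congr (e.subtypeEquiv ?_)
  intro φ
  change (∀ g, φ (resB H (bT 2 T g)) = 0) ↔ _
  refine forall_congr' fun g => ?_
  rw [Matrix.trace_fin_two, he, he, resB_bT, map_add]

theorem not_mem_WW (H : HB 2 b Γ K F T ρ) (k : ℕ) (gs : List Γ)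
    (hgs : Ideal.span {y | y ∈ gs.map (bT 2 T)} = mI T)
    (φ : OO 2 ρ →ₐ[ZMod 2] GaloisField 2 k) :
    φ ∉ WW ρ (GaloisField 2 k) (gs.map (bT 2 T)) ↔ φ ∈ UU H k := by
  have h1 : φ ∉ WW ρ (GaloisField 2 k) (gs.map (bT 2 T)) ↔
      ∀ y ∈ gs.map (bT 2 T), φ (resB H y) = 0 := by
    simp only [WW, Set.mem_ofPred_eq, not_exists, not_and]
    refine forall₂_congr fun y _ => ?_
    rw [mem_VV' H, not_not]
  rw [h1]
  constructor
  · intro h g
    have h2 : mI T ≤ RingHom.ker (φ.toRingHom.comp (resB H).toRingHom) := by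
      rw [← hgs, Ideal.span_le]
      intro y hy
      exact h y hy
    exact h2 (Ideal.subset_span ⟨g, rfl⟩)
  · intro h y hy
    obtain ⟨g, -, rfl⟩ := List.mem_map.mp hy
    exact h g

/-- the value of `y` at the points where all traces vanish -/
theorem val_UU (H : HB 2 b Γ K F T ρ) (k : ℕ) {ψ : BB 2 T →ₐ[ZMod 2] ZMod 2}
    (hψ : ∀ g, ψ (bT 2 T g) = 0) {φ : OO 2 ρ →ₐ[ZMod 2] GaloisField 2 k} (hφ : φ ∈ UU H k)
    (y : BB 2 T) : φ (resB H y) = algebraMap (ZMod 2) _ (ψ y) := by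
  have h1 := aug_mem ψ hψ y
  have h2 : mI T ≤ RingHom.ker (φ.toRingHom.comp (resB H).toRingHom) := by
    rw [Ideal.span_le]
    rintro _ ⟨g, rfl⟩
    exact hφ g
  have h3 : φ (resB H (y - algebraMap (ZMod 2) (BB 2 T) (ψ y))) = 0 := h2 h1
  rw [map_sub, map_sub, AlgHom.commutes, AlgHom.commutes, sub_eq_zero] at h3
  exact h3

end count

/-! ## The data of section CD -/

section cd

variable {b : ℕ} {Γ K F : Type} [Group Γ] [Field K] [Field F] [Algebra (ZMod 2) K]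
  [Algebra (ZMod 2) F] [Algebra K F] {T : Γ → K} {ρ : Γ →* Matrix.SpecialLinearGroup (Fin 2) F}

theorem cd_data (hCD : I_CD) (hb : 2 ≤ b) (H : HB 2 b Γ K F T ρ) {Φ : K → K} (hΦ : LogTy 2 Φ)
    (h : IsPinv 2 Φ) (g : Γ) (hg : T g ≠ 0) : ∃ Ng : Submodule (BB 2 T) K, Ng ≠ ⊥ ∧
      ∀ c ∈ Ng, c ≠ 0 → ∀ M : Submodule (BB 2 T) K, IsHull Φ c M →
      ∀ y : BB 2 T, y ≠ 0 → (∃ z, y = bT 2 T g * z) →
      ∃ (f : (PowerSeries ℤ)ˣ) (s : ℕ → ℤ), LD (f : PowerSeries ℤ) s ∧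
        PF h (loc y M) = red 2 f ∧ ∀ k, 1 ≤ k → ∃ a : ℤ,
          ((VV ρ (GaloisField 2 k) (y : K)).ncard : ℤ) = 2 ^ k * (2 ^ k * a + sgn b * s k) := by
  obtain ⟨Ng, S, h1, h2, -, h3, h4, h5⟩ := hCD b Γ K F T ρ hb H Φ hΦ h g hg
  refine ⟨Ng, h1, fun c hc hc0 M hM y hy hyz => ?_⟩
  have hle : M ≤ Ng := hM.min Ng h2 hc
  have h6 : loc (bT 2 T g) M = Ng := by
    apply le_antisymm
    · have h7 : loc (bT 2 T g) Ng = Ng := by rw [h3, loc_idem]
      rw [← h7]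
      exact loc_mono _ hle
    · apply h4
      · intro h8
        have h9 : c ∈ loc (bT 2 T g) M := le_loc _ _ hM.mem
        rw [h8, Submodule.mem_bot] at h9
        exact hc0 h9
      · exact hM.stb.loc h _
      · intro x hx
        exact loc_div (bT 2 T g) M hx
  have h7 : loc y M = loc y Ng := by
    obtain ⟨z, rfl⟩ := hyz
    rw [mul_comm, ← loc_loc, h6, ← loc_loc]
    congr 1
    rw [← h6, loc_idem]
  obtain ⟨-, f, s, h8, h9, h10⟩ := h5 y hy (by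
    obtain ⟨z, rfl⟩ := hyz
    exact ⟨z, rfl⟩)
  exact ⟨f, s, h8, by rw [h7]; exact h9, h10⟩

end cd

end Pool.Agent.FrN
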