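import Pool.Agent.Lib.MP_305fdd_al.Fr.N.StmI

set_option autoImplicit false

namespace Pool.Agent.FrN

open Pool.Agent.F2Ch Pool.Agent.F2RF Pool.Agent.F2TF

section bij

variable {p : ℕ} {Γ F : Type} [Group Γ] [Field F] [Algebra (ZMod p) F]
  (ρ : Γ →* Matrix.SpecialLinearGroup (Fin 2) F)

/-- the matrix of `g` with entries in `OO` -/
private def mt (g : Γ) : Matrix (Fin 2) (Fin 2) (OO p ρ) :=
  fun i j => ⟨(ρ g).1 i j, mem_OO ρ g i j⟩

private theorem mt_val (g : Γ) (i j : Fin 2) : ((mt (p := p) ρ g i j : OO p ρ) : F) = (ρ g).1 i j := rfl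

private theorem mt_det (g : Γ) : (mt (p := p) ρ g).det = 1 := by
  apply Subtype.ext
  have h := (ρ g).2
  rw [Matrix.det_fin_two] at h
  rw [Matrix.det_fin_two]
  simpa [mt_val] using h

private theorem mt_one : mt (p := p) ρ 1 = 1 := by
  ext i j
  rw [mt_val, map_one]
  by_cases h : i = j
  · subst h; simp
  · simp [Matrix.one_apply_ne h]

private theorem mt_mul (g h : Γ) : mt (p := p) ρ (g * h) = mt ρ g * mt ρ h := by
  ext i j
  rw [mt_val, map_mul]
  simp only [Matrix.SpecialLinearGroup.coe_mul, Matrix.mul_apply, Fin.sum_univ_two]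
  simp [mt_val]

/-- the representation over `OO` -/
private def rr : Γ →* Matrix.SpecialLinearGroup (Fin 2) (OO p ρ) where
  toFun g := ⟨mt ρ g, mt_det ρ g⟩
  map_one' := Subtype.ext (mt_one ρ)
  map_mul' g h := Subtype.ext (mt_mul ρ g h)

end bij

theorem p_bij : S_bij := by
  intro p _ b Γ K F _ _ _ _ _ _ T ρ hHB κ _ _ _
  have hfun : ∀ (φ : OO p ρ →ₐ[ZMod p] κ) (g : Γ) (i j : Fin 2),
      (((Matrix.SpecialLinearGroup.map (φ : OO p ρ →+* κ)).comp (rr (p := p) ρ)) g).1 i j =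
        φ ⟨(ρ g).1 i j, mem_OO ρ g i j⟩ := by
    intro φ g i j
    rfl
  let e0 : (OO p ρ →ₐ[ZMod p] κ) → (Γ →* Matrix.SpecialLinearGroup (Fin 2) κ) :=
    fun φ => (Matrix.SpecialLinearGroup.map (φ : OO p ρ →+* κ)).comp (rr (p := p) ρ)
  have hinj : Function.Injective e0 := by
    intro φ ψ hφψ
    have h1 : ∀ g i j, φ ⟨(ρ g).1 i j, mem_OO ρ g i j⟩ = ψ ⟨(ρ g).1 i j, mem_OO ρ g i j⟩ := by
      intro g i j
      rw [← hfun φ g i j, ← hfun ψ g i j]
      have := congrArg (fun r : Γ →* Matrix.SpecialLinearGroup (Fin 2) κ => (r g).1 i j) hφψ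
      exact this
    refine AlgHom.adjoin_ext (s := {x | ∃ g i j, x = (ρ g).1 i j}) (φ₁ := φ) (φ₂ := ψ) ?_
    rintro x ⟨g, i, j, rfl⟩
    exact h1 g i j
  have hsurj : Function.Surjective e0 := by
    intro r
    obtain ⟨φ, hφ⟩ := hHB.pts κ r
    refine ⟨φ, ?_⟩
    ext g i j
    rw [← hφ g i j]
    exact hfun φ g i j
  exact ⟨Equiv.ofBijective e0 ⟨hinj, hsurj⟩, fun φ g i j => hfun φ g i j⟩

end Pool.Agent.FrN
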