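import Pool.Agent.Lib.MP_305fdd_al.Fr.N.StmJ
import Pool.Agent.Lib.MP_305fdd_al.F2.ChMain
import Pool.Agent.Lib.MP_305fdd_al.F2.RF.Main

/-!
# MP_305fdd_al, F_r project, section N, part J: the piece pbex (monomial `p`-bases exist)
-/

set_option autoImplicit false

namespace Pool.Agent.FrN

open Pool.Agent.F2Ch Pool.Agent.F2RF Pool.Agent.F2TF

/-- clear the denominators of the members of a monomial `p`-basis, one after the other -/
theorem pbex_clear (p : ℕ) [Fact p.Prime] (K : Type) [Field K] [Algebra (ZMod p) K]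
    (B : Subalgebra (ZMod p) K) (hB : Frc B) (n : ℕ) (s : Finset (Fin n)) :
    ∀ (t : Fin n → K) (π : (Fin n → Fin p) → K → K), MB p t π →
    ∃ (t' : Fin n → K) (π' : (Fin n → Fin p) → K → K), (∀ i ∈ s, t' i ∈ B) ∧ MB p t' π' := by
  classical
  induction s using Finset.induction_on with
  | empty => intro t π h; exact ⟨t, π, by simp, h⟩
  | insert i s his ih =>
    intro t π h
    obtain ⟨t', π', hs, h'⟩ := ih t π h
    obtain ⟨a, ha, b, hb, hb0, hab⟩ := hB (t' i)
    refine ⟨Function.update t' i (t' i * b ^ p), _, ?_, w9 p K n t' π' h' i b hb0⟩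
    intro j hj
    by_cases hji : j = i
    · subst hji
      rw [Function.update_self]
      have h1 : t' j * b ^ p = a * b ^ (p - 1) := by
        obtain ⟨q, hq⟩ : ∃ q, p = q + 1 :=
          ⟨p - 1, (Nat.succ_pred_eq_of_pos (Fact.out : p.Prime).pos).symm⟩
        rw [← hab, hq, Nat.add_sub_cancel, pow_succ]
        ring
      rw [h1]
      exact B.mul_mem ha (B.pow_mem hb _)
    · rw [Function.update_of_ne hji]
      exact hs j ((Finset.mem_insert.1 hj).resolve_left hji)

/-- the fraction field of a finitely generated algebra is generated by finitely many elements -/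
theorem pbex_frac (p : ℕ) [Fact p.Prime] (K : Type) [Field K] [Algebra (ZMod p) K]
    (B : Subalgebra (ZMod p) K) (hfg : B.FG) (hB : Frc B) :
    ∃ (m : ℕ) (g : Fin m → K), FracGen (ZMod p) g := by
  obtain ⟨S, hS⟩ := hfg
  refine ⟨S.card, fun i => (S.equivFin.symm i : K), ?_⟩
  have hr : Set.range (fun i => (S.equivFin.symm i : K)) = (S : Set K) := by
    ext x
    constructor
    · rintro ⟨i, rfl⟩
      exact (S.equivFin.symm i).2
    · intro hx
      exact ⟨S.equivFin ⟨x, hx⟩, by simp⟩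
  intro x
  obtain ⟨a, ha, b, hb, hb0, hab⟩ := hB x
  rw [← hS, ← hr, Algebra.adjoin_range_eq_range_aeval] at ha hb
  obtain ⟨P, rfl⟩ := ha
  obtain ⟨Q, rfl⟩ := hb
  exact ⟨P, Q, hb0, hab⟩

theorem p_pbex : S_pbex := by
  intro p _ K _ _ _ B hfg hB n hn
  obtain ⟨m, g, hg⟩ := pbex_frac p K B hfg hB
  obtain ⟨d, b, ρ, hd, hb⟩ := t_B4 p (ZMod p) K m g hg
  have hdn : d = n := by
    have h1 : (d : Cardinal) = n := hd.symm.trans hn
    exact_mod_cast h1
  subst hdn
  obtain ⟨y, ρ', hy, hy'⟩ := t_C5 p K d b ρ hb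
  obtain ⟨t, π, ht, hM⟩ := pbex_clear p K B hB d Finset.univ y ρ' ⟨hy, hy'⟩
  exact ⟨t, π, fun i => ht i (Finset.mem_univ i), hM⟩

end Pool.Agent.FrN
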