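import Pool.Agent.Lib.MP_305fdd_al.Fr.N.Fin0
import Pool.Agent.Lib.MP_305fdd_al.Fr.N.C.Main
import Pool.Agent.Lib.MP_305fdd_al.Fr.N.E.Main

/-!
# MP_305fdd_al, F_r project, section N: the theorems N and N', without hypotheses
-/

set_option autoImplicit false

namespace Pool.Agent.FrN

open Pool.Agent.FrNE

/-- section E -/
theorem t_E : I_E := fin_E t_nn t_cot t_par

/-- THEOREM N' -/
theorem t_Np : I_Np := fin_Np FrNC.t_CD

/-- THEOREM N -/
theorem t_N : I_N := fin_N FrNC.t_CD t_nn t_cot t_par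

end Pool.Agent.FrN
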