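import Pool.Agent.Lib.MP_305fdd_al.Fr.N.StmI

set_option autoImplicit false

namespace Pool.Agent.FrN

open Matrix in
private theorem card_SL_mul {F : Type} [Field F] [Finite F] (n : ℕ) (hn : n ≠ 0) :
    Nat.card (Matrix.SpecialLinearGroup (Fin n) F) * (Nat.card F - 1) =
      ∏ i ∈ Finset.range n, (Nat.card F ^ n - Nat.card F ^ i) := by
  have := Fintype.ofFinite F
  have : Nonempty (Fin n) := ⟨⟨0, Nat.pos_of_ne_zero hn⟩⟩
  have h1 := Matrix.card_GL_field (𝔽 := F) n
  rw [Fin.prod_univ_eq_prod_range (fun i => Fintype.card F ^ n - Fintype.card F ^ i) n] at h1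
  rw [Nat.card_eq_fintype_card (α := F), ← h1]
  let D : GL (Fin n) F →* Fˣ := Matrix.GeneralLinearGroup.det
  have hD : Function.Surjective D := Matrix.GeneralLinearGroup.det_surjective
  have h2 := Subgroup.card_mul_index D.ker
  rw [Subgroup.index_ker, MonoidHom.range_eq_top.2 hD, Subgroup.card_top, Nat.card_units,
    Nat.card_eq_fintype_card (α := F)] at h2
  rw [← h2]
  congr 1
  refine Nat.card_congr (Equiv.ofBijective
    (fun g => (⟨Matrix.SpecialLinearGroup.toGL g, ?_⟩ : D.ker)) ⟨?_, ?_⟩)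
  · rw [MonoidHom.mem_ker]
    ext
    change Matrix.det (g : Matrix (Fin n) (Fin n) F) = 1
    exact g.2
  · intro g h hgh
    have h3 : Matrix.SpecialLinearGroup.toGL g = Matrix.SpecialLinearGroup.toGL h :=
      congrArg Subtype.val hgh
    exact Matrix.SpecialLinearGroup.toGL_injective h3
  · rintro ⟨g, hg⟩
    rw [MonoidHom.mem_ker] at hg
    have h3 : Matrix.det (g : Matrix (Fin n) (Fin n) F) = 1 := by
      have := congrArg Units.val hg
      exact this
    refine ⟨⟨g, h3⟩, ?_⟩
    apply Subtype.ext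
    apply Units.ext
    rfl

/-- the order of `SL_2` of a finite field -/
theorem card_SL2 {F : Type} [Field F] [Finite F] :
    Nat.card (Matrix.SpecialLinearGroup (Fin 2) F) = Nat.card F ^ 3 - Nat.card F := by
  have h := card_SL_mul (F := F) 2 (by norm_num)
  have hq : 1 < Nat.card F := Finite.one_lt_card
  generalize Nat.card F = q at h hq
  generalize Nat.card (Matrix.SpecialLinearGroup (Fin 2) F) = N at h
  rw [Finset.prod_range_succ, Finset.prod_range_one, pow_zero, pow_one] at h
  have h1 : q ≤ q ^ 3 := Nat.le_self_pow (by norm_num) q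
  have h2 : q ≤ q ^ 2 := Nat.le_self_pow (by norm_num) q
  have h3 : 1 ≤ q ^ 2 := by omega
  have h4 : 1 ≤ q := by omega
  have h5 : (N : ℤ) * (q - 1) = (q ^ 2 - 1) * (q ^ 2 - q) := by
    have := congrArg (Nat.cast : ℕ → ℤ) h
    rw [Nat.cast_mul, Nat.cast_mul, Nat.cast_sub h4, Nat.cast_sub h3, Nat.cast_sub h2] at this
    push_cast at this
    exact this
  have h6 : (N : ℤ) = q ^ 3 - q := by
    have hq' : ((q : ℤ) - 1) ≠ 0 := by
      have : (1 : ℤ) < q := by exact_mod_cast hq
      omega
    apply mul_right_cancel₀ hq'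
    rw [h5]
    ring
  have h7 : ((q ^ 3 - q : ℕ) : ℤ) = q ^ 3 - q := by
    rw [Nat.cast_sub h1]; push_cast; ring
  exact_mod_cast h6.trans h7.symm

theorem p_free : S_free := by
  intro b k κ _ _ _ hk hc
  rw [Nat.card_congr (FreeGroup.lift (α := Fin b)
    (β := Matrix.SpecialLinearGroup (Fin 2) κ)).symm, Nat.card_fun, card_SL2, hc, Nat.card_fin]

end Pool.Agent.FrN
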