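import Pool.Agent.Lib.MP_305fdd_al.Fr.N.StmI

/-!
# MP_305fdd_al, F_r project, piece [FrN I uni]

The number of the representations into unipotent groups, characteristic `2`.
-/

set_option autoImplicit false

namespace Pool.Agent.FrN

open Multiplicative

namespace Uni

/-- squaring is bijective on a finite field of characteristic `2`. -/
theorem sq_bij (κ : Type) [Field κ] [Finite κ] [CharP κ 2] :
    Function.Bijective (fun x : κ => x ^ 2) := by
  have h2 : (2 : κ) = 0 := by
    have := CharP.cast_eq_zero κ 2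
    exact_mod_cast this
  refine (Finite.injective_iff_bijective).1 ?_
  intro x y hxy
  have hxy' : x ^ 2 = y ^ 2 := hxy
  have h : (x - y) ^ 2 = 0 := by
    have : (x - y) ^ 2 = x ^ 2 - y ^ 2 + 2 * (y ^ 2 - x * y) := by ring
    rw [this, hxy', h2]; ring
  have h0 : x - y = 0 := pow_eq_zero_iff (two_ne_zero) |>.1 h
  exact sub_eq_zero.1 h0

/-- homomorphisms to a power. -/
def homPi (Γ : Type) [Group Γ] (n : ℕ) (A : Type) [AddCommGroup A] :
    (Γ →* Multiplicative (Fin n → A)) ≃ (Fin n → (Γ →* Multiplicative A)) where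
  toFun f i :=
    { toFun := fun g => ofAdd (toAdd (f g) i)
      map_one' := by simp
      map_mul' := by intro a b; simp [map_mul] }
  invFun F :=
    { toFun := fun g => ofAdd (fun i => toAdd (F i g))
      map_one' := by ext i; simp
      map_mul' := by intro a b; ext i; simp [map_mul] }
  left_inv f := by ext g : 1; rfl
  right_inv F := by funext i; ext g : 1; rfl

theorem card_hom (Γ : Type) [Group Γ] (b k : ℕ) (κ : Type) [Field κ] [Finite κ] [CharP κ 2]
    (hb : Nat.card (Γ →* Multiplicative (ZMod 2)) = 2 ^ b) (hk : Nat.card κ = 2 ^ k) :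
    Nat.card (Γ →* Multiplicative κ) = (2 ^ k) ^ b := by
  have : Fact (Nat.Prime 2) := ⟨Nat.prime_two⟩
  let _ : Algebra (ZMod 2) κ := ZMod.algebra κ 2
  have hfin : Module.Finite (ZMod 2) κ := Module.Finite.of_finite
  have hcard : Nat.card κ = Nat.card (ZMod 2) ^ Module.finrank (ZMod 2) κ :=
    Module.natCard_eq_pow_finrank
  have hz : Nat.card (ZMod 2) = 2 := by simp
  have hn : Module.finrank (ZMod 2) κ = k := by
    rw [hk, hz] at hcard
    exact (Nat.pow_right_injective (le_refl 2) hcard).symm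
  let B := Module.finBasis (ZMod 2) κ
  have e1 : κ ≃+ (Fin (Module.finrank (ZMod 2) κ) → ZMod 2) := B.equivFun.toAddEquiv
  have e2 : (Γ →* Multiplicative κ) ≃
      (Γ →* Multiplicative (Fin (Module.finrank (ZMod 2) κ) → ZMod 2)) :=
    { toFun := fun f => (AddEquiv.toMultiplicative e1).toMonoidHom.comp f
      invFun := fun f => (AddEquiv.toMultiplicative e1).symm.toMonoidHom.comp f
      left_inv := by intro f; ext g; simp
      right_inv := by intro f; ext g : 1; simp }
  rw [Nat.card_congr (e2.trans (homPi Γ _ (ZMod 2))), Nat.card_fun, hb, hn]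
  simp [← pow_mul, mul_comm]

/-- pairs of homomorphisms to `κ` which are linearly dependent. -/
def Dep (Γ κ : Type) [Group Γ] [Field κ] : Type :=
  {f : (Γ →* Multiplicative κ) × (Γ →* Multiplicative κ) //
    ∀ g h, toAdd (f.1 g) * toAdd (f.2 h) = toAdd (f.2 g) * toAdd (f.1 h)}

/-- scalar multiple of a homomorphism. -/
def smulH {Γ κ : Type} [Group Γ] [Field κ] (s : κ) (f : Γ →* Multiplicative κ) :
    Γ →* Multiplicative κ where
  toFun g := ofAdd (s * toAdd (f g))
  map_one' := by simp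
  map_mul' := by intro a b; simp [map_mul, mul_add]

/-- parametrisation of the dependent pairs. -/
def par {Γ κ : Type} [Group Γ] [Field κ] :
    (Γ →* Multiplicative κ) ⊕ ({f : Γ →* Multiplicative κ // f ≠ 1} × κ) → Dep Γ κ
  | Sum.inl f => ⟨(1, f), by intro g h; simp⟩
  | Sum.inr (f, s) => ⟨(f.1, smulH s f.1), by
      intro g h
      change toAdd (f.1 g) * (s * toAdd (f.1 h)) = (s * toAdd (f.1 g)) * toAdd (f.1 h)
      ring⟩

theorem exists_ne {Γ κ : Type} [Group Γ] [Field κ] (f : Γ →* Multiplicative κ) (hf : f ≠ 1) :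
    ∃ g, toAdd (f g) ≠ 0 := by
  by_contra hcon
  push Not at hcon
  apply hf
  ext g
  exact hcon g

theorem par_bij (Γ κ : Type) [Group Γ] [Field κ] : Function.Bijective (par (Γ := Γ) (κ := κ)) := by
  constructor
  · rintro (f | ⟨f, s⟩) (f' | ⟨f', s'⟩) h
    · have h1 : f = f' := congrArg (fun d : Dep Γ κ => d.1.2) h
      rw [h1]
    · exfalso
      have h1 : (1 : Γ →* Multiplicative κ) = f'.1 := congrArg (fun d : Dep Γ κ => d.1.1) h
      exact f'.2 h1.symm
    · exfalso
      have h1 : f.1 = (1 : Γ →* Multiplicative κ) := congrArg (fun d : Dep Γ κ => d.1.1) h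
      exact f.2 h1
    · have h1 : f.1 = f'.1 := congrArg (fun d : Dep Γ κ => d.1.1) h
      have h2 : smulH s f.1 = smulH s' f'.1 := congrArg (fun d : Dep Γ κ => d.1.2) h
      obtain ⟨g, hg⟩ := exists_ne f.1 f.2
      have h3 : s * toAdd (f.1 g) = s' * toAdd (f'.1 g) := congrArg (fun u => toAdd (u g)) h2
      rw [← h1] at h3
      have h4 : s = s' := mul_right_cancel₀ hg h3
      have h5 : f = f' := Subtype.ext h1
      rw [h4, h5]
  · rintro ⟨⟨f0, f1⟩, hd⟩
    by_cases hf : f0 = 1
    · refine ⟨Sum.inl f1, ?_⟩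
      apply Subtype.ext
      change ((1 : Γ →* Multiplicative κ), f1) = (f0, f1)
      rw [hf]
    · obtain ⟨g0, hg0⟩ := exists_ne f0 hf
      refine ⟨Sum.inr (⟨f0, hf⟩, toAdd (f1 g0) / toAdd (f0 g0)), ?_⟩
      apply Subtype.ext
      change (f0, smulH (toAdd (f1 g0) / toAdd (f0 g0)) f0) = (f0, f1)
      have : smulH (toAdd (f1 g0) / toAdd (f0 g0)) f0 = f1 := by
        ext h
        change toAdd (f1 g0) / toAdd (f0 g0) * toAdd (f0 h) = toAdd (f1 h)
        have h1 := hd g0 h
        change toAdd (f0 g0) * toAdd (f1 h) = toAdd (f1 g0) * toAdd (f0 h) at h1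
        rw [div_mul_eq_mul_div, ← h1, mul_div_cancel_left₀ _ hg0]
      rw [this]

theorem card_dep (Γ κ : Type) [Group Γ] [Field κ] [Finite κ] (q Q : ℕ) (hq : Nat.card κ = q)
    (hQ : Nat.card (Γ →* Multiplicative κ) = Q) (hQ1 : 1 ≤ Q) :
    Nat.card (Dep Γ κ) = 1 + (q + 1) * (Q - 1) := by
  classical
  have hfin : Finite (Γ →* Multiplicative κ) := Nat.finite_of_card_ne_zero (by omega)
  rw [← Nat.card_congr (Equiv.ofBijective _ (par_bij Γ κ)), Nat.card_sum, Nat.card_prod, hQ, hq]
  have h1 : Nat.card {f : Γ →* Multiplicative κ // f ≠ 1} = Q - 1 := by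
    have h0 := Nat.card_congr (Equiv.sumCompl (fun f : Γ →* Multiplicative κ => f = 1))
    rw [Nat.card_sum, hQ] at h0
    have h2 : Nat.card {f : Γ →* Multiplicative κ // f = 1} = 1 := by
      simp
    have h3 : Nat.card {f : Γ →* Multiplicative κ // ¬ f = 1} = Q - 1 := by omega
    exact h3
  rw [h1]
  obtain ⟨m, rfl⟩ : ∃ m, Q = m + 1 := ⟨Q - 1, by omega⟩
  simp only [Nat.add_sub_cancel]
  ring

section rep

variable {Γ κ : Type} [Group Γ] [Field κ] [CharP κ 2]

theorem two_zero (κ : Type) [Field κ] [CharP κ 2] : (2 : κ) = 0 := by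
  have := CharP.cast_eq_zero κ 2
  exact_mod_cast this

/-- the matrix of a vector. -/
def mat (x y : κ) : Matrix.SpecialLinearGroup (Fin 2) κ :=
  ⟨!![1 + x * y, x ^ 2; y ^ 2, 1 + x * y], by
    have h2 := two_zero κ
    rw [Matrix.det_fin_two_of]
    linear_combination (x * y) * h2⟩

theorem mat_mul (x y z w : κ) (h : x * w = y * z) : mat x y * mat z w = mat (x + z) (y + w) := by
  have h2 := two_zero κ
  apply Subtype.ext
  change !![1 + x * y, x ^ 2; y ^ 2, 1 + x * y] * !![1 + z * w, z ^ 2; w ^ 2, 1 + z * w] =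
    !![1 + (x + z) * (y + w), (x + z) ^ 2; (y + w) ^ 2, 1 + (x + z) * (y + w)]
  rw [Matrix.mul_fin_two]
  have e1 : (1 + x * y) * (1 + z * w) + x ^ 2 * w ^ 2 = 1 + (x + z) * (y + w) := by
    linear_combination (x * w + 1) * h + (-(x * w) + x * y * z * w) * h2
  have e2 : (1 + x * y) * z ^ 2 + x ^ 2 * (1 + z * w) = (x + z) ^ 2 := by
    linear_combination (x * z) * h + (- (x * z) + x * y * z ^ 2) * h2
  have e3 : y ^ 2 * (1 + z * w) + (1 + x * y) * w ^ 2 = (y + w) ^ 2 := by
    linear_combination (y * w) * h + (- (y * w) + y ^ 2 * z * w) * h2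
  have e4 : y ^ 2 * z ^ 2 + (1 + x * y) * (1 + z * w) = 1 + (x + z) * (y + w) := by
    linear_combination (- (y * z) + 1) * h + (- (x * w) + x * y * z * w) * h2
  rw [e1, e2, e3, e4]

/-- the representation attached to a dependent pair. -/
def toRep (d : Dep Γ κ) :
    {r : Γ →* Matrix.SpecialLinearGroup (Fin 2) κ // ∀ g, (r g).1.trace = 0} :=
  ⟨{ toFun := fun g => mat (toAdd (d.1.1 g)) (toAdd (d.1.2 g))
     map_one' := by
       apply Subtype.ext
       simp [mat, Matrix.one_fin_two]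
     map_mul' := by
       intro a b
       rw [mat_mul _ _ _ _ (d.2 a b)]
       simp [map_mul] }, by
    intro g
    have h2 := two_zero κ
    change Matrix.trace !![1 + toAdd (d.1.1 g) * toAdd (d.1.2 g), (toAdd (d.1.1 g)) ^ 2;
      (toAdd (d.1.2 g)) ^ 2, 1 + toAdd (d.1.1 g) * toAdd (d.1.2 g)] = 0
    rw [Matrix.trace_fin_two_of]
    linear_combination (1 + toAdd (d.1.1 g) * toAdd (d.1.2 g)) * h2⟩

theorem toRep_bij [Finite κ] : Function.Bijective (toRep (Γ := Γ) (κ := κ)) := by
  have h2 := two_zero κ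
  have hsq := sq_bij κ
  have hinj : ∀ x y : κ, x ^ 2 = y ^ 2 → x = y := fun x y h => hsq.1 h
  constructor
  · rintro ⟨⟨f0, f1⟩, hd⟩ ⟨⟨f0', f1'⟩, hd'⟩ h
    have hg : ∀ g, mat (toAdd (f0 g)) (toAdd (f1 g)) = mat (toAdd (f0' g)) (toAdd (f1' g)) := by
      intro g
      exact congrArg (fun r => r.1 g) h
    have e0 : f0 = f0' := by
      ext g
      apply hinj
      exact congrArg (fun m : Matrix.SpecialLinearGroup (Fin 2) κ => m.1 0 1) (hg g)
    have e1 : f1 = f1' := by
      ext g
      apply hinj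
      exact congrArg (fun m : Matrix.SpecialLinearGroup (Fin 2) κ => m.1 1 0) (hg g)
    apply Subtype.ext
    change (f0, f1) = (f0', f1')
    rw [e0, e1]
  · rintro ⟨r, hr⟩
    choose v0 hv0 using fun g => hsq.2 ((r g).1 0 1)
    choose v1 hv1 using fun g => hsq.2 ((r g).1 1 0)
    have hv0' : ∀ g, (v0 g) ^ 2 = (r g).1 0 1 := hv0
    have hv1' : ∀ g, (v1 g) ^ 2 = (r g).1 1 0 := hv1
    have htr : ∀ g, (r g).1 0 0 + (r g).1 1 1 = 0 := by
      intro g
      have := hr g
      rwa [Matrix.trace_fin_two] at this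
    have hdd : ∀ g, (r g).1 1 1 = (r g).1 0 0 := by
      intro g
      linear_combination htr g - (r g).1 0 0 * h2
    have hdet : ∀ g, (r g).1 0 0 * (r g).1 1 1 - (r g).1 0 1 * (r g).1 1 0 = 1 := by
      intro g
      have := (r g).2
      rwa [Matrix.det_fin_two] at this
    have ha : ∀ g, (r g).1 0 0 = 1 + v0 g * v1 g := by
      intro g
      apply hinj
      have h := hdet g
      rw [hdd g, ← hv0' g, ← hv1' g] at h
      linear_combination h - (v0 g * v1 g) * h2
    have hm : ∀ g, r g = mat (v0 g) (v1 g) := by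
      intro g
      apply Subtype.ext
      ext i j
      fin_cases i <;> fin_cases j
      · exact ha g
      · exact (hv0' g).symm
      · exact (hv1' g).symm
      · exact (hdd g).trans (ha g)
    have hdep : ∀ g h, v0 g * v1 h = v1 g * v0 h := by
      intro g h
      have h1 := htr (g * h)
      rw [map_mul, hm g, hm h] at h1
      have e0 : (mat (v0 g) (v1 g) * mat (v0 h) (v1 h)).1 0 0 =
          (1 + v0 g * v1 g) * (1 + v0 h * v1 h) + (v0 g) ^ 2 * (v1 h) ^ 2 := by
        change (!![1 + v0 g * v1 g, (v0 g) ^ 2; (v1 g) ^ 2, 1 + v0 g * v1 g] *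
          !![1 + v0 h * v1 h, (v0 h) ^ 2; (v1 h) ^ 2, 1 + v0 h * v1 h]) 0 0 = _
        rw [Matrix.mul_fin_two]; rfl
      have e1 : (mat (v0 g) (v1 g) * mat (v0 h) (v1 h)).1 1 1 =
          (v1 g) ^ 2 * (v0 h) ^ 2 + (1 + v0 g * v1 g) * (1 + v0 h * v1 h) := by
        change (!![1 + v0 g * v1 g, (v0 g) ^ 2; (v1 g) ^ 2, 1 + v0 g * v1 g] *
          !![1 + v0 h * v1 h, (v0 h) ^ 2; (v1 h) ^ 2, 1 + v0 h * v1 h]) 1 1 = _
        rw [Matrix.mul_fin_two]; rfl
      rw [e0, e1] at h1
      apply hinj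
      linear_combination h1 - ((1 + v0 g * v1 g) * (1 + v0 h * v1 h) + (v1 g) ^ 2 * (v0 h) ^ 2) * h2
    have hone : v0 1 = 0 ∧ v1 1 = 0 := by
      have a0 := hv0' 1
      have a1 := hv1' 1
      rw [map_one] at a0 a1
      constructor
      · apply hinj; rw [a0]; simp
      · apply hinj; rw [a1]; simp
    have hmul : ∀ g h, v0 (g * h) = v0 g + v0 h ∧ v1 (g * h) = v1 g + v1 h := by
      intro g h
      have h1 : mat (v0 (g * h)) (v1 (g * h)) = mat (v0 g + v0 h) (v1 g + v1 h) := by
        rw [← hm, map_mul, hm g, hm h, mat_mul _ _ _ _ (hdep g h)]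
      constructor
      · apply hinj
        exact congrArg (fun m : Matrix.SpecialLinearGroup (Fin 2) κ => m.1 0 1) h1
      · apply hinj
        exact congrArg (fun m : Matrix.SpecialLinearGroup (Fin 2) κ => m.1 1 0) h1
    let f0 : Γ →* Multiplicative κ :=
      { toFun := fun g => ofAdd (v0 g)
        map_one' := by rw [hone.1]; rfl
        map_mul' := by intro a b; rw [(hmul a b).1]; rfl }
    let f1 : Γ →* Multiplicative κ :=
      { toFun := fun g => ofAdd (v1 g)
        map_one' := by rw [hone.2]; rfl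
        map_mul' := by intro a b; rw [(hmul a b).2]; rfl }
    refine ⟨⟨(f0, f1), fun g h => hdep g h⟩, ?_⟩
    apply Subtype.ext
    apply MonoidHom.ext
    intro g
    exact (hm g).symm

end rep

end Uni

theorem p_uni : S_uni := by
  intro Γ _ _ b k κ _ _ _ hb hk hκ
  have hQ := Uni.card_hom Γ b k κ hb hκ
  rw [← Nat.card_congr (Equiv.ofBijective _ (Uni.toRep_bij (Γ := Γ) (κ := κ)))]
  exact Uni.card_dep Γ κ (2 ^ k) ((2 ^ k) ^ b) hκ hQ (Nat.one_le_pow _ _ (by positivity))

end Pool.Agent.FrN
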