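import Pool.Agent.Lib.MP_305fdd_al.Fr.N.StmJ

set_option autoImplicit false

namespace Pool.Agent.FrN

open Matrix

/-- the linear algebra behind `S_lft` -/
theorem lft_aux (κ : Type) [Field κ] (s t : Matrix.SpecialLinearGroup (Fin 2) (DualNumber κ))
    (h : ∀ i j, TrivSqZeroExt.fst (s.1 i j) = TrivSqZeroExt.fst (t.1 i j))
    (h0 : TrivSqZeroExt.fst (s.1 1 1) * TrivSqZeroExt.snd (s.1 0 0)
        - TrivSqZeroExt.fst (s.1 0 1) * TrivSqZeroExt.snd (s.1 1 0)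
      = TrivSqZeroExt.fst (s.1 1 1) * TrivSqZeroExt.snd (t.1 0 0)
        - TrivSqZeroExt.fst (s.1 0 1) * TrivSqZeroExt.snd (t.1 1 0))
    (h1 : TrivSqZeroExt.fst (s.1 1 1) * TrivSqZeroExt.snd (s.1 0 1)
        - TrivSqZeroExt.fst (s.1 0 1) * TrivSqZeroExt.snd (s.1 1 1)
      = TrivSqZeroExt.fst (s.1 1 1) * TrivSqZeroExt.snd (t.1 0 1)
        - TrivSqZeroExt.fst (s.1 0 1) * TrivSqZeroExt.snd (t.1 1 1))
    (h2 : TrivSqZeroExt.fst (s.1 0 0) * TrivSqZeroExt.snd (s.1 1 0)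
        - TrivSqZeroExt.fst (s.1 1 0) * TrivSqZeroExt.snd (s.1 0 0)
      = TrivSqZeroExt.fst (s.1 0 0) * TrivSqZeroExt.snd (t.1 1 0)
        - TrivSqZeroExt.fst (s.1 1 0) * TrivSqZeroExt.snd (t.1 0 0)) : s = t := by
  have ds := s.2
  have dt := t.2
  rw [Matrix.det_fin_two] at ds dt
  have ds1 := congrArg TrivSqZeroExt.fst ds
  have ds2 := congrArg TrivSqZeroExt.snd ds
  have dt2 := congrArg TrivSqZeroExt.snd dt
  simp only [TrivSqZeroExt.fst_sub, TrivSqZeroExt.fst_mul, TrivSqZeroExt.fst_one] at ds1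
  simp only [TrivSqZeroExt.snd_sub, TrivSqZeroExt.snd_mul, TrivSqZeroExt.snd_one,
    smul_eq_mul, MulOpposite.smul_eq_mul_unop, MulOpposite.unop_op] at ds2 dt2
  rw [← h 0 0, ← h 0 1, ← h 1 0, ← h 1 1] at dt2
  have e00 : TrivSqZeroExt.snd (s.1 0 0) = TrivSqZeroExt.snd (t.1 0 0) := by
    linear_combination TrivSqZeroExt.fst (s.1 0 0) * h0 + TrivSqZeroExt.fst (s.1 0 1) * h2
      + (TrivSqZeroExt.snd (t.1 0 0) - TrivSqZeroExt.snd (s.1 0 0)) * ds1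
  have e10 : TrivSqZeroExt.snd (s.1 1 0) = TrivSqZeroExt.snd (t.1 1 0) := by
    linear_combination TrivSqZeroExt.fst (s.1 1 0) * h0 + TrivSqZeroExt.fst (s.1 1 1) * h2
      + (TrivSqZeroExt.snd (t.1 1 0) - TrivSqZeroExt.snd (s.1 1 0)) * ds1
  have h3 : TrivSqZeroExt.fst (s.1 0 0) * TrivSqZeroExt.snd (s.1 1 1)
        - TrivSqZeroExt.fst (s.1 1 0) * TrivSqZeroExt.snd (s.1 0 1)
      = TrivSqZeroExt.fst (s.1 0 0) * TrivSqZeroExt.snd (t.1 1 1)
        - TrivSqZeroExt.fst (s.1 1 0) * TrivSqZeroExt.snd (t.1 0 1) := by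
    linear_combination ds2 - dt2 - h0
  have e01 : TrivSqZeroExt.snd (s.1 0 1) = TrivSqZeroExt.snd (t.1 0 1) := by
    linear_combination TrivSqZeroExt.fst (s.1 0 0) * h1 + TrivSqZeroExt.fst (s.1 0 1) * h3
      + (TrivSqZeroExt.snd (t.1 0 1) - TrivSqZeroExt.snd (s.1 0 1)) * ds1
  have e11 : TrivSqZeroExt.snd (s.1 1 1) = TrivSqZeroExt.snd (t.1 1 1) := by
    linear_combination TrivSqZeroExt.fst (s.1 1 0) * h1 + TrivSqZeroExt.fst (s.1 1 1) * h3
      + (TrivSqZeroExt.snd (t.1 1 1) - TrivSqZeroExt.snd (s.1 1 1)) * ds1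
  apply Subtype.ext
  apply Matrix.ext
  intro i j
  apply TrivSqZeroExt.ext (h i j)
  fin_cases i <;> fin_cases j
  · exact e00
  · exact e01
  · exact e10
  · exact e11

theorem p_lft : S_lft := by
  intro b κ _ _ r
  classical
  let Φ : {s : FreeGroup (Fin b) →* Matrix.SpecialLinearGroup (Fin 2) (DualNumber κ) //
      ∀ g i j, TrivSqZeroExt.fst ((s g).1 i j) = (r g).1 i j} → (Fin b → κ × κ × κ) :=
    fun s i =>
      ((r (FreeGroup.of i)).1 1 1 * TrivSqZeroExt.snd ((s.1 (FreeGroup.of i)).1 0 0)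
        - (r (FreeGroup.of i)).1 0 1 * TrivSqZeroExt.snd ((s.1 (FreeGroup.of i)).1 1 0),
       (r (FreeGroup.of i)).1 1 1 * TrivSqZeroExt.snd ((s.1 (FreeGroup.of i)).1 0 1)
        - (r (FreeGroup.of i)).1 0 1 * TrivSqZeroExt.snd ((s.1 (FreeGroup.of i)).1 1 1),
       (r (FreeGroup.of i)).1 0 0 * TrivSqZeroExt.snd ((s.1 (FreeGroup.of i)).1 1 0)
        - (r (FreeGroup.of i)).1 1 0 * TrivSqZeroExt.snd ((s.1 (FreeGroup.of i)).1 0 0))
  have hΦ : Function.Injective Φ := by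
    intro s t hst
    apply Subtype.ext
    apply FreeGroup.ext_hom
    intro i
    have hi := congrFun hst i
    simp only [Φ, Prod.mk.injEq] at hi
    obtain ⟨g0, g1, g2⟩ := hi
    rw [← s.2 (FreeGroup.of i) 1 1, ← s.2 (FreeGroup.of i) 0 1] at g0 g1
    rw [← s.2 (FreeGroup.of i) 0 0, ← s.2 (FreeGroup.of i) 1 0] at g2
    exact lft_aux κ _ _ (fun k l => by rw [s.2, t.2]) g0 g1 g2
  calc Nat.card _ ≤ Nat.card (Fin b → κ × κ × κ) := Nat.card_le_card_of_injective Φ hΦ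
    _ = Nat.card κ ^ (3 * b) := by
      rw [Nat.card_fun, Nat.card_prod, Nat.card_prod, Nat.card_fin, pow_mul]
      congr 1
      ring

end Pool.Agent.FrN
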