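import Pool.Agent.Lib.MP_305fdd_al.Fr.N.StmJ

/-!
# MP_305fdd_al, F_r project, section N, part J: the piece pbsub (`p`-basis of a subfield)
-/

set_option autoImplicit false

namespace Pool.Agent.FrN

open Pool.Agent.F2Ch Pool.Agent.F2RF Pool.Agent.F2TF

/-- the coordinates with respect to a basis over `K ^ p` are `p⁻¹`-linear -/
theorem pbsub_sum {p : ℕ} [Fact p.Prime] {K ι κ : Type} [Field K] [CharP K p] [Fintype ι]
    [Fintype κ] {w : ι → K} {π : ι → K → K} (h : IsPB p w π) (i : ι) (a : κ → K) (v : κ → K) :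
    π i (∑ k, a k ^ p * v k) = ∑ k, a k * π i (v k) := by
  have h1 : ∑ k, a k ^ p * v k = ∑ l, (∑ k, a k * π l (v k)) ^ p * w l := by
    simp_rw [sum_pow_char, Finset.sum_mul]
    rw [Finset.sum_comm]
    refine Finset.sum_congr rfl fun k _ => ?_
    conv_lhs => rw [← h.repr (v k), Finset.mul_sum]
    refine Finset.sum_congr rfl fun l _ => ?_
    rw [mul_pow, mul_assoc]
  rw [h1]
  exact h.uniq (fun l => ∑ k, a k * π l (v k)) i

/-- a spanning family with as many members as a basis has coordinates -/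
theorem pbsub_span {p : ℕ} [Fact p.Prime] {K ι : Type} [Field K] [CharP K p] [Fintype ι]
    [DecidableEq ι] {w : ι → K} {π : ι → K → K} (h : IsPB p w π) (v : ι → K)
    (hs : ∀ x : K, ∃ a : ι → K, ∑ k, a k ^ p * v k = x) : ∃ ρ : ι → K → K, IsPB p v ρ := by
  choose R hR using hs
  let M : Matrix ι ι K := Matrix.of fun b a => R (w b) a
  let P : Matrix ι ι K := Matrix.of fun a c => π c (v a)
  have hMP : M * P = 1 := by
    ext b c
    rw [Matrix.mul_apply]
    have h1 : ∑ a, R (w b) a * π c (v a) = π c (w b) := by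
      rw [← pbsub_sum h c, hR]
    have h2 : π c (w b) = (1 : Matrix ι ι K) b c := by
      have h3 : w b = ∑ l, (1 : Matrix ι ι K) b l ^ p * w l := by
        rw [Finset.sum_eq_single b]
        · simp
        · intro l _ hl
          rw [Matrix.one_apply_ne (Ne.symm hl), zero_pow (Fact.out : p.Prime).ne_zero, zero_mul]
        · intro hb
          exact absurd (Finset.mem_univ b) hb
      rw [h3]
      exact h.uniq (fun l => (1 : Matrix ι ι K) b l) c
    rw [← h2, ← h1]
    rfl
  have hPM : P * M = 1 := mul_eq_one_comm.1 hMP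
  refine ⟨fun a x => ∑ b, π b x * R (w b) a, ?_, ?_⟩
  · intro f
    simp_rw [sum_pow_char, Finset.sum_mul]
    rw [Finset.sum_comm]
    conv_rhs => rw [← h.repr f]
    refine Finset.sum_congr rfl fun b _ => ?_
    conv_rhs => rw [← hR (w b), Finset.mul_sum]
    refine Finset.sum_congr rfl fun a _ => ?_
    rw [mul_pow, mul_assoc]
  · intro a i
    simp_rw [pbsub_sum h, Finset.sum_mul]
    rw [Finset.sum_comm]
    have h1 : ∀ c, ∑ b, a c * π b (v c) * R (w b) i = a c * (1 : Matrix ι ι K) c i := by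
      intro c
      rw [← hPM, Matrix.mul_apply, Finset.mul_sum]
      exact Finset.sum_congr rfl fun b _ => mul_assoc _ _ _
    simp_rw [h1]
    rw [Finset.sum_eq_single i]
    · simp
    · intro c _ hc
      rw [Matrix.one_apply_ne hc, mul_zero]
    · intro hi
      exact absurd (Finset.mem_univ i) hi

theorem p_pbsub : S_pbsub := by
  classical
  intro p _ KA K _ _ _ _ j hj n t π t' π' hA hK
  have hmon : ∀ α : Fin n → Fin p, monY (p := p) (fun i => j (t i)) α = j (monY (p := p) t α) := by
    intro α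
    simp [monY]
  have hrep : ∀ x : KA, j x = ∑ α, (j (π α x)) ^ p * monY (p := p) (fun i => j (t i)) α := by
    intro x
    conv_lhs => rw [← hA.pb.repr x, map_sum]
    refine Finset.sum_congr rfl fun α _ => ?_
    rw [hmon, map_mul, map_pow]
  have hs : ∀ x : K, ∃ a : (Fin n → Fin p) → K,
      ∑ α, a α ^ p * monY (p := p) (fun i => j (t i)) α = x := by
    intro x
    obtain ⟨m, c, a, hx⟩ := hj x
    refine ⟨fun α => ∑ i, c i * j (π α (a i)), ?_⟩
    rw [hx]
    simp_rw [sum_pow_char, Finset.sum_mul]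
    rw [Finset.sum_comm]
    refine Finset.sum_congr rfl fun i _ => ?_
    conv_rhs => rw [hrep (a i), Finset.mul_sum]
    refine Finset.sum_congr rfl fun α _ => ?_
    rw [mul_pow, mul_assoc]
  obtain ⟨ρ, hρ⟩ := pbsub_span hK.pb _ hs
  refine ⟨ρ, ⟨fun i => (map_ne_zero j).2 (hA.ne i), hρ⟩, ?_⟩
  intro α x
  rw [hrep x]
  exact hρ.uniq (fun β => j (π β x)) α

end Pool.Agent.FrN
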