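import Pool.Agent.Lib.MP_305fdd_al.Fr.N.StmJ

/-!
# MP_305fdd_al, F_r project: generic matrices specialise to all matrices (piece pts)
-/

set_option autoImplicit false

namespace Pool.Agent.FrN

open Set MvPolynomial

/-- generators of a field of the right transcendence degree are algebraically independent -/
private theorem pts_ai {k F ι : Type} [Field k] [Field F] [Algebra k F] [Finite ι] (e : ι → F)
    (h : Cardinal.mk ι ≤ Algebra.trdeg k (IntermediateField.adjoin k (range e))) :
    AlgebraicIndependent k e := by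
  set K := IntermediateField.adjoin k (range e) with hK
  let x : ι → K := fun i => ⟨e i, IntermediateField.subset_adjoin k _ ⟨i, rfl⟩⟩
  have hmem : ∀ u : F, u ∈ Algebra.adjoin k (range e) →
      ∃ u' : Algebra.adjoin k (range x), ((u' : K) : F) = u := by
    intro u hu
    have h1 : Algebra.adjoin k (range e) = (Algebra.adjoin k (range x)).map K.val := by
      rw [AlgHom.map_adjoin, ← range_comp]
      rfl
    rw [h1] at hu
    obtain ⟨u', hu', h2⟩ := hu
    exact ⟨⟨u', hu'⟩, h2⟩
  have : Algebra.IsAlgebraic (Algebra.adjoin k (range x)) K := by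
    constructor
    intro y
    obtain ⟨u, hu, v, hv, hy⟩ := IntermediateField.mem_adjoin_iff_div.1 y.2
    obtain ⟨u', rfl⟩ := hmem u hu
    obtain ⟨v', rfl⟩ := hmem v hv
    have h3 : y = (u' : K) * (v' : K)⁻¹ := by
      apply Subtype.ext
      rw [← div_eq_mul_inv]
      exact hy
    rw [h3]
    exact (isAlgebraic_algebraMap u').mul (isAlgebraic_algebraMap v').inv
  have hb := Algebra.IsAlgebraic.isTranscendenceBasis_of_le_trdeg_of_finite k x h
  exact hb.1.map' (f := K.val) K.val.injective

/-- the determinant -/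
private theorem pts_det {R : Type} [CommRing R] (m : Matrix.SpecialLinearGroup (Fin 2) R) :
    m.1 0 0 * m.1 1 1 - m.1 0 1 * m.1 1 0 = 1 := by
  have h := m.2
  rw [Matrix.det_fin_two] at h
  exact h

/-- the three coordinates -/
private theorem pts_coord {k F : Type} [Field k] [Field F] [Algebra k F] (b : ℕ)
    (m : Fin b → Matrix.SpecialLinearGroup (Fin 2) F)
    (h : Algebra.trdeg k (IntermediateField.adjoin k
      {x : F | ∃ i k l, x = (m i).1 k l}) = 3 * b) :
    AlgebraicIndependent k (fun s : Fin b × Fin 3 =>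
      (![(m s.1).1 0 0, (m s.1).1 0 1, (m s.1).1 1 0] : Fin 3 → F) s.2) := by
  classical
  let e : Fin b × Fin 3 → F := fun s =>
    if (m s.1).1 0 0 ≠ 0 then (![(m s.1).1 0 0, (m s.1).1 0 1, (m s.1).1 1 0] : Fin 3 → F) s.2
    else (![(m s.1).1 0 1, (m s.1).1 0 0, (m s.1).1 1 1] : Fin 3 → F) s.2
  have hsub : range e ⊆ {x : F | ∃ i k l, x = (m i).1 k l} := by
    rintro _ ⟨⟨i, j⟩, rfl⟩
    by_cases ha : (m i).1 0 0 ≠ 0
    · simp only [e, ha, if_true, mem_setOf_eq, ne_eq, not_false_eq_true]
      fin_cases j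
      · exact ⟨i, 0, 0, rfl⟩
      · exact ⟨i, 0, 1, rfl⟩
      · exact ⟨i, 1, 0, rfl⟩
    · simp only [e, ha, if_false, mem_setOf_eq]
      fin_cases j
      · exact ⟨i, 0, 1, rfl⟩
      · exact ⟨i, 0, 0, rfl⟩
      · exact ⟨i, 1, 1, rfl⟩
  have heq : IntermediateField.adjoin k {x : F | ∃ i k l, x = (m i).1 k l} =
      IntermediateField.adjoin k (range e) := by
    apply le_antisymm
    · rw [IntermediateField.adjoin_le_iff]
      rintro _ ⟨i, u, v, rfl⟩
      have he : ∀ j, e (i, j) ∈ IntermediateField.adjoin k (range e) := fun j =>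
        IntermediateField.subset_adjoin k _ ⟨(i, j), rfl⟩
      have hd := pts_det (m i)
      by_cases ha : (m i).1 0 0 ≠ 0
      · have h0 : (m i).1 0 0 ∈ IntermediateField.adjoin k (range e) := by
          have h7 : e (i, 0) = (m i).1 0 0 := (if_pos ha).trans rfl
          rw [← h7]
          exact he 0
        have h1 : (m i).1 0 1 ∈ IntermediateField.adjoin k (range e) := by
          have h7 : e (i, 1) = (m i).1 0 1 := (if_pos ha).trans rfl
          rw [← h7]
          exact he 1
        have h2 : (m i).1 1 0 ∈ IntermediateField.adjoin k (range e) := by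
          have h7 : e (i, 2) = (m i).1 1 0 := (if_pos ha).trans rfl
          rw [← h7]
          exact he 2
        have h3 : (m i).1 1 1 ∈ IntermediateField.adjoin k (range e) := by
          have h4 : (m i).1 1 1 = (1 + (m i).1 0 1 * (m i).1 1 0) / (m i).1 0 0 := by
            rw [eq_div_iff ha]
            linear_combination hd
          rw [h4]
          exact div_mem (add_mem (one_mem _) (mul_mem h1 h2)) h0
        fin_cases u <;> fin_cases v
        · exact h0
        · exact h1
        · exact h2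
        · exact h3
      · have h0 : (m i).1 0 1 ∈ IntermediateField.adjoin k (range e) := by
          have h7 : e (i, 0) = (m i).1 0 1 := (if_neg ha).trans rfl
          rw [← h7]
          exact he 0
        have h1 : (m i).1 0 0 ∈ IntermediateField.adjoin k (range e) := by
          have h7 : e (i, 1) = (m i).1 0 0 := (if_neg ha).trans rfl
          rw [← h7]
          exact he 1
        have h2 : (m i).1 1 1 ∈ IntermediateField.adjoin k (range e) := by
          have h7 : e (i, 2) = (m i).1 1 1 := (if_neg ha).trans rfl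
          rw [← h7]
          exact he 2
        have ha' : (m i).1 0 0 = 0 := not_not.1 ha
        have hb : (m i).1 0 1 ≠ 0 := by
          intro h5
          rw [ha', h5] at hd
          simp at hd
        have h3 : (m i).1 1 0 ∈ IntermediateField.adjoin k (range e) := by
          have h4 : (m i).1 1 0 = ((m i).1 0 0 * (m i).1 1 1 - 1) / (m i).1 0 1 := by
            rw [eq_div_iff hb]
            linear_combination -hd
          rw [h4]
          exact div_mem (sub_mem (mul_mem h1 h2) (one_mem _)) h0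
        fin_cases u <;> fin_cases v
        · exact h1
        · exact h0
        · exact h3
        · exact h2
    · exact IntermediateField.adjoin.mono k _ _ hsub
  rw [heq] at h
  have hai : AlgebraicIndependent k e := by
    apply pts_ai
    rw [h]
    simp [mul_comm]
  have hne : ∀ i, (m i).1 0 0 ≠ 0 := by
    intro i hi
    have h1 := hai.ne_zero (i, 1)
    apply h1
    simp [e, hi]
  have h2 : e = (fun s : Fin b × Fin 3 =>
      (![(m s.1).1 0 0, (m s.1).1 0 1, (m s.1).1 1 0] : Fin 3 → F) s.2) := by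
    funext s
    simp only [e]
    rw [if_pos (hne s.1)]
  rw [← h2]
  exact hai

/-- elimination of the lower right entries -/
private theorem pts_poly {k : Type} [Field k] (b : ℕ)
    (P : MvPolynomial (Fin b × Fin 2 × Fin 2) k) :
    ∃ (M : ℕ) (Q : MvPolynomial (Fin b × Fin 3) k), ∀ (R : Type) [CommRing R] [Algebra k R]
      (x : Fin b × Fin 2 × Fin 2 → R),
      (∀ i, x (i, 0, 0) * x (i, 1, 1) - x (i, 0, 1) * x (i, 1, 0) = 1) →
      (∏ i, x (i, 0, 0)) ^ M * aeval x P =
        aeval (fun s : Fin b × Fin 3 => (![x (s.1, 0, 0), x (s.1, 0, 1), x (s.1, 1, 0)] :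
          Fin 3 → R) s.2) Q := by
  classical
  induction P using MvPolynomial.induction_on with
  | C a =>
    refine ⟨0, C a, ?_⟩
    intro R _ _ x hx
    simp
  | add P1 P2 h1 h2 =>
    obtain ⟨M1, Q1, h1⟩ := h1
    obtain ⟨M2, Q2, h2⟩ := h2
    refine ⟨M1 + M2, (∏ i, X (i, 0)) ^ M2 * Q1 + (∏ i, X (i, 0)) ^ M1 * Q2, ?_⟩
    intro R _ _ x hx
    rw [map_add, map_add, map_mul, map_mul, map_pow, map_pow, map_prod, ← h1 R x hx, ← h2 R x hx]
    simp only [aeval_X, Matrix.cons_val_zero]
    ring
  | mul_X P s h =>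
    obtain ⟨M, Q, h⟩ := h
    obtain ⟨i, u, v⟩ := s
    have hh : (u = 0 ∧ v = 0) ∨ (u = 0 ∧ v = 1) ∨ (u = 1 ∧ v = 0) ∨ (u = 1 ∧ v = 1) := by
      fin_cases u <;> fin_cases v <;> simp
    rcases hh with ⟨rfl, rfl⟩ | ⟨rfl, rfl⟩ | ⟨rfl, rfl⟩ | ⟨rfl, rfl⟩
    · refine ⟨M, Q * X (i, 0), ?_⟩
      intro R _ _ x hx
      rw [map_mul, map_mul, ← h R x hx, aeval_X, aeval_X, ← mul_assoc]
      rfl
    · refine ⟨M, Q * X (i, 1), ?_⟩
      intro R _ _ x hx
      rw [map_mul, map_mul, ← h R x hx, aeval_X, aeval_X, ← mul_assoc]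
      rfl
    · refine ⟨M, Q * X (i, 2), ?_⟩
      intro R _ _ x hx
      rw [map_mul, map_mul, ← h R x hx, aeval_X, aeval_X, ← mul_assoc]
      rfl
    · refine ⟨M + 1, Q * ((∏ j ∈ Finset.univ.erase i, X (j, 0)) * (1 + X (i, 1) * X (i, 2))), ?_⟩
      intro R _ _ x hx
      rw [map_mul, map_mul, ← h R x hx, map_mul, map_add, map_one, map_mul, map_prod]
      simp only [aeval_X]
      have h1 : (∏ j, x (j, 0, 0)) = (∏ j ∈ Finset.univ.erase i, x (j, 0, 0)) * x (i, 0, 0) :=
        (Finset.prod_erase_mul _ _ (Finset.mem_univ i)).symm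
      have h2 : x (i, 0, 0) * x (i, 1, 1) = 1 + x (i, 0, 1) * x (i, 1, 0) := by
        linear_combination hx i
      have h3 : (∏ j, x (j, 0, 0)) ^ (M + 1) * (aeval x P * x (i, 1, 1)) =
          (∏ j, x (j, 0, 0)) ^ M * aeval x P * ((∏ j ∈ Finset.univ.erase i, x (j, 0, 0)) *
            (x (i, 0, 0) * x (i, 1, 1))) := by
        rw [pow_succ]
        nth_rw 2 [h1]
        ring
      rw [h3, h2]
      rfl

theorem p_pts : S_pts := by
  intro p _ b F _ _ m h κ _ _ r P hP
  classical
  have hai := pts_coord b m h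
  obtain ⟨M, Q, hQ⟩ := pts_poly b P
  have h1 := hQ F (fun s => (m s.1).1 s.2.1 s.2.2) (fun i => pts_det (m i))
  rw [hP, mul_zero] at h1
  have hQ0 : Q = 0 := by
    rw [algebraicIndependent_iff] at hai
    exact hai Q h1.symm
  subst hQ0
  -- the matrices over the polynomial ring
  let y : Fin b × Fin 2 × Fin 2 → Polynomial κ := fun s =>
    if s.2.2 = 0 then Polynomial.C ((r s.1).1 s.2.1 0) + Polynomial.C ((r s.1).1 s.2.1 1) *
      Polynomial.X else Polynomial.C ((r s.1).1 s.2.1 1)
  have hy : ∀ i, y (i, 0, 0) * y (i, 1, 1) - y (i, 0, 1) * y (i, 1, 0) = 1 := by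
    intro i
    have hd := pts_det (r i)
    simp only [y, if_true, one_ne_zero, if_false]
    have h2 : (Polynomial.C ((r i).1 0 0) * Polynomial.C ((r i).1 1 1) -
      Polynomial.C ((r i).1 0 1) * Polynomial.C ((r i).1 1 0) : Polynomial κ) = 1 := by
      rw [← Polynomial.C_mul, ← Polynomial.C_mul, ← Polynomial.C_sub, hd, Polynomial.C_1]
    linear_combination h2
  have h2 := hQ (Polynomial κ) y hy
  rw [map_zero] at h2
  have h3 : (∏ i, y (i, 0, 0)) ^ M ≠ 0 := by
    apply pow_ne_zero
    rw [Finset.prod_ne_zero_iff]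
    intro i _ h4
    simp only [y, if_true] at h4
    have h5 := congrArg (fun q => Polynomial.coeff q 0) h4
    have h6 := congrArg (fun q => Polynomial.coeff q 1) h4
    simp at h5 h6
    have hd := pts_det (r i)
    rw [h5, h6] at hd
    simp at hd
  have h4 := (mul_eq_zero.1 h2).resolve_left h3
  have h5 := congrArg ((Polynomial.aeval (0 : κ) : Polynomial κ →ₐ[κ] κ).restrictScalars (ZMod p)) h4
  rw [map_zero, MvPolynomial.comp_aeval_apply] at h5
  have h6 : (fun s : Fin b × Fin 2 × Fin 2 =>
      ((Polynomial.aeval (0 : κ) : Polynomial κ →ₐ[κ] κ).restrictScalars (ZMod p)) (y s)) =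
      fun s => (r s.1).1 s.2.1 s.2.2 := by
    funext s
    obtain ⟨i, u, v⟩ := s
    fin_cases v <;> simp [y]
  rw [h6] at h5
  exact h5

end Pool.Agent.FrN
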