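import Pool.Agent.Lib.MP_305fdd_al.Fr.N.StmJ
import Pool.Agent.Lib.MP_305fdd_al.F2.Ch.B2

set_option autoImplicit false

namespace Pool.Agent.FrN

open Pool.Agent.F2Ch Pool.Agent.F2RF Pool.Agent.F2TF

/-- a family which spans `K` over the subfield of `p`-th powers is not shorter than a `p`-basis -/
private theorem trge_span {p : ℕ} [Fact p.Prime] {K : Type} [Field K] [CharP K p] {ι : Type}
    [Fintype ι] {b : ι → K} {ρ : ι → K → K} (h : IsPB p b ρ) (i0 : ι) {N : ℕ} (w : Fin N → K)
    (hw : ∀ x : K, ∃ a : Fin N → K, x = ∑ j, a j ^ p * w j) : Fintype.card ι ≤ N := by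
  classical
  by_contra hlt
  push Not at hlt
  have hP : IsPinv p (ρ i0) := by
    have hfrob : ∀ x y : K, (x + y) ^ p = x ^ p + y ^ p := fun x y => add_pow_char x y p
    constructor
    · intro x y
      have e : x + y = ∑ i, (ρ i x + ρ i y) ^ p * b i := by
        conv_lhs => rw [← h.repr x, ← h.repr y, ← Finset.sum_add_distrib]
        refine Finset.sum_congr rfl fun i _ => ?_
        rw [hfrob, add_mul]
      conv_lhs => rw [e]
      rw [h.uniq]
    · intro a x
      have e : a ^ p * x = ∑ i, (a * ρ i x) ^ p * b i := by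
        conv_lhs => rw [← h.repr x, Finset.mul_sum]
        refine Finset.sum_congr rfl fun i _ => ?_
        rw [mul_pow, mul_assoc]
      conv_lhs => rw [e]
      rw [h.uniq]
  obtain ⟨g, hg, hg0⟩ := p_B2 p K ι b ρ h N w hlt (ρ i0) hP
  obtain ⟨a, ha⟩ := hw (g⁻¹ * b i0)
  have h1 := hg0 a
  rw [← ha, ← mul_assoc, mul_inv_cancel₀ hg, one_mul] at h1
  have h2 := h.uniq (fun i => if i = i0 then 1 else 0) i0
  have h3 : ∑ j, (fun i => if i = i0 then (1 : K) else 0) j ^ p * b j = b i0 := by
    have hp : p ≠ 0 := (Fact.out : p.Prime).ne_zero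
    rw [Finset.sum_eq_single i0]
    · simp
    · intro j _ hj
      simp [hj, hp]
    · simp
  rw [h3] at h2
  rw [h1] at h2
  simp at h2

theorem p_trge (h : S_pbex) : S_trge := by
  classical
  intro p _ KA K _ _ _ _ j hspan A B hA hAf hB hBf n hn
  have hchK : CharP K p := charP_of_injective_algebraMap (algebraMap (ZMod p) K).injective p
  have hchA : CharP KA p := charP_of_injective_algebraMap (algebraMap (ZMod p) KA).injective p
  let jA : KA →ₐ[ZMod p] K :=
    { j with
      commutes' := fun r => by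
        have := RingHom.ext_zmod (j.comp (algebraMap (ZMod p) KA)) (algebraMap (ZMod p) K)
        exact RingHom.congr_fun this r }
  have hle : Algebra.trdeg (ZMod p) KA ≤ Algebra.trdeg (ZMod p) K :=
    trdeg_le_of_injective jA j.injective
  rw [hn] at hle
  obtain ⟨m, hm⟩ := Cardinal.lt_aleph0.1 (lt_of_le_of_lt hle (Cardinal.natCast_lt_aleph0))
  rw [hm] at hle
  have hmn : m ≤ n := by exact_mod_cast hle
  obtain ⟨t, π, -, hMB⟩ := h p KA A hA hAf m hm
  obtain ⟨t', π', -, hMB'⟩ := h p K B hB hBf n hn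
  have hp : p.Prime := Fact.out
  have : NeZero p := ⟨hp.ne_zero⟩
  -- the monomials in the `j (t i)` span
  have key : ∀ x : K, ∃ a : (Fin m → Fin p) → K,
      x = ∑ α, a α ^ p * j (monY (p := p) t α) := by
    intro x
    obtain ⟨N, c, a, hx⟩ := hspan x
    refine ⟨fun α => ∑ i, c i * j (π α (a i)), ?_⟩
    have e1 : ∀ i, c i ^ p * j (a i) = ∑ α, (c i * j (π α (a i))) ^ p * j (monY (p := p) t α) := by
      intro i
      conv_lhs => rw [← hMB.pb.repr (a i), map_sum, Finset.mul_sum]
      refine Finset.sum_congr rfl fun α _ => ?_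
      rw [map_mul, map_pow, mul_pow, mul_assoc]
    rw [hx, Finset.sum_congr rfl fun i _ => e1 i, Finset.sum_comm]
    refine Finset.sum_congr rfl fun α _ => ?_
    rw [sum_pow_char p, Finset.sum_mul]
  let e := Fintype.equivFin (Fin m → Fin p)
  have hcard := trge_span hMB'.pb (fun _ => (0 : Fin p))
    (fun i : Fin (Fintype.card (Fin m → Fin p)) => j (monY (p := p) t (e.symm i))) (by
      intro x
      obtain ⟨a, ha⟩ := key x
      refine ⟨fun i => a (e.symm i), ?_⟩
      rw [ha]
      exact (Equiv.sum_comp e.symm (fun α => a α ^ p * j (monY (p := p) t α))).symm)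
  rw [Fintype.card_fun, Fintype.card_fun, Fintype.card_fin, Fintype.card_fin,
    Fintype.card_fin] at hcard
  have hnm : n ≤ m := (Nat.pow_le_pow_iff_right hp.one_lt).1 hcard
  rw [hm]
  exact_mod_cast le_antisymm hmn hnm

end Pool.Agent.FrN
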