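import Pool.Agent.Lib.MP_305fdd_al.Fr.N.Main
import Pool.Agent.Lib.MP_305fdd_al.Fr.N.E.Stm3
import Pool.Agent.Lib.MP_305fdd_al.F2.RF.Main

/-!
# MP_305fdd_al, F_r project, section N: assembly of Theorem N, part 2
-/

set_option autoImplicit false

namespace Pool.Agent.FrN

open Pool.Agent.F2Ch Pool.Agent.F2RF Pool.Agent.F2TF Pool.Agent.FrNE

theorem charP_two (K : Type) [Field K] [Algebra (ZMod 2) K] : CharP K 2 :=
  (Algebra.charP_iff (ZMod 2) K 2).mp (ZMod.charP 2)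

/-! ## Operators -/

/-- two operators of log type are conjugate -/
theorem lt_conj {K : Type} [Field K] [CharP K 2] {Φ Φ' : K → K} (h : LogTy 2 Φ)
    (h' : LogTy 2 Φ') : ∃ u : K, u ≠ 0 ∧ ∀ x, Φ' x = u⁻¹ * Φ (u * x) := by
  obtain ⟨d, t, π, g, h1, h2, h3⟩ := h
  obtain ⟨g', h4, h5⟩ := w4 2 K Φ' h' d t π h1
  refine ⟨g⁻¹ * g', mul_ne_zero (inv_ne_zero h2) h4, fun x => ?_⟩
  rw [h5, h3]
  have h6 : g * (g⁻¹ * g' * x) = g' * x := by field_simp
  rw [h6]
  field_simp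

theorem iter_conj {K : Type} [Field K] {Φ Φ' : K → K} {u : K} (hu : u ≠ 0)
    (h : ∀ x, Φ' x = u⁻¹ * Φ (u * x)) (e : ℕ) (x : K) :
    Φ'^[e] x = u⁻¹ * Φ^[e] (u * x) := by
  induction e generalizing x with
  | zero => simp [hu]
  | succ e ih =>
    rw [Function.iterate_succ_apply, Function.iterate_succ_apply, ih, h x]
    congr 2
    rw [← mul_assoc, mul_inv_cancel₀ hu, one_mul]

/-! ## The augmentation -/

section aug

variable {b : ℕ} {Γ K F : Type} [Group Γ] [Field K] [Field F] [Algebra (ZMod 2) K]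
  [Algebra (ZMod 2) F] [Algebra K F] {T : Γ → K} {ρ : Γ →* Matrix.SpecialLinearGroup (Fin 2) F}

/-- the ideal of the trivial point -/
abbrev mI (T : Γ → K) : Ideal (BB 2 T) := Ideal.span (Set.range (bT 2 T))

theorem aug_mem (φ : BB 2 T →ₐ[ZMod 2] ZMod 2) (hφ : ∀ g, φ (bT 2 T g) = 0) (x : BB 2 T) :
    x - algebraMap (ZMod 2) (BB 2 T) (φ x) ∈ mI T := by
  obtain ⟨x, hx⟩ := x
  induction hx using Algebra.adjoin_induction with
  | mem x hx =>
    obtain ⟨g, rfl⟩ := hx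
    have : φ ⟨T g, Algebra.subset_adjoin ⟨g, rfl⟩⟩ = 0 := hφ g
    rw [this, map_zero, sub_zero]
    exact Ideal.subset_span ⟨g, rfl⟩
  | algebraMap r =>
    have h1 : (⟨algebraMap (ZMod 2) K r, (BB 2 T).algebraMap_mem r⟩ : BB 2 T) =
        algebraMap (ZMod 2) (BB 2 T) r := rfl
    rw [h1, AlgHom.commutes]
    simp
  | add x y hx hy h1 h2 =>
    have h3 : (⟨x + y, add_mem hx hy⟩ : BB 2 T) = ⟨x, hx⟩ + ⟨y, hy⟩ := rfl
    rw [h3, map_add, map_add, add_sub_add_comm]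
    exact add_mem h1 h2
  | mul x y hx hy h1 h2 =>
    have h3 : (⟨x * y, mul_mem hx hy⟩ : BB 2 T) = ⟨x, hx⟩ * ⟨y, hy⟩ := rfl
    rw [h3, map_mul, map_mul]
    have h4 : (⟨x, hx⟩ * ⟨y, hy⟩ : BB 2 T) - algebraMap (ZMod 2) (BB 2 T) (φ ⟨x, hx⟩) *
        algebraMap (ZMod 2) (BB 2 T) (φ ⟨y, hy⟩) =
        ⟨x, hx⟩ * (⟨y, hy⟩ - algebraMap (ZMod 2) (BB 2 T) (φ ⟨y, hy⟩)) +
        (⟨x, hx⟩ - algebraMap (ZMod 2) (BB 2 T) (φ ⟨x, hx⟩)) *
          algebraMap (ZMod 2) (BB 2 T) (φ ⟨y, hy⟩) := by ring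
    rw [h4]
    exact add_mem (Ideal.mul_mem_left _ _ h2) (Ideal.mul_mem_right _ _ h1)

/-- restriction of a point of `O` to `B` -/
noncomputable def resB (H : HB 2 b Γ K F T ρ) : BB 2 T →ₐ[ZMod 2] OO 2 ρ where
  toFun y := ⟨algebraMap K F y, BB_le H y.2⟩
  map_one' := Subtype.ext (map_one _)
  map_mul' x y := Subtype.ext (map_mul _ _ _)
  map_zero' := Subtype.ext (map_zero _)
  map_add' x y := Subtype.ext (map_add _ _ _)
  commutes' r := Subtype.ext (by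
    have h1 : (algebraMap K F).comp (algebraMap (ZMod 2) K) = algebraMap (ZMod 2) F :=
      Subsingleton.elim _ _
    exact congrArg (fun φ : ZMod 2 →+* F => φ r) h1)

theorem mem_VV' (H : HB 2 b Γ K F T ρ) {κ : Type} [Field κ] [Algebra (ZMod 2) κ] (y : BB 2 T)
    (φ : OO 2 ρ →ₐ[ZMod 2] κ) : φ ∈ VV ρ κ (y : K) ↔ φ (resB H y) ≠ 0 :=
  mem_VV H y.2 φ

theorem exists_aug (H : HB 2 b Γ K F T ρ) :
    ∃ φ : BB 2 T →ₐ[ZMod 2] ZMod 2, ∀ g, φ (bT 2 T g) = 0 := by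
  obtain ⟨φ, hφ⟩ := H.pts (ZMod 2) 1
  refine ⟨φ.comp (resB H), fun g => ?_⟩
  have h1 : resB H (bT 2 T g) = ⟨(ρ g).1 0 0, mem_OO ρ g 0 0⟩ + ⟨(ρ g).1 1 1, mem_OO ρ g 1 1⟩ := by
    apply Subtype.ext
    change algebraMap K F (T g) = (ρ g).1 0 0 + (ρ g).1 1 1
    rw [← H.tr, Matrix.trace_fin_two]
  rw [AlgHom.comp_apply, h1, map_add, hφ, hφ]
  simp
  rfl

/-- a list of nonzero traces which generates the ideal of the trivial point -/
theorem exists_gen (H : HB 2 b Γ K F T ρ) : ∃ gs : List Γ, (∀ g ∈ gs, T g ≠ 0) ∧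
    Ideal.span {y | y ∈ gs.map (bT 2 T)} = mI T := by
  classical
  have hfg : Algebra.FiniteType (ZMod 2) (BB 2 T) := by
    rw [← Subalgebra.fg_iff_finiteType]
    exact H.BB_fg
  have hN : IsNoetherianRing (BB 2 T) := Algebra.FiniteType.isNoetherianRing (ZMod 2) (BB 2 T)
  have h1 : (mI T).FG := (isNoetherianRing_iff_ideal_fg _).mp hN _
  obtain ⟨s, hs, h2⟩ := (Submodule.fg_span_iff_fg_span_finset_subset _).mp h1
  choose g hg using fun x : s => hs x.2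
  refine ⟨((Finset.univ.filter fun x : s => T (g x) ≠ 0).image g).toList, ?_, ?_⟩
  · intro x hx
    rw [Finset.mem_toList, Finset.mem_image] at hx
    obtain ⟨y, hy, rfl⟩ := hx
    exact (Finset.mem_filter.mp hy).2
  · apply le_antisymm
    · refine Ideal.span_le.mpr ?_
      intro y hy
      rw [Set.mem_ofPred_eq, List.mem_map] at hy
      obtain ⟨x, _, rfl⟩ := hy
      exact Ideal.subset_span ⟨x, rfl⟩
    · change Submodule.span _ _ ≤ _
      rw [h2]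
      refine Submodule.span_le.mpr ?_
      intro y hy
      by_cases h0 : T (g ⟨y, hy⟩) = 0
      · have h3 : y = 0 := by
          have h4 : bT 2 T (g ⟨y, hy⟩) = y := hg ⟨y, hy⟩
          have h5 : bT 2 T (g ⟨y, hy⟩) = 0 := Subtype.ext h0
          exact h4.symm.trans h5
        rw [h3]
        exact zero_mem _
      · refine Ideal.subset_span ?_
        rw [Set.mem_ofPred_eq, List.mem_map]
        refine ⟨g ⟨y, hy⟩, ?_, hg ⟨y, hy⟩⟩
        rw [Finset.mem_toList, Finset.mem_image]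
        exact ⟨⟨y, hy⟩, Finset.mem_filter.mpr ⟨Finset.mem_univ _, h0⟩, rfl⟩

end aug

/-! ## Common elements -/

theorem exists_common {A : Type} [CommRing A] [IsDomain A] (l : List (A → Prop))
    (hP : ∀ P ∈ l, ∀ c a, P c → P (a * c)) (hl : ∀ P ∈ l, ∃ c, c ≠ 0 ∧ P c) :
    ∃ c : A, c ≠ 0 ∧ ∀ P ∈ l, P c := by
  induction l with
  | nil => exact ⟨1, one_ne_zero, fun i hi => absurd hi List.not_mem_nil⟩
  | cons i l ih =>
    obtain ⟨c, hc, h1⟩ := ih (fun j hj => hP j (List.mem_cons_of_mem _ hj))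
      fun j hj => hl j (List.mem_cons_of_mem _ hj)
    obtain ⟨c', hc', h2⟩ := hl i List.mem_cons_self
    refine ⟨c * c', mul_ne_zero hc hc', ?_⟩
    intro j hj
    rcases List.mem_cons.mp hj with rfl | hj'
    · exact hP _ hj _ _ h2
    · rw [mul_comm]
      exact hP _ hj _ _ (h1 j hj')

/-- equal transcendence degrees -/
theorem alg_of_trdeg {KA K : Type} [Field KA] [Field K] [Algebra (ZMod 2) KA]
    [Algebra (ZMod 2) K] (j : KA →+* K) (n : ℕ) (h1 : Algebra.trdeg (ZMod 2) KA + 3 = n)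
    (h2 : Algebra.trdeg (ZMod 2) K + 3 = n) (x : K) :
    ∃ P : Polynomial KA, P ≠ 0 ∧ Polynomial.eval₂ j x P = 0 := by
  let _ := j.toAlgebra
  have : IsScalarTower (ZMod 2) KA K := IsScalarTower.of_algebraMap_eq' (Subsingleton.elim _ _)
  have h3 := trdeg_add_eq (ZMod 2) KA (A := K)
  have hlt : Algebra.trdeg (ZMod 2) KA < Cardinal.aleph0 := by
    refine lt_of_le_of_lt (self_le_add_right _ 3) ?_
    rw [h1]
    exact Cardinal.natCast_lt_aleph0
  have hlt2 : Algebra.trdeg (ZMod 2) K < Cardinal.aleph0 := by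
    refine lt_of_le_of_lt (self_le_add_right _ 3) ?_
    rw [h2]
    exact Cardinal.natCast_lt_aleph0
  obtain ⟨m, hm⟩ := Cardinal.lt_aleph0.mp hlt
  obtain ⟨m', hm'⟩ := Cardinal.lt_aleph0.mp hlt2
  rw [hm] at h1 h3
  rw [hm'] at h2 h3
  have h4 : m = m' := by
    have h5 : ((m + 3 : ℕ) : Cardinal) = ((m' + 3 : ℕ) : Cardinal) := by
      push_cast
      rw [h1, h2]
    have := Nat.cast_injective h5
    omega
  subst h4
  have hlt3 : Algebra.trdeg KA K < Cardinal.aleph0 := by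
    refine lt_of_le_of_lt (self_le_add_left _ (m : Cardinal)) ?_
    rw [h3]
    exact Cardinal.natCast_lt_aleph0
  obtain ⟨r, hr⟩ := Cardinal.lt_aleph0.mp hlt3
  have h5 : Algebra.trdeg KA K = 0 := by
    rw [hr] at h3 ⊢
    have : m + r = m := by exact_mod_cast h3
    have : r = 0 := by omega
    rw [this, Nat.cast_zero]
  have h6 : Algebra.IsAlgebraic KA K := trdeg_eq_zero_iff.mp h5
  obtain ⟨P, hP, hx⟩ := h6.isAlgebraic x
  exact ⟨P, hP, hx⟩

end Pool.Agent.FrN
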