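import Pool.Agent.Lib.MP_305fdd_al.Fr.N.MainE1
import Pool.Agent.Lib.MP_305fdd_al.Fr.N.Main2
import Pool.Agent.Lib.MP_305fdd_al.Fr.N.E.E45
import Pool.Agent.Lib.MP_305fdd_al.Fr.N.E.Stm4

/-!
# MP_305fdd_al, F_r project, section N: assembly of section E
-/

set_option autoImplicit false

namespace Pool.Agent.FrN

open Pool.Agent.F2Ch Pool.Agent.F2RF Pool.Agent.F2TF

/-! ## The subring generated by the traces, inside and outside -/

section tra

variable {ΓA KA K : Type} [Field KA] [Field K] [Algebra (ZMod 2) KA] [Algebra (ZMod 2) K]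
  (j : KA →ₐ[ZMod 2] K) (TA : ΓA → KA) (T' : ΓA → K) (hT : ∀ w, T' w = j (TA w))

include hT in
theorem map_BB : (BB 2 TA).map j = BB 2 T' := by
  unfold BB
  rw [AlgHom.map_adjoin, ← Set.range_comp]
  congr 1
  congr 1
  funext w
  exact (hT w).symm

/-- the isomorphism -/
noncomputable def tra : BB 2 TA ≃ₐ[ZMod 2] BB 2 T' :=
  ((BB 2 TA).equivMapOfInjective j j.toRingHom.injective).trans
    (Subalgebra.equivOfEq _ _ (map_BB j TA T' hT))

theorem tra_val (x : BB 2 TA) : (tra j TA T' hT x : K) = j x := rfl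

theorem tra_bT (w : ΓA) : tra j TA T' hT (bT 2 TA w) = bT 2 T' w :=
  Subtype.ext (by rw [tra_val]; exact (hT w).symm)

theorem tra_symm_bT (w : ΓA) : (tra j TA T' hT).symm (bT 2 T' w) = bT 2 TA w := by
  rw [← tra_bT j TA T' hT, AlgEquiv.symm_apply_apply]

theorem tra_symm_mem (n : ℕ) {x : BB 2 T'} (hx : x ∈ (Ideal.span (Set.range (bT 2 T'))) ^ n) :
    (tra j TA T' hT).symm x ∈ (Ideal.span (Set.range (bT 2 TA))) ^ n := by
  have h1 := Ideal.mem_map_of_mem ((tra j TA T' hT).symm : BB 2 T' →+* BB 2 TA) hx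
  rw [Ideal.map_pow, Ideal.map_span, ← Set.range_comp] at h1
  have h2 : (((tra j TA T' hT).symm : BB 2 T' →+* BB 2 TA) ∘ bT 2 T') = bT 2 TA := by
    funext w
    exact tra_symm_bT j TA T' hT w
  rw [h2] at h1
  exact h1

end tra

/-- assembly of section E -/
theorem main_E (hgi : S_gi) (hpbex : S_pbex) (hpbsub : S_pbsub) (htrge : S_trge) (hpts : S_pts)
    (hlft : S_lft) (hbas : FrNE.S_bas) (he3 : FrNE.S_e3) (he1 : FrNE.S_e1f) (he2 : FrNE.S_e2f)
    (hpro : FrNE.S_pro) (hproM : FrNE.S_proM) (hden : FrNE.S_den) (hkf : I_kf) : I_E := by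
  intro b Γ K F _ _ _ _ _ _ T ρ hb H
  obtain ⟨g, hg⟩ := hgi Γ b H.ab
  obtain ⟨hK3, hF3⟩ := he3 b Γ K F T ρ H g hg
  have hE1 := he1 b Γ K F T ρ H g hg
  have hE2 := he2 b Γ K F T ρ H g hg
  -- the fields
  let f : FreeGroup (Fin b) →* Γ := FreeGroup.lift g
  let T' : FreeGroup (Fin b) → K := fun w => T (f w)
  let SF : Set F := {x | ∃ w i k, x = (ρ (f w)).1 i k}
  let KA : IntermediateField (ZMod 2) K := IntermediateField.adjoin (ZMod 2) (Set.range T')
  let FA : IntermediateField (ZMod 2) F := IntermediateField.adjoin (ZMod 2) SF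
  have hmK : ∀ w, T' w ∈ KA := fun w => IntermediateField.subset_adjoin _ _ ⟨w, rfl⟩
  have hmF : ∀ w i k, (ρ (f w)).1 i k ∈ FA := fun w i k =>
    IntermediateField.subset_adjoin _ _ ⟨w, i, k, rfl⟩
  let i0 : K →ₐ[ZMod 2] F :=
    { (algebraMap K F) with
      commutes' := fun r => congrFun (congrArg DFunLike.coe (Subsingleton.elim
        ((algebraMap K F).comp (algebraMap (ZMod 2) K)) (algebraMap (ZMod 2) F))) r }
  have hi0 : ∀ x, i0 x = algebraMap K F x := fun _ => rfl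
  have hKAFA : ∀ x ∈ KA, i0 x ∈ FA := by
    have h1 : KA ≤ FA.comap i0 := by
      apply IntermediateField.adjoin_le_iff.mpr
      rintro _ ⟨w, rfl⟩
      change i0 (T (f w)) ∈ FA
      rw [hi0, ← H.tr, Matrix.trace_fin_two]
      exact add_mem (hmF _ _ _) (hmF _ _ _)
    exact fun x hx => h1 hx
  let iA : KA →+* FA :=
    { toFun := fun x => ⟨i0 x, hKAFA x x.2⟩
      map_one' := Subtype.ext (map_one i0)
      map_mul' := fun x y => Subtype.ext (map_mul i0 x.1 y.1)
      map_zero' := Subtype.ext (map_zero i0)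
      map_add' := fun x y => Subtype.ext (map_add i0 x.1 y.1) }
  let algA : Algebra KA FA := iA.toAlgebra
  let TA : FreeGroup (Fin b) → KA := fun w => ⟨T' w, hmK w⟩
  let ρA : FreeGroup (Fin b) →* Matrix.SpecialLinearGroup (Fin 2) FA :=
    restr FA.val.toRingHom Subtype.val_injective (ρ.comp f)
      (fun w i k => ⟨(ρ (f w)).1 i k, hmF w i k⟩) (fun _ _ _ => rfl)
  have hTA : ∀ w, T' w = KA.val (TA w) := fun _ => rfl
  have htr : ∀ w, (ρA w).1.trace = algebraMap KA FA (TA w) := by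
    intro w
    apply Subtype.ext
    change (((ρA w).1.trace : FA) : F) = algebraMap K F (T (f w))
    rw [← H.tr, Matrix.trace_fin_two, Matrix.trace_fin_two]
    rfl
  have hfrK : Frc (BB 2 TA) := by
    unfold BB
    refine frc_adjoin KA.val (Set.range TA) ?_
    intro x
    have h1 : KA.val '' Set.range TA = Set.range T' := by
      rw [← Set.range_comp]
      rfl
    rw [h1]
    exact x.2
  have hfrF : Frc (OO 2 ρA) := by
    unfold OO
    refine frc_adjoin FA.val _ ?_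
    intro x
    have h1 : FA.val '' {x | ∃ w i k, x = (ρA w).1 i k} = SF := by
      ext y
      constructor
      · rintro ⟨_, ⟨w, i, k, rfl⟩, rfl⟩
        exact ⟨w, i, k, rfl⟩
      · rintro ⟨w, i, k, rfl⟩
        exact ⟨(ρA w).1 i k, ⟨w, i, k, rfl⟩, rfl⟩
    rw [h1]
    exact x.2
  have hcK : CharP K 2 := charP_of_injective_algebraMap (algebraMap (ZMod 2) K).injective 2
  have hcKA : CharP KA 2 := charP_of_injective_algebraMap (algebraMap (ZMod 2) KA).injective 2
  have hPc : Pool.Agent.CC.PChar (F := ZMod 2) (1 : FreeGroup (Fin b) →* (ZMod 2)ˣ) TA :=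
    pchar_of_tr htr
  have hBA : (BB 2 TA).FG := hPc.fg
  have hOA : (OO 2 ρA).FG := OO_free_fg ρA
  -- spanning over the squares
  have hspK : PSpan 2 KA K KA.val.toRingHom := by
    intro x
    obtain ⟨n, c, a, ha, hx⟩ := hK3 x
    have h1 : ∀ i, a i ∈ KA := fun i =>
      IntermediateField.algebra_adjoin_le_adjoin (ZMod 2) (Set.range T') (ha i)
    exact ⟨n, c, fun i => ⟨a i, h1 i⟩, hx⟩
  have hspF : PSpan 2 FA F FA.val.toRingHom := by
    intro x
    obtain ⟨n, c, a, ha, hx⟩ := hF3 x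
    have h0 : {x : F | ∃ w i k, x = ((ρ.comp (FreeGroup.lift g)) w).1 i k} = SF := rfl
    have h1 : ∀ i, a i ∈ FA := fun i => by
      have := ha i
      unfold OO at this
      rw [h0] at this
      exact IntermediateField.algebra_adjoin_le_adjoin (ZMod 2) SF this
    exact ⟨n, c, fun i => ⟨a i, h1 i⟩, hx⟩
  have hBfg : (BB 2 T).FG := H.BB_fg
  have hOfg : (OO 2 ρ).FG := (hbas 2 b Γ K F T ρ H).2.2.2
  have htFA : Algebra.trdeg (ZMod 2) FA = 3 * b := by
    have := htrge 2 FA F FA.val.toRingHom hspF (OO 2 ρA) (OO 2 ρ) hOA hfrF hOfg H.fracF (3 * b)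
      (by rw [H.trF]; push_cast; rfl)
    rw [this]
    push_cast
    rfl
  have hn : Algebra.trdeg (ZMod 2) K = ((3 * b - 3 : ℕ) : Cardinal) := by
    have h1 := H.trK
    have hlt : Algebra.trdeg (ZMod 2) K < Cardinal.aleph0 := by
      refine lt_of_le_of_lt (self_le_add_right _ 3) ?_
      rw [h1]
      exact_mod_cast Cardinal.natCast_lt_aleph0 (n := 3 * b)
    obtain ⟨m, hm⟩ := Cardinal.lt_aleph0.mp hlt
    rw [hm] at h1 ⊢
    have h2 : m + 3 = 3 * b := by exact_mod_cast h1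
    have h3 : m = 3 * b - 3 := by omega
    rw [h3]
  have hnA : Algebra.trdeg (ZMod 2) KA = ((3 * b - 3 : ℕ) : Cardinal) :=
    htrge 2 KA K KA.val.toRingHom hspK (BB 2 TA) (BB 2 T) hBA hfrK hBfg H.fracK (3 * b - 3) hn
  have htKA : Algebra.trdeg (ZMod 2) KA + 3 = 3 * b := by
    rw [hnA]
    have : 3 * b - 3 + 3 = 3 * b := by omega
    exact_mod_cast congrArg (Nat.cast : ℕ → Cardinal.{0}) this
  have HA : HB 2 b (FreeGroup (Fin b)) KA FA TA ρA :=
    hb_free ρA hpts hlft TA htr hfrK hfrF htFA htKA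
  -- the operators
  obtain ⟨t, π, -, hπ⟩ := hpbex 2 KA (BB 2 TA) hBA hfrK (3 * b - 3) hnA
  obtain ⟨t', π', -, hπ'⟩ := hpbex 2 K (BB 2 T) hBfg H.fracK (3 * b - 3) hn
  obtain ⟨π'', hπ'', hcomp⟩ := hpbsub 2 KA K KA.val.toRingHom hspK (3 * b - 3) t π t' π' hπ hπ'
  have hLA : LogTy 2 (π j0) := ⟨_, t, π, 1, hπ, one_ne_zero, fun x => by
    rw [inv_one, one_mul, one_mul]⟩
  have hL : LogTy 2 (π'' j0) := ⟨_, _, π'', 1, hπ'', one_ne_zero, fun x => by
    rw [inv_one, one_mul, one_mul]⟩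
  have hΦA : IsPinv 2 (π j0) := lt_pinv hLA
  have hΦ : IsPinv 2 (π'' j0) := lt_pinv hL
  refine ⟨KA, FA, inferInstance, inferInstance, inferInstance, inferInstance, algA, TA, ρA, f,
    KA.val.toRingHom, π j0, π'' j0, hΦA, hΦ, HA, fun w => rfl, hLA, hL, fun x => hcomp _ x, ?_⟩
  intro c hc MA M hMA hM ws gs hws hgs hsA hsB
  have halg : ∀ x : K, ∃ P : Polynomial KA, P ≠ 0 ∧
      Polynomial.eval₂ KA.val.toRingHom x P = 0 :=
    alg_of_trdeg KA.val.toRingHom (3 * b) (by rw [htKA]; push_cast; rfl)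
      (by rw [H.trK]; push_cast; rfl)
  refine FrNE.e45 hpro hproM hden hkf KA K KA.val.toRingHom (FreeGroup (Fin b)) Γ TA T f
    (fun w => rfl) hBA hBfg hfrK H.fracK halg ?_ ?_ (π j0) (π'' j0) hΦA hΦ
    (fun x => hcomp _ x) c MA M hMA hM ws gs hws hgs hsA hsB
  · intro n x
    obtain ⟨a, y', hy, hxy⟩ := hE1 n x
    refine ⟨(tra KA.val TA T' hTA).symm a, y', ?_, hxy⟩
    rw [hy]
    have h1 := tra_val KA.val TA T' hTA ((tra KA.val TA T' hTA).symm a)
    rw [AlgEquiv.apply_symm_apply] at h1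
    exact h1
  · intro n
    obtain ⟨N, hN⟩ := hE2 n
    refine ⟨N, fun a y hy hm => ?_⟩
    have h1 := hN (tra KA.val TA T' hTA a) y (hy.trans (tra_val KA.val TA T' hTA a).symm) hm
    have h2 := tra_symm_mem KA.val TA T' hTA n h1
    rwa [AlgEquiv.symm_apply_apply] at h2

end Pool.Agent.FrN
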