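import Pool.Agent.Lib.MP_305fdd_al.Fr.N.Hlp

/-!
# MP_305fdd_al, F_r project, section N: assembly of Theorem N'
-/

set_option autoImplicit false

namespace Pool.Agent.FrN

open Pool.Agent.F2Ch Pool.Agent.F2RF Pool.Agent.F2TF

/-- a nonzero submodule meets the ring -/
theorem exists_mem_ring {p : ℕ} {K : Type} [Field K] [Algebra (ZMod p) K]
    {B : Subalgebra (ZMod p) K} (hB : Frc B) {M : Submodule B K} (hM : M ≠ ⊥) :
    ∃ c ∈ B, c ≠ 0 ∧ c ∈ M := by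
  obtain ⟨x, hx, hx0⟩ := Submodule.exists_mem_ne_zero_of_ne_bot hM
  obtain ⟨a, ha, b, hb, hb0, h⟩ := hB x
  refine ⟨a, ha, ?_, ?_⟩
  · rw [← h]
    exact mul_ne_zero hx0 hb0
  · have h1 : a = (⟨b, hb⟩ : B) • x := by
      rw [← h, mul_comm]
      rfl
    rw [h1]
    exact M.smul_mem _ hx

theorem le_two_pow {i k k₀ : ℕ} (hk : 1 ≤ k) (h : k₀ * 2 ^ i ∣ k) : i + 1 ≤ k := by
  have h1 : 2 ^ i ∣ k := dvd_trans (dvd_mul_left _ _) h
  have h2 := Nat.le_of_dvd hk h1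
  have h3 : i < 2 ^ i := Nat.lt_two_pow_self
  omega

/-- THEOREM N' -/
theorem main_Np (hCD : I_CD) (hG : I_G) : I_Np := by
  intro b Γ K F _ _ _ _ _ _ T ρ hb H Φ hΦ g y z hy hz hy0 hyz
  have : CharP K 2 := by
    have := Algebra.charP_iff (ZMod 2) K 2
    exact this.mp (ZMod.charP 2)
  have h := lt_pinv hΦ
  have hg : T g ≠ 0 := by
    rintro h0
    apply hy0
    rw [hyz, h0, zero_mul]
  obtain ⟨Ng, S, h1, h2, -, -, -, h3⟩ := hCD b Γ K F T ρ hb H Φ hΦ h g hg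
  obtain ⟨⟨W, hW⟩, f, s, hf, hPF, hcnt⟩ := h3 ⟨y, hy⟩ (by
    intro h0
    exact hy0 (congrArg Subtype.val h0)) ⟨⟨z, hz⟩, hyz⟩
  obtain ⟨c, hcB, hc0, hcN⟩ := exists_mem_ring H.fracK h1
  rcases hG 2 K (toEnd h) ((loc ⟨y, hy⟩ Ng).restrictScalars (ZMod 2)) ⟨W, hW⟩ f s hf hPF with
    hn | ⟨d, k₀, hd, hk₀, hs⟩
  · left
    refine ⟨c, hcB, hc0, fun β hβ a => ?_⟩
    have hmem : c * (β / y ^ a) ∈ loc ⟨y, hy⟩ Ng := by
      have h4 : c * (β / y ^ a) = (⟨β, hβ⟩ : BB 2 T) • (c / ((⟨y, hy⟩ : BB 2 T) : K) ^ a) := by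
        change c * (β / y ^ a) = β * (c / y ^ a)
        ring
      rw [h4]
      exact Submodule.smul_mem _ _ (mem_loc_div hy0 hcN a)
    obtain ⟨e, he⟩ := hn _ hmem
    exact ⟨e, by rw [← toEnd_pow h]; exact he⟩
  · right
    refine ⟨d, k₀, hd, hk₀, fun i k hk hik => ?_⟩
    obtain ⟨a, ha⟩ := hcnt k hk
    obtain ⟨t, ht⟩ := hs i k hk hik
    have hle := le_two_pow hk hik
    refine ⟨a * 2 ^ (k - (i + 1)) + sgn b * t, ?_⟩
    change (cnt (K := K) ρ y k : ℤ) = _ at ha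
    rw [ha]
    have h5 : (2 : ℤ) ^ k = 2 ^ (i + 1) * 2 ^ (k - (i + 1)) := by
      rw [← pow_add]
      congr 1
      omega
    have h6 : s k = d + 2 ^ (i + 1) * t := by
      have : ((2 : ℕ) : ℤ) ^ (i + 1) = 2 ^ (i + 1) := by norm_num
      rw [this] at ht
      linarith
    rw [h6]
    congr 1
    rw [h5]
    ring

end Pool.Agent.FrN
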