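import Pool.Agent.Lib.MP_305fdd_al.Fr.N.Main4
import Pool.Agent.Lib.MP_305fdd_al.Fr.N.MainP
import Pool.Agent.Lib.MP_305fdd_al.Fr.N.MainE
import Pool.Agent.Lib.MP_305fdd_al.Fr.N.A.Main
import Pool.Agent.Lib.MP_305fdd_al.Fr.N.B.T
import Pool.Agent.Lib.MP_305fdd_al.Fr.N.F.Main
import Pool.Agent.Lib.MP_305fdd_al.Fr.N.I_bij
import Pool.Agent.Lib.MP_305fdd_al.Fr.N.I_uni
import Pool.Agent.Lib.MP_305fdd_al.Fr.N.I_free
import Pool.Agent.Lib.MP_305fdd_al.Fr.N.J_gi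
import Pool.Agent.Lib.MP_305fdd_al.Fr.N.J_lft
import Pool.Agent.Lib.MP_305fdd_al.Fr.N.J_pbex
import Pool.Agent.Lib.MP_305fdd_al.Fr.N.J_pbsub
import Pool.Agent.Lib.MP_305fdd_al.Fr.N.J_pts
import Pool.Agent.Lib.MP_305fdd_al.Fr.N.J_trge
import Pool.Agent.Lib.MP_305fdd_al.Fr.N.E.p_b0
import Pool.Agent.Lib.MP_305fdd_al.Fr.N.E.p_bas
import Pool.Agent.Lib.MP_305fdd_al.Fr.N.E.p_bur
import Pool.Agent.Lib.MP_305fdd_al.Fr.N.E.p_cc
import Pool.Agent.Lib.MP_305fdd_al.Fr.N.E.p_chart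
import Pool.Agent.Lib.MP_305fdd_al.Fr.N.E.p_den
import Pool.Agent.Lib.MP_305fdd_al.Fr.N.E.p_e1
import Pool.Agent.Lib.MP_305fdd_al.Fr.N.E.p_e1f
import Pool.Agent.Lib.MP_305fdd_al.Fr.N.E.p_e2
import Pool.Agent.Lib.MP_305fdd_al.Fr.N.E.p_e2f
import Pool.Agent.Lib.MP_305fdd_al.Fr.N.E.p_e3
import Pool.Agent.Lib.MP_305fdd_al.Fr.N.E.p_fq
import Pool.Agent.Lib.MP_305fdd_al.Fr.N.E.p_hch
import Pool.Agent.Lib.MP_305fdd_al.Fr.N.E.p_k2
import Pool.Agent.Lib.MP_305fdd_al.Fr.N.E.p_kp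
import Pool.Agent.Lib.MP_305fdd_al.Fr.N.E.p_pro
import Pool.Agent.Lib.MP_305fdd_al.Fr.N.E.p_proM
import Pool.Agent.Lib.MP_305fdd_al.Fr.N.E.p_prob
import Pool.Agent.Lib.MP_305fdd_al.Fr.N.E.p_prok
import Pool.Agent.Lib.MP_305fdd_al.Fr.N.E.p_sq
import Pool.Agent.Lib.MP_305fdd_al.Fr.N.E.p_tri

/-!
# MP_305fdd_al, F_r project, section N: the theorems N and N', from the last open pieces
-/

set_option autoImplicit false

namespace Pool.Agent.FrN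

open Pool.Agent.FrNE

theorem t_e1 : S_e1 := p_e1 p_bur p_fq

theorem t_e1f : S_e1f := p_e1f t_e1 p_bas

theorem t_e2 : S_e2 := p_e2 p_cc p_sq p_tri

theorem t_kp : S_kp := p_kp FrNA.t_nuc FrNA.t_ex FrNA.t_nil FrNA.t_kos

theorem t_pro : S_pro := p_pro p_prok (p_prob FrNA.t_nuc FrNA.t_ex FrNA.t_nil t_kp)

/-- section E from the three last pieces -/
theorem fin_E (hnn : S_nn) (hcot : S_cot) (hpar : S_par) : I_E :=
  main_E p_gi p_pbex p_pbsub (p_trge p_pbex) p_pts p_lft p_bas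
    (p_e3 p_bas hnn t_e1f p_k2 (p_hch p_bas hnn hcot)) t_e1f
    (p_e2f p_chart t_e2 hnn hpar) t_pro p_proM p_den FrNA.t_kf

/-- Theorem N' from section CD -/
theorem fin_Np (hCD : I_CD) : I_Np := main_Np hCD FrNA.t_G

/-- Theorem N from section CD and the three last pieces of section E -/
theorem fin_N (hCD : I_CD) (hnn : S_nn) (hcot : S_cot) (hpar : S_par) : I_N :=
  main_N hCD t_F (fin_E hnn hcot hpar) FrNA.t_G FrNA.t_hull FrNA.t_nucf FrNA.t_nil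
    FrNA.t_one FrNA.t_zero p_den p_bij p_uni p_free

end Pool.Agent.FrN
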