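import Pool.Agent.Lib.MP_305fdd_al.Fr.N.StmJ

/-!
# MP_305fdd_al, F_r project, section N, part J: piece `gi`
-/

set_option autoImplicit false

namespace Pool.Agent.FrN

/-- version for subgroups, by induction on the order -/
private theorem gi_aux (Γ : Type) [Group Γ] :
    ∀ (n : ℕ) (S : Subgroup (Γ →* Multiplicative (ZMod 2))), Nat.card S = 2 ^ n →
      ∃ g : Fin n → Γ, ∀ χ ∈ S, (∀ i, χ (g i) = 1) → χ = 1 := by
  intro n
  induction n with
  | zero =>
    intro S hS
    refine ⟨Fin.elim0, fun χ hχ _ => ?_⟩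
    have h1 : S = ⊥ := Subgroup.card_eq_one.1 (by simpa using hS)
    rw [h1] at hχ
    exact (Subgroup.mem_bot).1 hχ
  | succ n ih =>
    intro S hS
    have hne : S ≠ ⊥ := by
      intro h
      rw [h] at hS
      have h1 : Nat.card (⊥ : Subgroup (Γ →* Multiplicative (ZMod 2))) = 1 := by simp
      rw [h1] at hS
      have : (1 : ℕ) < 2 ^ (n + 1) := Nat.one_lt_two_pow (by omega)
      omega
    obtain ⟨χ0, hχ0, hχ1⟩ := (Subgroup.ne_bot_iff_exists_ne_one.1 hne) |>.elim
      (fun a ha => (⟨a.1, a.2, fun h => ha (Subtype.ext h)⟩ :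
        ∃ χ : Γ →* Multiplicative (ZMod 2), ∃ _ : χ ∈ S, χ ≠ 1))
    obtain ⟨g0, hg0⟩ : ∃ g0, χ0 g0 ≠ 1 := by
      by_contra hcon
      push Not at hcon
      exact hχ1 (MonoidHom.ext (fun x => by simpa using hcon x))
    let ev : (Γ →* Multiplicative (ZMod 2)) →* Multiplicative (ZMod 2) := MonoidHom.eval g0
    have hev : ∀ χ, ev χ = χ g0 := fun χ => rfl
    have hcard : Nat.card (S.map ev) = 2 := by
      have h2 : Nat.card (Multiplicative (ZMod 2)) = 2 := by
        rw [Nat.card_eq_fintype_card, Fintype.card_multiplicative, ZMod.card]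
      have hdvd : Nat.card (S.map ev) ∣ 2 := by
        have := Subgroup.card_subgroup_dvd_card (S.map ev)
        rwa [h2] at this
      rcases (Nat.dvd_prime Nat.prime_two).1 hdvd with h | h
      · exfalso
        have hb : S.map ev = ⊥ := Subgroup.card_eq_one.1 h
        have hm : ev χ0 ∈ S.map ev := Subgroup.mem_map_of_mem ev hχ0
        rw [hb, Subgroup.mem_bot] at hm
        exact hg0 hm
      · exact h
    have hS' : Nat.card (ev.ker ⊓ S : Subgroup (Γ →* Multiplicative (ZMod 2))) = 2 ^ n := by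
      have h1 : (ev.ker ⊓ S).relIndex S = 2 := by
        rw [Subgroup.inf_relIndex_right, Subgroup.relIndex_ker, hcard]
      have h2 := Subgroup.relIndex_mul_relIndex ⊥ (ev.ker ⊓ S) S bot_le inf_le_right
      rw [Subgroup.relIndex_bot_left, Subgroup.relIndex_bot_left, h1, hS, pow_succ] at h2
      omega
    obtain ⟨g, hg⟩ := ih _ hS'
    refine ⟨Fin.cons g0 g, fun χ hχ h => ?_⟩
    have h0 : χ g0 = 1 := by simpa using h 0
    exact hg χ ⟨h0, hχ⟩ (fun i => by simpa using h i.succ)

theorem p_gi : S_gi := by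
  intro Γ _ b hb
  obtain ⟨g, hg⟩ := gi_aux Γ b ⊤ (by rw [← hb]; exact Nat.card_congr Subgroup.topEquiv.toEquiv)
  exact ⟨g, fun χ h => hg χ (Subgroup.mem_top χ) h⟩

end Pool.Agent.FrN
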