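import Pool.Agent.Lib.MP_305fdd_al.Fr.N.Int

/-!
# MP_305fdd_al, F_r project, section N, part I: small pieces for the assembly of Theorem N

Every `def S_xx : Prop` is one independent piece; its docstring contains the complete proof.
-/

set_option autoImplicit false

namespace Pool.Agent.FrN

open Pool.Agent.F2Ch Pool.Agent.F2RF Pool.Agent.F2TF

/-- [FrN I bij] (about 80 lines) The points of `O` are the representations of `Γ`.
Proof. For `φ : OO p ρ →ₐ[ZMod p] κ` let `ρ' : Γ →* SL(2, OO p ρ)` be `ρ` with its entries considered in `OO p ρ`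
(the determinant is `1` because `OO p ρ → F` is injective; the same for products) and `e φ = (SpecialLinearGroup.map φ).comp ρ'`.
Injective: `φ` is determined by its values on the generators `(ρ g).1 i j` of `OO p ρ`
(`Algebra.adjoin` induction / `AlgHom.ext_of_adjoin_eq_top` on the subtype).  Surjective: `HB.pts` and `ext`. -/
def S_bij : Prop :=
  ∀ (p : ℕ) [Fact p.Prime] (b : ℕ) (Γ K F : Type) [Group Γ] [Field K] [Field F]
    [Algebra (ZMod p) K] [Algebra (ZMod p) F] [Algebra K F] (T : Γ → K)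
    (ρ : Γ →* Matrix.SpecialLinearGroup (Fin 2) F), HB p b Γ K F T ρ →
    ∀ (κ : Type) [Field κ] [Finite κ] [Algebra (ZMod p) κ],
    ∃ e : (OO p ρ →ₐ[ZMod p] κ) ≃ (Γ →* Matrix.SpecialLinearGroup (Fin 2) κ),
      ∀ φ g i j, (e φ g).1 i j = φ ⟨(ρ g).1 i j, mem_OO ρ g i j⟩

/-- [FrN I uni] (about 200 lines) The number of the representations into unipotent groups, characteristic `2`.
Proof. `κ` a finite field with `q` elements, characteristic `2`; `q = 2 ^ k`.  In characteristic `2` a matrix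
`x ∈ SL_2(κ)` with trace `0` satisfies `x ^ 2 = (tr x) x + 1 = 1`, i.e. `(x - 1) ^ 2 = 0`.  Let `r : Γ → SL_2(κ)` with all traces
`0`.  Then `r(Γ)` has exponent `2`, so it is commutative.  For `x ≠ 1` with `(x - 1) ^ 2 = 0` the kernel of `x - 1` is a
line `ℓ(x)`, and the elements of trace `0` which commute with `x` are exactly the elements of
`U_ℓ = {u | (u - 1) = 0 on ℓ, u = 1 on κ² / ℓ}` with `ℓ = ℓ(x)` (in a basis with `x = [[1, a], [0, 1]]`, `a ≠ 0`, the
centraliser is `{[[s, t], [0, s]] | s ^ 2 = 1}`, `s = 1`).  So either `r = 1`, or there is exactly one line `ℓ` with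
`r(Γ) ⊆ U_ℓ`.  There are `q + 1` lines, and `U_ℓ` is isomorphic to the additive group of `κ`, so
`|Hom(Γ, U_ℓ)| = |Hom(Γ, κ)| = |Hom(Γ, F_2)| ^ k = (2 ^ b) ^ k = q ^ b` (`κ` is a vector space of dimension `k` over `F_2`).
The number is `1 + (q + 1) (q ^ b - 1)`.  (Equivalent bookkeeping: the nontrivial `r` are in bijection with the pairs
of a line and a nontrivial homomorphism `Γ → κ`; the line `ℓ` is `span (1, s)`, `s ∈ κ`, or `span (0, 1)`; for
`v = (v_0, v_1)` the map `a ↦ 1 + a v v^⊥`, `v v^⊥ = [[v_0 v_1, v_0 ^ 2], [v_1 ^ 2, v_0 v_1]]`.) -/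
def S_uni : Prop :=
  ∀ (Γ : Type) [Group Γ] [Group.FG Γ] (b k : ℕ) (κ : Type) [Field κ] [Finite κ] [CharP κ 2],
    Nat.card (Γ →* Multiplicative (ZMod 2)) = 2 ^ b → 1 ≤ k → Nat.card κ = 2 ^ k →
    Nat.card {r : Γ →* Matrix.SpecialLinearGroup (Fin 2) κ // ∀ g, (r g).1.trace = 0} =
      1 + (2 ^ k + 1) * ((2 ^ k) ^ b - 1)

/-- [FrN I free] (about 80 lines) The number of the representations of the free group.
Proof. `FreeGroup.lift` : the homomorphisms are in bijection with `Fin b → SL_2(κ)`; `|SL_2(κ)| = q ^ 3 - q`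
(`Matrix.card_GL_field` and the determinant `GL_2 → κˣ`, or count directly: `a ≠ 0`: `d` is determined by `b, c`;
`a = 0`: `b c = -1`, `d` arbitrary). -/
def S_free : Prop :=
  ∀ (b k : ℕ) (κ : Type) [Field κ] [Finite κ] [CharP κ 2], 1 ≤ k → Nat.card κ = 2 ^ k →
    Nat.card (FreeGroup (Fin b) →* Matrix.SpecialLinearGroup (Fin 2) κ) =
      ((2 ^ k) ^ 3 - 2 ^ k) ^ b

end Pool.Agent.FrN
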