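import Pool.Agent.Lib.MP_305fdd_al.Fr.N.MainP
import Pool.Agent.Lib.MP_305fdd_al.Fr.N.StmI
import Pool.Agent.Lib.MP_305fdd_al.F2.TF.P.b8

/-!
# MP_305fdd_al, F_r project, section N: assembly of Theorem N
-/

set_option autoImplicit false

namespace Pool.Agent.FrN

open Pool.Agent.F2Ch Pool.Agent.F2RF Pool.Agent.F2TF

/-! ## Logarithmic derivatives -/

theorem ld_one : LD (((1 : (PowerSeries ℤ)ˣ) : (PowerSeries ℤ)ˣ) : PowerSeries ℤ)
    (fun _ => (0 : ℤ)) := by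
  rw [ld_iff]
  refine ⟨by simp, ?_⟩
  rw [Units.val_one, Derivation.map_one_eq_zero]
  have : (PowerSeries.mk fun _ : ℕ => (0 : ℤ)) = 0 := by
    ext n
    simp
  rw [this]
  simp

theorem ld_mul {f g : (PowerSeries ℤ)ˣ} {s t : ℕ → ℤ} (hf : LD (f : PowerSeries ℤ) s)
    (hg : LD (g : PowerSeries ℤ) t) :
    LD ((f * g : (PowerSeries ℤ)ˣ) : PowerSeries ℤ) (fun k => s k + t k) := by
  rw [Units.val_mul]
  exact p_ld.1 ℤ _ _ s t hf hg

theorem ld_inv {f : (PowerSeries ℤ)ˣ} {s : ℕ → ℤ} (hf : LD (f : PowerSeries ℤ) s) :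
    LD ((f⁻¹ : (PowerSeries ℤ)ˣ) : PowerSeries ℤ) (fun k => - s k) := by
  rw [ld_iff] at hf ⊢
  obtain ⟨h1, h2⟩ := hf
  have h3 : (f : PowerSeries ℤ) * ((f⁻¹ : (PowerSeries ℤ)ˣ) : PowerSeries ℤ) = 1 := f.mul_inv
  constructor
  · have h4 := congrArg PowerSeries.constantCoeff h3
    rw [map_mul, map_one] at h4
    rw [PowerSeries.coeff_zero_eq_constantCoeff] at h1 ⊢
    rwa [h1, one_mul] at h4
  · have h5 := congrArg (PowerSeries.derivative ℤ) h3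
    rw [Derivation.leibniz, Derivation.map_one_eq_zero, h2, smul_eq_mul, smul_eq_mul] at h5
    have h6 : (PowerSeries.mk fun n => - s (n + 1)) = - PowerSeries.mk (fun n => s (n + 1)) := by
      ext n
      simp
    rw [h6]
    linear_combination (((f⁻¹ : (PowerSeries ℤ)ˣ) : PowerSeries ℤ)) * h5 +
      (- PowerSeries.derivative ℤ ((f⁻¹ : (PowerSeries ℤ)ˣ) : PowerSeries ℤ) +
        (PowerSeries.mk fun n => s (n + 1)) * ((f⁻¹ : (PowerSeries ℤ)ˣ) : PowerSeries ℤ)) * h3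

/-! ## The nonvanishing sets -/

section V

variable {b : ℕ} {Γ K F : Type} [Group Γ] [Field K] [Field F] [Algebra (ZMod 2) K]
  [Algebra (ZMod 2) F] [Algebra K F] {T : Γ → K} {ρ : Γ →* Matrix.SpecialLinearGroup (Fin 2) F}

theorem BB_le (H : HB 2 b Γ K F T ρ) {y : K} (hy : y ∈ BB 2 T) : algebraMap K F y ∈ OO 2 ρ := by
  induction hy using Algebra.adjoin_induction with
  | mem x hx =>
    obtain ⟨g, rfl⟩ := hx
    rw [← H.tr, Matrix.trace_fin_two]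
    exact add_mem (mem_OO ρ g 0 0) (mem_OO ρ g 1 1)
  | algebraMap r =>
    have : algebraMap K F (algebraMap (ZMod 2) K r) = algebraMap (ZMod 2) F r := by
      have h1 : (algebraMap K F).comp (algebraMap (ZMod 2) K) = algebraMap (ZMod 2) F :=
        Subsingleton.elim _ _
      exact congrArg (fun φ : ZMod 2 →+* F => φ r) h1
    rw [this]
    exact (OO 2 ρ).algebraMap_mem r
  | add x y _ _ hx hy => rw [map_add]; exact add_mem hx hy
  | mul x y _ _ hx hy => rw [map_mul]; exact mul_mem hx hy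

/-- the set of the points where `y` does not vanish -/
def VV (ρ : Γ →* Matrix.SpecialLinearGroup (Fin 2) F) (κ : Type) [Field κ] [Algebra (ZMod 2) κ]
    (y : K) : Set (OO 2 ρ →ₐ[ZMod 2] κ) :=
  {φ | ∃ h : algebraMap K F y ∈ OO 2 ρ, φ ⟨_, h⟩ ≠ 0}

theorem cnt_eq (ρ : Γ →* Matrix.SpecialLinearGroup (Fin 2) F) (y : K) (k : ℕ) :
    cnt ρ y k = (VV ρ (GaloisField 2 k) y).ncard := rfl

theorem mem_VV (H : HB 2 b Γ K F T ρ) {κ : Type} [Field κ] [Algebra (ZMod 2) κ] {y : K}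
    (hy : y ∈ BB 2 T) (φ : OO 2 ρ →ₐ[ZMod 2] κ) :
    φ ∈ VV ρ κ y ↔ φ ⟨algebraMap K F y, BB_le H hy⟩ ≠ 0 :=
  ⟨fun ⟨_, h⟩ => h, fun h => ⟨_, h⟩⟩

theorem VV_mul (H : HB 2 b Γ K F T ρ) (κ : Type) [Field κ] [Algebra (ZMod 2) κ] {y z : K}
    (hy : y ∈ BB 2 T) (hz : z ∈ BB 2 T) : VV ρ κ (y * z) = VV ρ κ y ∩ VV ρ κ z := by
  ext φ
  rw [Set.mem_inter_iff, mem_VV H hy, mem_VV H hz, mem_VV H (mul_mem hy hz), ← mul_ne_zero_iff,
    ← map_mul]
  have : (⟨algebraMap K F (y * z), BB_le H (mul_mem hy hz)⟩ : OO 2 ρ) =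
      ⟨algebraMap K F y, BB_le H hy⟩ * ⟨algebraMap K F z, BB_le H hz⟩ :=
    Subtype.ext (map_mul _ _ _)
  rw [this]

/-- the set of the points where some element of the list does not vanish -/
def WW (ρ : Γ →* Matrix.SpecialLinearGroup (Fin 2) F) (κ : Type) [Field κ] [Algebra (ZMod 2) κ]
    (gs : List (BB 2 T)) : Set (OO 2 ρ →ₐ[ZMod 2] κ) :=
  {φ | ∃ g ∈ gs, φ ∈ VV ρ κ (g : K)}

theorem WW_cons (ρ : Γ →* Matrix.SpecialLinearGroup (Fin 2) F) (κ : Type) [Field κ]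
    [Algebra (ZMod 2) κ] (g : BB 2 T) (gs : List (BB 2 T)) :
    WW ρ κ (g :: gs) = VV ρ κ (g : K) ∪ WW ρ κ gs := by
  ext φ
  simp [WW]

/-- The main computation: inclusion and exclusion along a list. -/
theorem core (H : HB 2 b Γ K F T ρ) (hfin : ∀ k, Finite (OO 2 ρ →ₐ[ZMod 2] GaloisField 2 k))
    {Φ : K → K} (h : IsPinv 2 Φ) (M : Submodule (BB 2 T) K) (gs : List (BB 2 T))
    (hg0 : ∀ g ∈ gs, g ≠ 0)
    (hH : ∀ g ∈ gs, ∀ y : BB 2 T, y ≠ 0 → (∃ z, y = g * z) →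
      ∃ (f : (PowerSeries ℤ)ˣ) (s : ℕ → ℤ), LD (f : PowerSeries ℤ) s ∧
        PF h (loc y M) = red 2 f ∧ ∀ k, 1 ≤ k → ∃ a : ℤ,
          ((VV ρ (GaloisField 2 k) (y : K)).ncard : ℤ) = 2 ^ k * (2 ^ k * a + sgn b * s k)) :
    ∀ y₀ : BB 2 T, y₀ ≠ 0 → ∃ (f : (PowerSeries ℤ)ˣ) (s : ℕ → ℤ), LD (f : PowerSeries ℤ) s ∧
      PF h (loc y₀ M) = KF h gs (loc y₀ M) * red 2 f ∧ ∀ k, 1 ≤ k → ∃ a : ℤ,
        ((VV ρ (GaloisField 2 k) (y₀ : K) ∩ WW ρ (GaloisField 2 k) gs).ncard : ℤ) =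
          2 ^ k * (2 ^ k * a + sgn b * s k) := by
  induction gs with
  | nil =>
    intro y₀ _
    refine ⟨1, fun _ => 0, ld_one, ?_, fun k _ => ⟨0, ?_⟩⟩
    · rw [map_one, mul_one]
      rfl
    · have : WW ρ (GaloisField 2 k) ([] : List (BB 2 T)) = ∅ := by
        ext φ
        simp [WW]
      rw [this, Set.inter_empty, Set.ncard_empty]
      simp
  | cons g gs ih =>
    intro y₀ hy₀
    have hg : g ≠ 0 := hg0 g List.mem_cons_self
    have hyg : y₀ * g ≠ 0 := mul_ne_zero hy₀ hg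
    have ih' := ih (fun g' hg' => hg0 g' (List.mem_cons_of_mem _ hg'))
      (fun g' hg' => hH g' (List.mem_cons_of_mem _ hg'))
    obtain ⟨f₁, s₁, hf₁, hP₁, hc₁⟩ := ih' y₀ hy₀
    obtain ⟨f₂, s₂, hf₂, hP₂, hc₂⟩ := ih' (y₀ * g) hyg
    obtain ⟨f₃, s₃, hf₃, hP₃, hc₃⟩ := hH g List.mem_cons_self (y₀ * g) hyg ⟨y₀, mul_comm _ _⟩
    refine ⟨f₁ * (f₃ * f₂⁻¹), fun k => s₁ k + (s₃ k + - s₂ k), ld_mul hf₁ (ld_mul hf₃ (ld_inv hf₂)),
      ?_, fun k hk => ?_⟩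
    · have h1 : KF h (g :: gs) (loc y₀ M) = KF h gs (loc y₀ M) / KF h gs (loc (y₀ * g) M) := by
        rw [KF, loc_comm, loc_loc]
      rw [h1, map_mul, map_mul, map_inv, hP₁]
      have h2 : KF h gs (loc (y₀ * g) M) = red 2 f₃ * (red 2 f₂)⁻¹ := by
        rw [← hP₃, hP₂, mul_assoc, mul_inv_cancel, mul_one]
      rw [h2, mul_comm (red 2 f₁) (red 2 f₃ * (red 2 f₂)⁻¹), ← mul_assoc, div_mul_cancel]
    · obtain ⟨a₁, ha₁⟩ := hc₁ k hk
      obtain ⟨a₂, ha₂⟩ := hc₂ k hk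
      obtain ⟨a₃, ha₃⟩ := hc₃ k hk
      refine ⟨a₁ + (a₃ - a₂), ?_⟩
      have hf := hfin k
      set A := VV ρ (GaloisField 2 k) (y₀ : K) with hA
      set G := VV ρ (GaloisField 2 k) (g : K) with hG
      set W := WW ρ (GaloisField 2 k) gs with hW
      have h1 : VV ρ (GaloisField 2 k) ((y₀ * g : BB 2 T) : K) = A ∩ G :=
        VV_mul H _ y₀.2 g.2
      rw [h1] at ha₂ ha₃
      rw [WW_cons, ← hG, ← hW]
      have h2 : A ∩ (G ∪ W) = (A ∩ W) ∪ (A ∩ G) := by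
        rw [Set.inter_union_distrib_left, Set.union_comm]
      have h3 : (A ∩ W) ∩ (A ∩ G) = A ∩ G ∩ W := by
        ext φ
        simp only [Set.mem_inter_iff]
        tauto
      have h4 := Set.ncard_union_add_ncard_inter (A ∩ W) (A ∩ G)
      rw [h3] at h4
      rw [h2]
      have h5 : (((A ∩ W) ∪ (A ∩ G)).ncard : ℤ) =
          ((A ∩ W).ncard : ℤ) + ((A ∩ G).ncard : ℤ) - ((A ∩ G ∩ W).ncard : ℤ) := by
        have := congrArg (fun n : ℕ => (n : ℤ)) h4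
        push_cast at this
        linarith
      rw [h5, ha₁, ha₂, ha₃]
      ring

end V

end Pool.Agent.FrN
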