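import Pool.Agent.Lib.MP_305fdd_al.Fr.N.Main3

/-!
# MP_305fdd_al, F_r project, section N: assembly of Theorem N, part 4
-/

set_option autoImplicit false

namespace Pool.Agent.FrN

open Pool.Agent.F2Ch Pool.Agent.F2RF Pool.Agent.F2TF Pool.Agent.FrNE

/-- nilpotence on the hull -/
theorem nil_hull {K : Type} [Field K] [Algebra (ZMod 2) K] {B : Subalgebra (ZMod 2) K}
    {Φ : K → K} (h : IsPinv 2 Φ) {c : K} {M : Submodule B K} (hM : IsHull Φ c M)
    (hn : ∀ β ∈ B, ∃ e : ℕ, Φ^[e] (c * β) = 0) : ∀ x ∈ M, ∃ e : ℕ, Φ^[e] x = 0 := by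
  have h0 : Φ 0 = 0 := by
    have := h.add 0 0
    rw [add_zero] at this
    exact left_eq_add.mp this
  have hit0 : ∀ e : ℕ, Φ^[e] 0 = 0 := fun e => Function.iterate_fixed h0 e
  have hadd : ∀ (e : ℕ) (x y : K), Φ^[e] (x + y) = Φ^[e] x + Φ^[e] y := by
    intro e
    induction e with
    | zero => intro x y; rfl
    | succ e ih =>
      intro x y
      rw [Function.iterate_succ_apply, Function.iterate_succ_apply, Function.iterate_succ_apply,
        h.add, ih]
  have hle : ∀ (e e' : ℕ) (x : K), e ≤ e' → Φ^[e] x = 0 → Φ^[e'] x = 0 := by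
    intro e e' x he hx
    obtain ⟨r, rfl⟩ := Nat.exists_eq_add_of_le' he
    rw [Function.iterate_add_apply, hx, hit0]
  let Q : Submodule B K :=
    { carrier := {x | ∀ β ∈ B, ∃ e : ℕ, Φ^[e] (x * β) = 0}
      zero_mem' := fun β _ => ⟨0, by simp⟩
      add_mem' := by
        intro x y hx hy β hβ
        obtain ⟨e, he⟩ := hx β hβ
        obtain ⟨e', he'⟩ := hy β hβ
        refine ⟨max e e', ?_⟩
        rw [add_mul, hadd, hle e _ _ (le_max_left _ _) he, hle e' _ _ (le_max_right _ _) he',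
          add_zero]
      smul_mem' := by
        intro a x hx β hβ
        obtain ⟨e, he⟩ := hx (a * β) (mul_mem a.2 hβ)
        refine ⟨e, ?_⟩
        have : a • x * β = x * (a * β) := by
          change (a : K) * x * β = x * (a * β)
          ring
        rw [this]
        exact he }
  have h1 : M ≤ Q := by
    apply hM.min
    · intro x hx β hβ
      obtain ⟨e, he⟩ := hx (β ^ 2) (pow_mem hβ 2)
      rcases e with _ | e
      · refine ⟨0, ?_⟩
        have h2 : x * β ^ 2 = 0 := he
        have h3 : x * β = 0 := by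
          rcases mul_eq_zero.mp h2 with h4 | h4
          · rw [h4, zero_mul]
          · rw [pow_eq_zero_iff two_ne_zero] at h4
            rw [h4, mul_zero]
        change Φ x * β = 0
        rcases mul_eq_zero.mp h3 with h4 | h4
        · rw [h4, h0, zero_mul]
        · rw [h4, mul_zero]
      · refine ⟨e, ?_⟩
        rw [Function.iterate_succ_apply, mul_comm x, h.pow_mul] at he
        rw [mul_comm]
        exact he
    · exact fun β hβ => hn β hβ
  intro x hx
  obtain ⟨e, he⟩ := h1 hx 1 (one_mem _)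
  exact ⟨e, by rwa [mul_one] at he⟩

/-- THEOREM N -/
theorem main_N (hCD : I_CD) (hF : I_F) (hE : I_E) (hG : I_G) (hhull : I_hull)
    (hnucf : I_nucf) (hnil : I_nil) (hone : I_one) (hzero : I_zero) (hden : S_den)
    (hbij : S_bij) (huni : S_uni) (hfree : S_free) : I_N := by
  intro b Γ K F _ _ _ _ _ _ T ρ hb H Φ' hΦ' y e hy0 he
  have hc2 : CharP K 2 := charP_two K
  obtain ⟨KA, FA, _, _, _, _, _, TA, ρA, f, j, ΦA, Φ, hA, h, HA, hjT, hΦA, hΦ, hcomm, hKF⟩ :=
    hE b Γ K F T ρ hb H
  have hBfg := H.BB_fg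
  have hAfg := HA.BB_fg
  have hjB : ∀ a ∈ BB 2 TA, j a ∈ BB 2 T := by
    intro a ha
    induction ha using Algebra.adjoin_induction with
    | mem x hx =>
      obtain ⟨w, rfl⟩ := hx
      rw [hjT]
      exact Algebra.subset_adjoin ⟨_, rfl⟩
    | algebraMap r =>
      have h1 : j.comp (algebraMap (ZMod 2) KA) = algebraMap (ZMod 2) K := Subsingleton.elim _ _
      have h2 : j (algebraMap (ZMod 2) KA r) = algebraMap (ZMod 2) K r :=
        congrArg (fun φ : ZMod 2 →+* K => φ r) h1
      rw [h2]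
      exact (BB 2 T).algebraMap_mem r
    | add x y _ _ hx hy => rw [map_add]; exact add_mem hx hy
    | mul x y _ _ hx hy => rw [map_mul]; exact mul_mem hx hy
  -- the lists
  obtain ⟨ws, hws0, hws⟩ := exists_gen HA
  obtain ⟨gs, hgs0, hgs⟩ := exists_gen H
  have hfw0 : ∀ w ∈ ws, T (f w) ≠ 0 := by
    intro w hw h0
    apply hws0 w hw
    apply j.injective
    rw [hjT, h0, map_zero]
  set L : List Γ := ws.map f ++ gs with hL
  have hL0 : ∀ g ∈ L, T g ≠ 0 := by
    intro g hg
    rcases List.mem_append.mp hg with hg | hg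
    · obtain ⟨w, hw, rfl⟩ := List.mem_map.mp hg
      exact hfw0 w hw
    · exact hgs0 g hg
  have hLs : Ideal.span {y | y ∈ L.map (bT 2 T)} = mI T := by
    apply le_antisymm
    · refine Ideal.span_le.mpr ?_
      intro y hy
      obtain ⟨x, _, rfl⟩ := List.mem_map.mp hy
      exact Ideal.subset_span ⟨x, rfl⟩
    · rw [← hgs]
      refine Ideal.span_mono ?_
      intro y hy
      obtain ⟨x, hx, rfl⟩ := List.mem_map.mp hy
      exact List.mem_map.mpr ⟨x, List.mem_append_right _ hx, rfl⟩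
  -- the data at the elements of the lists
  choose! NA hNA0 hNA using fun w (hw : TA w ≠ 0) => cd_data hCD hb HA hΦA hA w hw
  choose! NB hNB0 hNB using fun g (hg : T g ≠ 0) => cd_data hCD hb H hΦ h g hg
  obtain ⟨cF, hcF, hcF0, hcFn⟩ := hF b KA FA TA ρA hb HA ΦA hΦA
  obtain ⟨c, hc0, hc⟩ := exists_common (A := BB 2 TA)
    ((fun c => ∃ a : BB 2 TA, (c : KA) = cF * a) ::
      (ws.map (fun w (c : BB 2 TA) => (c : KA) ∈ NA w) ++
        L.map (fun g (c : BB 2 TA) => j c ∈ NB g)))
    (by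
      intro P hP c a hPc
      rcases List.mem_cons.mp hP with rfl | hP
      · obtain ⟨a', ha'⟩ := hPc
        refine ⟨a * a', ?_⟩
        change (a : KA) * c = cF * (a * a')
        rw [ha']
        ring
      · rcases List.mem_append.mp hP with hP | hP
        · obtain ⟨w, hw, rfl⟩ := List.mem_map.mp hP
          exact (NA w).smul_mem a hPc
        · obtain ⟨g, hg, rfl⟩ := List.mem_map.mp hP
          change j ((a : KA) * c) ∈ NB g
          rw [map_mul]
          exact (NB g).smul_mem ⟨j a, hjB a a.2⟩ hPc)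
    (by
      intro P hP
      rcases List.mem_cons.mp hP with rfl | hP
      · exact ⟨⟨cF, hcF⟩, fun h0 => hcF0 (congrArg Subtype.val h0), 1, by
          change cF = cF * 1
          rw [mul_one]⟩
      · rcases List.mem_append.mp hP with hP | hP
        · obtain ⟨w, hw, rfl⟩ := List.mem_map.mp hP
          obtain ⟨x, hx, hx0, hxN⟩ := exists_mem_ring HA.fracK (hNA0 w (hws0 w hw))
          exact ⟨⟨x, hx⟩, fun h0 => hx0 (congrArg Subtype.val h0), hxN⟩
        · obtain ⟨g, hg, rfl⟩ := List.mem_map.mp hP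
          obtain ⟨x, hx, hx0⟩ := Submodule.exists_mem_ne_zero_of_ne_bot (hNB0 g (hL0 g hg))
          obtain ⟨a, ha0, -, ha⟩ := hden 2 KA K j (BB 2 TA) (BB 2 T) HA.fracK H.fracK hjB
            (alg_of_trdeg j (3 * b) (by exact_mod_cast HA.trK) (by exact_mod_cast H.trK))
            (⊥ : Submodule (BB 2 TA) KA) (Submodule.span (BB 2 T) {x⁻¹})
            Submodule.fg_bot (Submodule.fg_span_singleton _)
          refine ⟨a, ha0, ?_⟩
          have h1 := ha x⁻¹ (Submodule.subset_span rfl)
          have h2 : j a = (⟨j a * x⁻¹, h1⟩ : BB 2 T) • x := by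
            change j a = j a * x⁻¹ * x
            rw [mul_assoc, inv_mul_cancel₀ hx0, mul_one]
          change j a ∈ NB g
          rw [h2]
          exact (NB g).smul_mem _ hx)
  have hcF' : ∃ a : BB 2 TA, (c : KA) = cF * a := hc _ List.mem_cons_self
  have hcA : ∀ w ∈ ws, (c : KA) ∈ NA w := fun w hw =>
    hc _ (List.mem_cons_of_mem _ (List.mem_append_left _ (List.mem_map.mpr ⟨w, hw, rfl⟩)))
  have hcB : ∀ g ∈ L, j c ∈ NB g := fun g hg =>
    hc _ (List.mem_cons_of_mem _ (List.mem_append_right _ (List.mem_map.mpr ⟨g, hg, rfl⟩)))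
  have hcK0 : (c : KA) ≠ 0 := fun h0 => hc0 (Subtype.ext h0)
  have hjc0 : j c ≠ 0 := by
    rw [Ne, map_eq_zero]
    exact hcK0
  -- the hulls
  obtain ⟨MA, hMA⟩ := hhull 2 KA (BB 2 TA) hAfg HA.fracK ΦA hA c
  obtain ⟨M, hM⟩ := hhull 2 K (BB 2 T) hBfg H.fracK Φ h (j c)
  have hEK := hKF c hcK0 MA M hMA hM ws gs hws0 hgs0 hws hLs
  rw [← hL] at hEK
  -- the free group
  have hnilA : PF hA MA = 1 := by
    have h1 : ∀ x ∈ MA, ∃ e : ℕ, ΦA^[e] x = 0 := by
      apply nil_hull hA hMA
      intro β hβ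
      obtain ⟨a, ha⟩ := hcF'
      rw [ha, mul_assoc]
      exact hcFn _ (mul_mem a.2 hβ)
    obtain ⟨W, hW⟩ := hnucf 2 KA (BB 2 TA) hAfg ΦA hA MA hMA.stb hMA.fg 1 one_ne_zero
    rw [loc_one] at hW
    refine (hnil (ZMod 2) KA (toEnd hA) _ ⟨W, hW⟩).mp ?_
    intro v hv
    obtain ⟨e, he⟩ := h1 v hv
    exact ⟨e, by rw [toEnd_pow]; exact he⟩
  have hcoreA := core HA (finite_pts hbij HA) hA MA (ws.map (bT 2 TA))
    (by
      intro g hg h0
      obtain ⟨w, hw, rfl⟩ := List.mem_map.mp hg
      exact hws0 w hw (congrArg Subtype.val h0))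
    (by
      intro g hg y hy hyz
      obtain ⟨w, hw, rfl⟩ := List.mem_map.mp hg
      exact hNA w (hws0 w hw) c (hcA w hw) hcK0 MA hMA y hy hyz) 1 one_ne_zero
  obtain ⟨fA, sA, hfA, hPA, hcA'⟩ := hcoreA
  rw [loc_one, hnilA] at hPA
  have hcoreB := core H (finite_pts hbij H) h M (L.map (bT 2 T))
    (by
      intro g hg h0
      obtain ⟨w, hw, rfl⟩ := List.mem_map.mp hg
      exact hL0 w hw (congrArg Subtype.val h0))
    (by
      intro g hg y hy hyz
      obtain ⟨w, hw, rfl⟩ := List.mem_map.mp hg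
      exact hNB w (hL0 w hw) (j c) (hcB w hw) hjc0 M hM y hy hyz) y hy0
  obtain ⟨fB, sB, hfB, hPB, hcB'⟩ := hcoreB
  have hLne : ∀ y ∈ L.map (bT 2 T), y ≠ 0 := by
    intro g hg h0
    obtain ⟨w, hw, rfl⟩ := List.mem_map.mp hg
    exact hL0 w hw (congrArg Subtype.val h0)
  -- the polynomial and the sequence
  have key : ∃ (f : (PowerSeries ℤ)ˣ) (s : ℕ → ℤ), LD (f : PowerSeries ℤ) s ∧
      PF h (loc y M) = red 2 f ∧ ∀ k, 1 ≤ k → ∃ a : ℤ,
        (cnt (K := K) ρ y k : ℤ) - e * ((2 ^ k) ^ 3 - 2 ^ k) ^ b =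
          2 ^ k * (2 ^ k * a + sgn b * s k) := by
    rcases he with ⟨⟨ψ, hψ, hψy⟩, rfl⟩ | ⟨hne, rfl⟩
    · -- `y` does not vanish at the trivial point
      refine ⟨fA⁻¹ * fB, fun k => - sA k + sB k, ld_mul (ld_inv hfA) hfB, ?_, fun k hk => ?_⟩
      · have h1 : KF h (y :: L.map (bT 2 T)) M = 1 := by
          refine hone 2 K (BB 2 T) hBfg Φ h M hM.stb hM.fg _ ?_ ?_
          · intro z hz
            rcases List.mem_cons.mp hz with rfl | hz
            · exact hy0
            · exact hLne z hz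
          · rw [Ideal.eq_top_iff_one]
            have h2 := aug_mem ψ hψ y
            have h3 : ψ y = 1 := by
              have : ∀ z : ZMod 2, z ≠ 0 → z = 1 := by decide
              exact this _ hψy
            rw [h3, map_one] at h2
            have h4 : mI T ≤ Ideal.span {z | z ∈ y :: L.map (bT 2 T)} := by
              rw [← hLs]
              exact Ideal.span_mono fun z hz => List.mem_cons_of_mem _ hz
            have h5 : y ∈ Ideal.span {z | z ∈ y :: L.map (bT 2 T)} :=
              Ideal.subset_span List.mem_cons_self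
            have h6 : (1 : BB 2 T) = y - (y - 1) := by ring
            rw [h6]
            exact sub_mem h5 (h4 h2)
        rw [KF, div_eq_one] at h1
        rw [hPB, ← h1, hEK, map_mul, map_inv]
        congr 1
        exact eq_inv_of_mul_eq_one_left hPA.symm
      · obtain ⟨aA, haA⟩ := hcA' k hk
        obtain ⟨aB, haB⟩ := hcB' k hk
        refine ⟨aB - aA, ?_⟩
        have hfinA := finite_pts hbij HA k
        have hfinB := finite_pts hbij H k
        have huA := ncard_UU hbij huni HA k hk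
        have huB := ncard_UU hbij huni H k hk
        -- the free group
        have h1 : VV ρA (GaloisField 2 k) ((1 : BB 2 TA) : KA) ∩
            WW ρA (GaloisField 2 k) (ws.map (bT 2 TA)) = (UU HA k)ᶜ := by
          ext φ
          rw [Set.mem_inter_iff, Set.mem_compl_iff, ← not_mem_WW HA k ws hws, not_not, mem_VV' HA,
            map_one, map_one]
          simp
        have h2 : VV ρ (GaloisField 2 k) (y : K) ∩
            WW ρ (GaloisField 2 k) (L.map (bT 2 T)) = VV ρ (GaloisField 2 k) (y : K) \ UU H k := by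
          ext φ
          rw [Set.mem_inter_iff, Set.mem_sdiff, ← not_mem_WW H k L hLs, not_not]
        have h3 : UU H k ⊆ VV ρ (GaloisField 2 k) (y : K) := by
          intro φ hφ
          rw [mem_VV' H, val_UU H k hψ hφ]
          rw [Ne, map_eq_zero]
          exact hψy
        rw [h1] at haA
        rw [h2] at haB
        have h4 := Set.ncard_add_ncard_compl (UU HA k)
        have h5 := Set.ncard_sdiff_add_ncard_of_subset h3
        have h6 : Nat.card (OO 2 ρA →ₐ[ZMod 2] GaloisField 2 k) =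
            ((2 ^ k) ^ 3 - 2 ^ k) ^ b := by
          obtain ⟨e, -⟩ := hbij 2 b _ KA FA TA ρA HA (GaloisField 2 k)
          rw [Nat.card_congr e]
          exact hfree b k (GaloisField 2 k) hk (GaloisField.card 2 k (by omega))
        have h7 : (((2 ^ k) ^ 3 - 2 ^ k : ℕ) : ℤ) = (2 ^ k) ^ 3 - 2 ^ k := by
          rw [Nat.cast_sub (by
            calc 2 ^ k = (2 ^ k) ^ 1 := (pow_one _).symm
              _ ≤ (2 ^ k) ^ 3 := Nat.pow_le_pow_right (Nat.two_pow_pos k) (by norm_num))]
          push_cast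
          ring
        have h8 : (((2 : ℤ) ^ k) ^ 3 - 2 ^ k) ^ b =
            ((UU HA k).ncard : ℤ) + ((UU HA k)ᶜ.ncard : ℤ) := by
          rw [← h7, ← Nat.cast_pow, ← h6, ← h4]
          push_cast
          ring
        have h9 : (cnt (K := K) ρ y k : ℤ) =
            ((VV ρ (GaloisField 2 k) (y : K) \ UU H k).ncard : ℤ) + ((UU H k).ncard : ℤ) := by
          rw [cnt_eq, ← h5]
          push_cast
          ring
        rw [h8, h9, haA, haB, huA, huB]
        ring
    · -- `y` vanishes at the trivial point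
      refine ⟨fB, sB, hfB, ?_, fun k hk => ?_⟩
      · obtain ⟨ψ, hψ⟩ := exists_aug H
        have h1 : ψ y = 0 := by
          by_contra h0
          exact hne ⟨ψ, hψ, h0⟩
        have h2 := aug_mem ψ hψ y
        rw [h1, map_zero, sub_zero, ← hLs] at h2
        rw [hPB, hzero 2 K (BB 2 T) hBfg Φ h M hM.stb hM.fg _ y hLne hy0 h2, one_mul]
      · obtain ⟨aB, haB⟩ := hcB' k hk
        refine ⟨aB, ?_⟩
        have h2 : VV ρ (GaloisField 2 k) (y : K) ∩
            WW ρ (GaloisField 2 k) (L.map (bT 2 T)) = VV ρ (GaloisField 2 k) (y : K) := by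
          rw [Set.inter_eq_left]
          intro φ hφ
          by_contra h0
          rw [not_mem_WW H k L hLs] at h0
          obtain ⟨ψ, hψ⟩ := exists_aug H
          rw [mem_VV' H, val_UU H k hψ h0] at hφ
          apply hφ
          have h1 : ψ y = 0 := by
            by_contra h0
            exact hne ⟨ψ, hψ, h0⟩
          rw [h1, map_zero]
        rw [h2] at haB
        rw [cnt_eq, haB]
        ring
  obtain ⟨f', s, hf', hPf, hcnt⟩ := key
  obtain ⟨u, hu0, hu⟩ := lt_conj hΦ hΦ'
  rcases hG 2 K (toEnd h) ((loc y M).restrictScalars (ZMod 2))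
    (hnucf 2 K (BB 2 T) hBfg Φ h M hM.stb hM.fg y hy0) f' s hf' hPf with hn | ⟨d, k₀, hd, hk₀, hs⟩
  · left
    obtain ⟨a, ha, b', hb', hb0, hab⟩ := H.fracK u
    have ha0 : a ≠ 0 := by
      rw [← hab]
      exact mul_ne_zero hu0 hb0
    have hyK : (y : K) ≠ 0 := fun h0 => hy0 (Subtype.ext h0)
    refine ⟨j c * b', mul_mem (hjB c c.2) hb', mul_ne_zero hjc0 hb0, fun β hβ n => ?_⟩
    have hmem : j c * (a * β) / (y : K) ^ n ∈ loc y M := by
      have h4 : j c * (a * β) / (y : K) ^ n =
          (⟨a * β, mul_mem ha hβ⟩ : BB 2 T) • (j c / (y : K) ^ n) := by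
        change j c * (a * β) / (y : K) ^ n = (a * β) * (j c / (y : K) ^ n)
        ring
      rw [h4]
      exact Submodule.smul_mem _ _ (mem_loc_div hyK hM.mem n)
    obtain ⟨e', he'⟩ := hn _ hmem
    refine ⟨e', ?_⟩
    rw [iter_conj hu0 hu]
    have h5 : u * (j c * b' * (β / (y : K) ^ n)) = j c * (a * β) / (y : K) ^ n := by
      rw [← hab]
      ring
    rw [h5]
    have h6 : (toEnd h ^ e') (j c * (a * β) / (y : K) ^ n) = 0 := he'
    rw [toEnd_pow] at h6
    rw [h6, mul_zero]
  · right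
    refine ⟨d, k₀, hd, hk₀, fun i k hk hik => ?_⟩
    obtain ⟨a, ha⟩ := hcnt k hk
    obtain ⟨t, ht⟩ := hs i k hk hik
    have hle := le_two_pow hk hik
    refine ⟨a * 2 ^ (k - (i + 1)) + sgn b * t, ?_⟩
    rw [ha]
    have h5 : (2 : ℤ) ^ k = 2 ^ (i + 1) * 2 ^ (k - (i + 1)) := by
      rw [← pow_add]
      congr 1
      omega
    have h6 : s k = d + 2 ^ (i + 1) * t := by
      have : ((2 : ℕ) : ℤ) ^ (i + 1) = 2 ^ (i + 1) := by norm_num
      rw [this] at ht
      linarith
    rw [h6]
    congr 1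
    rw [h5]
    ring

end Pool.Agent.FrN
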