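import Pool.Agent.Lib.MP_305fdd_al.Fr.N.Int

/-!
# MP_305fdd_al, F_r project, section N, part J: `p`-bases, and the free group in the class `H(b)`

Every `def S_xx : Prop` is one independent piece; its docstring contains the complete proof.
-/

set_option autoImplicit false

namespace Pool.Agent.FrN

open Pool.Agent.F2Ch Pool.Agent.F2RF Pool.Agent.F2TF

/-- `K` is generated by the subfield (image of `KA`) over the subfield of `p`-th powers -/
def PSpan (p : ℕ) (KA K : Type) [Field KA] [Field K] (j : KA →+* K) : Prop :=
  ∀ x : K, ∃ (n : ℕ) (c : Fin n → K) (a : Fin n → KA), x = ∑ i, c i ^ p * j (a i)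

/-- [FrN J pbex] (about 60 lines) Existence of monomial `p`-bases.
Proof. SHORT: `F2Ch.t_B4` (on main, `F2/ChMain.lean`) for `k = ZMod p` gives `IsPB p b ρ` with `p ^ n` elements; `F2Ch` `S_C5` (`t_C5`) gives a
monomial basis of length `n`; then step (4) below.  DIRECT: `K` is the fraction field of the finitely generated algebra `B`, so `Algebra.EssFiniteType (ZMod p) K` (or
`IntermediateField.FG`), and `ZMod p` is perfect: Mathlib
`exists_isTranscendenceBasis_and_isSeparable_of_perfectField` gives a finite transcendence basis `s` (with `n` elements,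
`IsTranscendenceBasis.cardinalMk_eq_trdeg`...) such that `K` is separable algebraic over `L = F_p(s)`.  Enumerate `s = {s_1, .., s_n}`.
(1) The monomials `s^α`, `0 ≤ α_i < p`, are a basis of `L` over `L ^ p`: a polynomial over `F_p` is uniquely `∑ (f_α)^p X^α`
(`F2TF.comp`), and `a / b = a b^(p-1) / b^p`.
(2) They span `K` over `K ^ p`: for `x ∈ K`, `x` is separable over `L`, so `L(x) = L(x^p)` (`x` is separable and purely inseparable over
`L(x^p)`; Mathlib: `IntermediateField.adjoin_simple_eq_adjoin_pow_expChar_of_isSeparable`), so `x = ∑ l_i x^(p i)` with `l_i ∈ L`, and expand the `l_i` by (1).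
(3) They are independent over `K ^ p`: let `∑ c_α^p s^α = 0`, `c_α ∈ K`; the field `L(c_α, all α)` is finite separable over `L` of degree `m`
with basis `w_1, .., w_m`; by (2) for this field in place of `K` the `w_i^p` span it over `L` too (it is the span of the `l x^p`), so
they are a basis over `L`; `c_α = ∑ l_(α,i) w_i`, so `∑_i (∑_α l_(α,i)^p s^α) w_i^p = 0`, so `∑_α l_(α,i)^p s^α = 0` for every `i` and `l_(α,i) = 0` by (1).
(Or use linear disjointness / `F2Ch.t_B4`: `[K : K^p] = p^(trdeg)` is on main, then (2) and a count give independence.)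
(4) Replace `s_i = a_i / b_i` (`a_i, b_i ∈ B`, `b_i ≠ 0`) by `s_i b_i^p = a_i b_i^(p-1) ∈ B`: `F2RF.w9`, one index after the other. -/
def S_pbex : Prop :=
  ∀ (p : ℕ) [Fact p.Prime] (K : Type) [Field K] [CharP K p] [Algebra (ZMod p) K]
    (B : Subalgebra (ZMod p) K), B.FG → Frc B → ∀ n : ℕ, Algebra.trdeg (ZMod p) K = n →
    ∃ (t : Fin n → K) (π : (Fin n → Fin p) → K → K), (∀ i, t i ∈ B) ∧ MB p t π

/-- [FrN J pbsub] (about 100 lines) A `p`-basis of a subfield over which `K` is `p`-spanned.
Proof. The monomials in `j ∘ t` span `K` over `K ^ p`: `x = ∑ c_i^p j(a_i)` and `a_i = ∑ (π α a_i)^p monY t α`.  As there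
are `p ^ n = [K : K ^ p]` of them (`MB p t' π'`), they are a basis: over the field `Kp` of `p`-th powers, a spanning family with
`finrank` many members is linearly independent (`linearIndependent_of_top_le_span_of_card_eq_finrank`); then `F2Ch.S_B1`
(or directly) gives coordinates `π''`.  `π'' α (j x) = j (π α x)`: `j x = ∑ (j (π α x))^p monY (j ∘ t) α` and `IsPB.uniq`. -/
def S_pbsub : Prop :=
  ∀ (p : ℕ) [Fact p.Prime] (KA K : Type) [Field KA] [Field K] [CharP KA p] [CharP K p]
    (j : KA →+* K), PSpan p KA K j → ∀ (n : ℕ) (t : Fin n → KA)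
    (π : (Fin n → Fin p) → KA → KA) (t' : Fin n → K) (π' : (Fin n → Fin p) → K → K),
    MB p t π → MB p t' π' →
    ∃ π'' : (Fin n → Fin p) → K → K, MB p (fun i => j (t i)) π'' ∧ ∀ α x, π'' α (j x) = j (π α x)

/-- [FrN J trge] (about 60 lines) Transcendence degree of a subfield over which `K` is `p`-spanned. (Uses `S_pbex`.)
Proof. `m = trdeg KA ≤ n = trdeg K` (`j` is injective, `Algebra.trdeg` is monotone; both are finite).  `S_pbex` gives `MB p t π` on `KA`
with `m` elements and `MB p t' π'` on `K` with `n` elements.  The `p ^ m` monomials in `j ∘ t` span `K` over the subfield of the `p`-th powers (as in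
`S_pbsub`), whose `finrank` is `p ^ n`, so `p ^ n ≤ p ^ m` and `n ≤ m`. -/
def S_trge : Prop :=
  ∀ (p : ℕ) [Fact p.Prime] (KA K : Type) [Field KA] [Field K] [Algebra (ZMod p) KA]
    [Algebra (ZMod p) K] (j : KA →+* K), PSpan p KA K j →
    ∀ (A : Subalgebra (ZMod p) KA) (B : Subalgebra (ZMod p) K), A.FG → Frc A → B.FG → Frc B →
    ∀ n : ℕ, Algebra.trdeg (ZMod p) K = n → Algebra.trdeg (ZMod p) KA = n

/-- [FrN J gi] (about 100 lines) Elements which are independent modulo squares.
Proof. Let `H` be the finite group `Γ →* Multiplicative (ZMod 2)` (exponent `2`, `2 ^ b` elements), a vector space over `ZMod 2`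
of dimension `b` (`Additive H`).  Evaluation at `g ∈ Γ` is a linear form `ev g` on it.  The linear forms `ev g` span the dual
space: a vector `χ` on which all `ev g` vanish is trivial.  So there are `b` elements `g_1, .., g_b` with
`ev g_i` a basis of the dual space (a spanning set contains a basis).  If `χ (g_i) = 1` for all `i` then all linear forms
vanish at `χ` and `χ = 1`. -/
def S_gi : Prop :=
  ∀ (Γ : Type) [Group Γ] (b : ℕ), Nat.card (Γ →* Multiplicative (ZMod 2)) = 2 ^ b →
    ∃ g : Fin b → Γ, ∀ χ : Γ →* Multiplicative (ZMod 2), (∀ i, χ (g i) = 1) → χ = 1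

/-- [FrN J pts] (about 180 lines) Generic matrices specialise to all matrices.
Proof. Write `m i = [[a_i, b_i], [c_i, d_i]]`.  The field generated by all entries has transcendence degree `3 b` over `F_p`.
(1) `a_i ≠ 0` and the `3 b` elements `a_i, b_i, c_i` are algebraically independent.  If `a_i = 0` for some `i`, then
`b_i c_i = -1`, so the field is generated by the `4 b - 2` elements without `a_i, c_i`, and for `i' ≠ i` one of the entries of `m i'` is a rational
function of the three others (one of `a, b` is not zero), so it is generated by at most `3 (b - 1) + 2` elements, and its transcendence degree is at most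
`3 b - 1`: a contradiction.  So `d_i = (1 + b_i c_i) / a_i` and the field is generated by the `3 b` elements
`a_i, b_i, c_i`; as its transcendence degree is `3 b` they are algebraically independent
(a transcendence basis contained in a generating set of `3 b` elements has `3 b` elements).
(2) Let `P(a, b, c, d) = 0`.  Let `M` be large; `(∏ a_i)^M P(a, b, c, (1 + b c)/a) = Q(a, b, c)` for a polynomial `Q` over `F_p`
(the identity `(∏ x_i)^M P(x, y, z, w) ≡ Q(x, y, z)` modulo the ideal generated by the `x_i w_i - y_i z_i - 1`; prove by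
`MvPolynomial.induction_on` that for every `P` there are `M, Q` such that `(∏ x_i)^M P(x, y, z, w) = Q(x, y, z)` in every commutative ring
for all `x, y, z, w` with `x_i w_i - y_i z_i = 1`).  By (1) `Q = 0`.
(3) Let `r i = [[a, b], [c, d]] ∈ SL_2(κ)`.  Consider `r'_i = r_i [[1, 0], [s, 1]] ∈ SL_2(κ[s])`, `s` a variable: its upper left entry `a + b s` is
not zero in `κ[s]`.  By (2), `(∏ (a_i + b_i s))^M P(r') = Q(r') = 0` in the domain `κ[s]`, so `P(r') = 0`; put `s = 0`. -/
def S_pts : Prop :=
  ∀ (p : ℕ) [Fact p.Prime] (b : ℕ) (F : Type) [Field F] [Algebra (ZMod p) F]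
    (m : Fin b → Matrix.SpecialLinearGroup (Fin 2) F),
    Algebra.trdeg (ZMod p) (IntermediateField.adjoin (ZMod p)
      {x : F | ∃ i k l, x = (m i).1 k l}) = 3 * b →
    ∀ (κ : Type) [Field κ] [Algebra (ZMod p) κ] (r : Fin b → Matrix.SpecialLinearGroup (Fin 2) κ)
      (P : MvPolynomial (Fin b × Fin 2 × Fin 2) (ZMod p)),
      MvPolynomial.aeval (fun s => (m s.1).1 s.2.1 s.2.2) P = 0 →
      MvPolynomial.aeval (fun s => (r s.1).1 s.2.1 s.2.2) P = 0

/-- [FrN J lft] (about 100 lines) Lifts of a representation of the free group to the dual numbers.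
Proof. `FreeGroup.lift`: the lifts correspond to the families `(s_i)` of elements of `SL_2(κ[ε])` with
`fst (s_i) = r_i` entrywise, `r_i = r (of i)` (the condition for all words follows from the condition for the generators, as `fst` is a ring homomorphism).
For one `i` their number is `|κ| ^ 3`: `s = r_i (1 + ε X)`, the determinant of `1 + ε X` is `1 + ε tr X`, so `X` runs through the
matrices of trace `0`.  (`Nat.card` of a finite product.) -/
def S_lft : Prop :=
  ∀ (b : ℕ) (κ : Type) [Field κ] [Finite κ]
    (r : FreeGroup (Fin b) →* Matrix.SpecialLinearGroup (Fin 2) κ),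
    Nat.card {s : FreeGroup (Fin b) →* Matrix.SpecialLinearGroup (Fin 2) (DualNumber κ) //
      ∀ g i j, TrivSqZeroExt.fst ((s g).1 i j) = (r g).1 i j} ≤ Nat.card κ ^ (3 * b)

end Pool.Agent.FrN
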