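import Pool.Agent.Lib.MP_305fdd_al.Fr.N.Hlp
import Pool.Agent.Lib.MP_305fdd_al.Fr.N.StmJ

/-!
# MP_305fdd_al, F_r project, section N: the free group with generic matrices is in the class `H(b)`
-/

set_option autoImplicit false

namespace Pool.Agent.FrN

open Pool.Agent.F2Ch Pool.Agent.F2RF Pool.Agent.F2TF

section restr

variable {Γ R F : Type} [Group Γ] [CommRing R] [CommRing F]

/-- a representation with its entries in the subring `R` of `F` -/
def restr (i : R →+* F) (hi : Function.Injective i)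
    (ρ : Γ →* Matrix.SpecialLinearGroup (Fin 2) F) (e : Γ → Fin 2 → Fin 2 → R)
    (he : ∀ g k l, i (e g k l) = (ρ g).1 k l) : Γ →* Matrix.SpecialLinearGroup (Fin 2) R where
  toFun g := ⟨Matrix.of (e g), by
    apply hi
    rw [Matrix.det_fin_two, map_sub, map_mul, map_mul, map_one]
    simp only [Matrix.of_apply]
    rw [he, he, he, he, ← Matrix.det_fin_two]
    exact (ρ g).2⟩
  map_one' := by
    apply Subtype.ext
    ext k l
    apply hi
    change i (e 1 k l) = i ((1 : Matrix (Fin 2) (Fin 2) R) k l)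
    rw [he, map_one]
    by_cases h : k = l
    · subst h; simp
    · rw [Matrix.one_apply_ne h, map_zero]
      exact Matrix.one_apply_ne h
  map_mul' g h := by
    apply Subtype.ext
    ext k l
    apply hi
    change i (e (g * h) k l) = i ((Matrix.of (e g) * Matrix.of (e h)) k l)
    rw [he, map_mul, Matrix.SpecialLinearGroup.coe_mul]
    simp only [Matrix.mul_apply, Fin.sum_univ_two, Matrix.of_apply, map_add, map_mul, he]

theorem restr_apply (i : R →+* F) (hi : Function.Injective i)
    (ρ : Γ →* Matrix.SpecialLinearGroup (Fin 2) F) (e : Γ → Fin 2 → Fin 2 → R)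
    (he : ∀ g k l, i (e g k l) = (ρ g).1 k l) (g : Γ) (k l : Fin 2) :
    (restr i hi ρ e he g).1 k l = e g k l := rfl

end restr

/-- the fractions -/
theorem frc_adjoin {p : ℕ} [Fact p.Prime] {L K : Type} [Field L] [Field K] [Algebra (ZMod p) L]
    [Algebra (ZMod p) K] (i : L →ₐ[ZMod p] K) (S : Set L)
    (h : ∀ x : L, i x ∈ IntermediateField.adjoin (ZMod p) (i '' S)) :
    Frc (Algebra.adjoin (ZMod p) S) := by
  intro x
  obtain ⟨r, hr, s, hs, hx⟩ := IntermediateField.mem_adjoin_iff_div.mp (h x)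
  rw [← AlgHom.map_adjoin] at hr hs
  obtain ⟨r, hr, rfl⟩ := hr
  obtain ⟨s, hs, rfl⟩ := hs
  change i x = i r / i s at hx
  by_cases h0 : s = 0
  · refine ⟨0, zero_mem _, 1, one_mem _, one_ne_zero, ?_⟩
    rw [h0, map_zero, div_zero, map_eq_zero] at hx
    rw [hx, zero_mul]
  · refine ⟨r, hr, s, hs, h0, ?_⟩
    apply i.toRingHom.injective
    change i (x * s) = i r
    rw [map_mul, hx, div_mul_cancel₀]
    rwa [Ne, map_eq_zero]

section free

variable {b : ℕ} {F : Type} [Field F] [Algebra (ZMod 2) F]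
  (ρ : FreeGroup (Fin b) →* Matrix.SpecialLinearGroup (Fin 2) F)

/-- the entries of the generators -/
def gent (s : Fin b × Fin 2 × Fin 2) : F := (ρ (FreeGroup.of s.1)).1 s.2.1 s.2.2

theorem OO_free : OO 2 ρ = Algebra.adjoin (ZMod 2) (Set.range (gent ρ)) := by
  apply le_antisymm
  · apply Algebra.adjoin_le
    rintro _ ⟨g, i, j, rfl⟩
    have hall : ∀ w : FreeGroup (Fin b), ∀ i j,
        (ρ w).1 i j ∈ Algebra.adjoin (ZMod 2) (Set.range (gent ρ)) := by
      intro w
      induction w using FreeGroup.induction_on with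
      | C1 =>
        intro i j
        rw [map_one]
        by_cases h : i = j
        · subst h
          change (1 : Matrix (Fin 2) (Fin 2) F) i i ∈ _
          rw [Matrix.one_apply_eq]
          exact one_mem _
        · change (1 : Matrix (Fin 2) (Fin 2) F) i j ∈ _
          rw [Matrix.one_apply_ne h]
          exact zero_mem _
      | of x => exact fun i j => Algebra.subset_adjoin ⟨(x, i, j), rfl⟩
      | inv_of x ih =>
        intro i j
        rw [map_inv, Matrix.SpecialLinearGroup.coe_inv, Matrix.adjugate_fin_two]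
        fin_cases i <;> fin_cases j
        · exact ih 1 1
        · exact neg_mem (ih 0 1)
        · exact neg_mem (ih 1 0)
        · exact ih 0 0
      | mul x y hx hy =>
        intro i j
        rw [map_mul, Matrix.SpecialLinearGroup.coe_mul, Matrix.mul_apply, Fin.sum_univ_two]
        exact add_mem (mul_mem (hx _ _) (hy _ _)) (mul_mem (hx _ _) (hy _ _))
    exact hall g i j
  · apply Algebra.adjoin_le
    rintro _ ⟨s, rfl⟩
    exact mem_OO ρ _ _ _

theorem OO_free_fg : (OO 2 ρ).FG := by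
  rw [OO_free]
  exact Subalgebra.fg_def.mpr ⟨_, Set.finite_range _, rfl⟩

/-- representations of the free group are specialisations of a generic one -/
theorem pts_free (hpts : S_pts) (hfr : Frc (OO 2 ρ)) (htr : Algebra.trdeg (ZMod 2) F = 3 * b)
    (κ : Type) [Field κ] [Finite κ] [Algebra (ZMod 2) κ]
    (r : FreeGroup (Fin b) →* Matrix.SpecialLinearGroup (Fin 2) κ) :
    ∃ φ : OO 2 ρ →ₐ[ZMod 2] κ, ∀ g i j, φ ⟨(ρ g).1 i j, mem_OO ρ g i j⟩ = (r g).1 i j := by
  classical
  have hset : {x : F | ∃ i k l, x = (ρ (FreeGroup.of i)).1 k l} = Set.range (gent ρ) := by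
    ext x
    constructor
    · rintro ⟨i, k, l, rfl⟩
      exact ⟨(i, k, l), rfl⟩
    · rintro ⟨⟨i, k, l⟩, rfl⟩
      exact ⟨i, k, l, rfl⟩
  have htop : IntermediateField.adjoin (ZMod 2)
      {x : F | ∃ i k l, x = (ρ (FreeGroup.of i)).1 k l} = ⊤ := by
    rw [hset, eq_top_iff]
    intro x _
    obtain ⟨a, ha, c, hc, hc0, hx⟩ := hfr x
    rw [OO_free] at ha hc
    have h1 := IntermediateField.algebra_adjoin_le_adjoin (ZMod 2) (Set.range (gent ρ))
    have h2 : x = a / c := by
      rw [← hx, mul_div_cancel_right₀ _ hc0]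
    rw [h2]
    exact div_mem (h1 ha) (h1 hc)
  have htr' : Algebra.trdeg (ZMod 2) (IntermediateField.adjoin (ZMod 2)
      {x : F | ∃ i k l, x = (ρ (FreeGroup.of i)).1 k l}) = 3 * b := by
    rw [htop, ← htr]
    exact IntermediateField.topEquiv.trdeg_eq
  have hP := hpts 2 b F (fun i => ρ (FreeGroup.of i)) htr' κ (fun i => r (FreeGroup.of i))
  have hOO : OO 2 ρ = (MvPolynomial.aeval (R := ZMod 2) (gent ρ)).range := by
    rw [OO_free, Algebra.adjoin_range_eq_range_aeval]
  let E : MvPolynomial (Fin b × Fin 2 × Fin 2) (ZMod 2) →ₐ[ZMod 2] OO 2 ρ :=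
    (MvPolynomial.aeval (R := ZMod 2) (gent ρ)).codRestrict (OO 2 ρ) (by
      intro P
      rw [hOO]
      exact ⟨P, rfl⟩)
  have hE : Function.Surjective E := by
    rintro ⟨x, hx⟩
    have hx' := hx
    rw [hOO] at hx'
    obtain ⟨P, hP⟩ := hx'
    exact ⟨P, Subtype.ext hP⟩
  let φ : OO 2 ρ →ₐ[ZMod 2] κ := AlgHom.liftOfSurjective E hE
    (MvPolynomial.aeval (fun s => (r (FreeGroup.of s.1)).1 s.2.1 s.2.2)) (by
      intro P h0
      rw [RingHom.mem_ker] at h0 ⊢
      exact hP P (congrArg Subtype.val h0))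
  have hφ : ∀ P, φ (E P) = MvPolynomial.aeval
      (fun s : Fin b × Fin 2 × Fin 2 => (r (FreeGroup.of s.1)).1 s.2.1 s.2.2) P := fun P =>
    AlgHom.liftOfSurjective_apply E hE _ _ P
  refine ⟨φ, ?_⟩
  let ρ' : FreeGroup (Fin b) →* Matrix.SpecialLinearGroup (Fin 2) (OO 2 ρ) :=
    restr (OO 2 ρ).val.toRingHom Subtype.val_injective ρ
      (fun g i j => ⟨(ρ g).1 i j, mem_OO ρ g i j⟩) (fun _ _ _ => rfl)
  have hr : (Matrix.SpecialLinearGroup.map (φ : OO 2 ρ →+* κ)).comp ρ' = r := by
    apply FreeGroup.ext_hom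
    intro x
    ext i j
    change φ ⟨(ρ (FreeGroup.of x)).1 i j, _⟩ = (r (FreeGroup.of x)).1 i j
    have h1 : (⟨(ρ (FreeGroup.of x)).1 i j, mem_OO ρ (FreeGroup.of x) i j⟩ : OO 2 ρ) =
        E (MvPolynomial.X (x, i, j)) := by
      apply Subtype.ext
      change _ = MvPolynomial.aeval (R := ZMod 2) (gent ρ) (MvPolynomial.X (x, i, j))
      rw [MvPolynomial.aeval_X]
      rfl
    rw [h1, hφ, MvPolynomial.aeval_X]
  intro g i j
  have := congrArg (fun s : FreeGroup (Fin b) →* Matrix.SpecialLinearGroup (Fin 2) κ =>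
    (s g).1 i j) hr
  exact this

/-- homomorphisms from the free group to `F_2` -/
theorem ab_free (b : ℕ) : Nat.card (FreeGroup (Fin b) →* Multiplicative (ZMod 2)) = 2 ^ b := by
  rw [← Nat.card_congr (FreeGroup.lift (α := Fin b) (β := Multiplicative (ZMod 2)))]
  rw [Nat.card_fun]
  simp

/-- the free group is in the class `H(b)` -/
theorem hb_free (hpts : S_pts) (hlft : S_lft) {K : Type} [Field K] [Algebra (ZMod 2) K]
    [Algebra K F] (T : FreeGroup (Fin b) → K) (htr : ∀ g, (ρ g).1.trace = algebraMap K F (T g))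
    (hK : Frc (BB 2 T)) (hF : Frc (OO 2 ρ)) (htF : Algebra.trdeg (ZMod 2) F = 3 * b)
    (htK : Algebra.trdeg (ZMod 2) K + 3 = 3 * b) : HB 2 b (FreeGroup (Fin b)) K F T ρ where
  fg := inferInstance
  tr := htr
  fracK := hK
  fracF := hF
  trF := htF
  trK := htK
  pts κ _ _ _ r := pts_free ρ hpts hF htF κ r
  lifts κ _ _ _ r := hlft b κ r
  ab := ab_free b

end free

/-- the traces of a representation form a pseudo-character -/
theorem pchar_of_tr {p : ℕ} [Fact p.Prime] {Γ K F : Type} [Group Γ] [Field K] [Field F]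
    [Algebra (ZMod p) K] [Algebra K F] {T : Γ → K}
    {ρ : Γ →* Matrix.SpecialLinearGroup (Fin 2) F}
    (htr : ∀ g, (ρ g).1.trace = algebraMap K F (T g)) :
    Pool.Agent.CC.PChar (F := ZMod p) (1 : Γ →* (ZMod p)ˣ) T where
  one := by
    apply (algebraMap K F).injective
    rw [← htr, map_one, map_ofNat]
    simp
  comm g h := by
    apply (algebraMap K F).injective
    rw [← htr, ← htr, map_mul, map_mul]
    exact Matrix.trace_mul_comm (ρ g).1 (ρ h).1
  rel g h := by
    rw [MonoidHom.one_apply, Units.val_one, map_one, one_mul]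
    apply (algebraMap K F).injective
    rw [map_add, map_mul, ← htr, ← htr, ← htr, ← htr, map_mul, map_mul, map_inv]
    exact tr_rel _ _

end Pool.Agent.FrN
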